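import Pool.Agent.Q97.RL.S8

set_option autoImplicit false
set_option linter.unusedSectionVars false

/-!
# Project RGL: windows with superposed kernels, heights up to `4 π cos u (X / N) ^ (1 / m)`
-/

open Complex Filter Topology Set MeasureTheory Metric
open scoped ComplexConjugate

namespace Pool.Agent.Q97.RL

open Pool.Agent
open Pool.Agent.Y23 (TT N2 Fa)
open Pool.Agent.Y23.G

variable [L : LFun]

/-- **windows with superposed kernels** -/
theorem win_sup {u b : ℝ} (hu0 : 0 < u) (hu1 : u < Real.pi / 2) (hb0 : 0 < b) (hb : b < 2 * cc (L := L) * (Real.sin u - u * Real.cos u)) :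
    Win (L := L) (4 * cc (L := L) / L.m * Real.cos u) b := by
  have hm1 := m_one (L := L)
  have hm0 : (0 : ℝ) < L.m := by linarith
  have hcc := cc_pos (L := L)
  have hpi := Real.pi_pos
  have hcos : 0 < Real.cos u := Real.cos_pos_of_mem_Ioo ⟨by linarith, hu1⟩
  -- the angle
  obtain ⟨v, hv0, hvu, hv⟩ : ∃ v : ℝ, 0 < v ∧ v < u ∧ b < 2 * (cc (L := L) * Real.cos u / Real.cos v) * (Real.sin v - v * Real.cos v) := by
    have h1 : ContinuousAt (fun v : ℝ => 2 * (cc (L := L) * Real.cos u / Real.cos v) * (Real.sin v - v * Real.cos v)) u := by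
      refine ContinuousAt.mul (ContinuousAt.mul continuousAt_const (ContinuousAt.div continuousAt_const Real.continuous_cos.continuousAt hcos.ne')) ?_
      fun_prop
    have h2 : b < 2 * (cc (L := L) * Real.cos u / Real.cos u) * (Real.sin u - u * Real.cos u) := by
      rw [mul_div_assoc, div_self hcos.ne', mul_one]
      exact hb
    have h3 := (h1.eventually (lt_mem_nhds h2)).filter_mono (nhdsWithin_le_nhds (s := Iio u))
    have h4 : ∀ᶠ v : ℝ in 𝓝[<] u, 0 < v := (nhdsWithin_le_nhds (s := Iio u)) (lt_mem_nhds hu0)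
    obtain ⟨v, ⟨h5, h6⟩, h7⟩ := ((h3.and h4).and self_mem_nhdsWithin).exists
    exact ⟨v, h6, h7, h5⟩
  have hcosv : 0 < Real.cos v := Real.cos_pos_of_mem_Ioo ⟨by linarith, by linarith⟩
  have hcc' : Real.cos u < Real.cos v := Real.cos_lt_cos_of_nonneg_of_le_pi_div_two hv0.le hu1.le hvu
  set c : ℝ := cc (L := L) * Real.cos u / Real.cos v with hc
  have hc0 : 0 < c := by positivity
  have hc1 : c < cc (L := L) := by
    rw [hc, div_lt_iff₀ hcosv]
    exact mul_lt_mul_of_pos_left hcc' hcc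
  -- the width
  obtain ⟨p, hp0, hp1, hp⟩ : ∃ p : ℝ, Real.pi / 2 - v < p ∧ p < Real.pi / 2 ∧ b < 2 * c * (Real.sin v - v * Real.cos v) - c * Real.cos p := by
    have h1 : Continuous (fun p : ℝ => 2 * c * (Real.sin v - v * Real.cos v) - c * Real.cos p) := by fun_prop
    have h2 : b < 2 * c * (Real.sin v - v * Real.cos v) - c * Real.cos (Real.pi / 2) := by
      rw [Real.cos_pi_div_two, mul_zero, sub_zero]
      exact hv
    have h3 := ((h1.tendsto (Real.pi / 2)).eventually (lt_mem_nhds h2)).filter_mono (nhdsWithin_le_nhds (s := Iio (Real.pi / 2)))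
    have h4 : ∀ᶠ p : ℝ in 𝓝[<] (Real.pi / 2), Real.pi / 2 - v < p := (nhdsWithin_le_nhds (s := Iio (Real.pi / 2))) (lt_mem_nhds (by linarith))
    obtain ⟨p, ⟨h5, h6⟩, h7⟩ := ((h3.and h4).and self_mem_nhdsWithin).exists
    exact ⟨p, h6, h7, h5⟩
  obtain ⟨ω, hTD⟩ := tdS (L := L) (u := v) (c := c) (p := p) (θ := 4 * cc (L := L) / L.m * Real.cos u) hv0 (by linarith) hc0 hc1 hp0.le hp1 (by positivity) (le_of_eq (by
    rw [hc]
    field_simp))
  exact win_td (L := L) hTD (by positivity) hb0 (by linarith)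

end Pool.Agent.Q97.RL
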