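import Pool.Agent.Q97.RL.R11
import Pool.Agent.Q97.RL.S9

set_option autoImplicit false

/-!
# Project RGL: the theorem, in any normalisation
-/

open Complex Filter Topology Set MeasureTheory Metric
open scoped ComplexConjugate

namespace Pool.Agent.Q97.RL

open Pool.Agent
open Pool.Agent.Y23 (TT N2 Fa)
open Pool.Agent.Y23.G
open Pool.Agent.Q240.CD (Tg_Hn Hn_Tg a_rep a_trigInv)
open Pool.Agent.Q286.TR (LFunction D1 D2 W W2 Trig W_eq trig_cj MC mc_line M_line toL)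

/-- the results: `V` the form, `Λ` the completed L-function, `c = r` the centre, `m` the degree, `Q` the conductor -/
structure OutR (V : ℝ → (ℝ → ℂ) → ℝ) (Λ : ℂ → ℂ) (c : ℂ) (r m Q : ℝ) : Prop where
  win : ∀ u b : ℝ, 0 < u → u < Real.pi / 2 → 0 < b → b < 2 * Real.pi * m * Q ^ (-(1 / m)) * (Real.sin u - u * Real.cos u) →
    ∃ κ K : ℝ, 0 < κ ∧ ∀ a h : ℝ, K ≤ a → K * a ≤ h → h ≤ Real.exp (2 * a / m) →
      RigC Λ (fun α β μ => ∀ f, TestP a f → CompC V c a α β μ f) (4 * Real.pi * Real.cos u * Q ^ (-(1 / m)) * h)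
        (Real.exp (-(κ * h / Real.log h))) (Real.exp (-(b * h))) ∧
      ∀ n : ℕ, K * a * h ≤ n →
        RigC Λ (fun α β μ => ∀ f, Trig a n f → CompC V c a α β μ f) (4 * Real.pi * Real.cos u * Q ^ (-(1 / m)) * h)
          (Real.exp (-(κ * h / Real.log h))) (Real.exp (-(b * h)))
  node : ∀ (a s t : ℝ) (n : ℕ), 0 < a → 0 ≤ s → Real.pi < a * (t - s) → n + 1 < a * t / Real.pi → ∀ (α β : ℝ) (μ : Measure ℝ),
    (∀ f, Trig a n f → CompC V c a α β μ f) → ∀ M : ℝ, 0 ≤ M → ∃ μ' : Measure ℝ, (∀ f, Trig a n f → CompC V c a α β μ' f) ∧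
      μ' (Ioo s t) = μ (Ioo s t) + ENNReal.ofReal M
  rh : (∀ s : ℂ, Λ s = 0 → s.re = r) ↔ ∀ (a : ℝ) (n : ℕ), 0 < a → ∃ μ : Measure ℝ, ∀ f, Trig a n f → CompC V c a 1 1 μ f
  rhn : ∀ n : ℝ → ℕ, Tendsto (fun a : ℝ => (n a : ℝ) / a) atTop atTop → ((∀ s : ℂ, Λ s = 0 → s.re = r) ↔
    ∀ A : ℝ, ∃ a : ℝ, A ≤ a ∧ ∃ (α β : ℝ) (μ : Measure ℝ), 0 ≤ α ∧ 0 < β ∧ ∀ f, Trig a (n a) f → CompC V c a α β μ f)
  rht : (∀ s : ℂ, Λ s = 0 → s.re = r) ↔
    ∀ A : ℝ, ∃ a : ℝ, A ≤ a ∧ ∃ (α β : ℝ) (μ : Measure ℝ), 0 ≤ α ∧ 0 < β ∧ ∀ f, TestP a f → CompC V c a α β μ f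

section

variable {L : LFunction} {Λ : ℂ → ℂ} {c : ℂ} {r : ℝ} {k : ℂ} {V : ℝ → (ℝ → ℂ) → ℝ}

lemma cc_eq (L : LFunction) : cc (L := toL L) = Real.pi * L.m * L.Q ^ (-(1 / (L.m : ℝ))) := by
  have hQ : 0 < L.Q := lt_of_lt_of_le one_pos L.one_le_Q
  unfold cc
  rw [Real.rpow_def_of_pos hQ]
  show Real.pi * L.m * Real.exp (-(Real.log L.Q / L.m)) = _
  congr 2
  ring

theorem outR (hΛd : Differentiable ℂ Λ) (hc : c = r) (hk : k ≠ 0) (hΛ : ∀ s, L.Λ s = k * Λ (s + (c - 1 / 2)))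
    (hV : ∀ a, 0 < a → ∀ f : ℝ → ℂ, Hd a f → V a f = W L a f) : OutR V Λ c r L.m L.Q := by
  have hm1 : (1 : ℝ) ≤ L.m := by exact_mod_cast L.one_le_m
  have hm0 : (0 : ℝ) < L.m := by linarith
  have hrh := Pool.Agent.Q286.TR.rh_iff (L := L) hc hk hΛ
  have hsol : ∀ {a : ℝ} (ha : 0 < a), Pool.Agent.Q286.TR.GRH L → ∀ f : ℝ → ℂ, Hd a f → CompC V c a 1 1 (zm (D := D1 L)) f := by
    intro a ha hRH f hf
    obtain ⟨h1, h2⟩ := zm_sol (D := D1 L) ((rhD L).1 hRH) ha hf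
    rw [comp_iff hV ha 1 1 _ hf, h2, one_mul]
    exact ⟨h1, le_rfl, le_rfl⟩
  have hsq : Tendsto (fun a : ℝ => ((⌈a ^ 2⌉₊ : ℕ) : ℝ) / a) atTop atTop := by
    refine tendsto_atTop_mono' _ ?_ tendsto_id
    filter_upwards [eventually_gt_atTop 0] with a ha
    rw [le_div_iff₀ ha]
    calc id a * a = a ^ 2 := by simp only [id]; ring
      _ ≤ _ := Nat.le_ceil _
  refine ⟨fun u b hu0 hu1 hb0 hb => ?_, fun a s t n ha hs hst hn α β μ hμ M hM => ?_, ⟨fun hRH a n ha => ⟨zm (D := D1 L), fun f hf => ?_⟩, fun h => ?_⟩,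
    fun n hn => ⟨fun hRH A => ?_, fun h => ?_⟩, ⟨fun hRH A => ?_, fun h => ?_⟩⟩
  · -- windows
    have hb' : b < 2 * cc (L := toL L) * (Real.sin u - u * Real.cos u) := by
      rw [cc_eq]
      convert hb using 2
      ring
    obtain ⟨κ, K, hκ, hK, H⟩ := win_sup (L := toL L) hu0 hu1 hb0 hb'
    have hθ : 4 * cc (L := toL L) / (L.m : ℝ) * Real.cos u = 4 * Real.pi * Real.cos u * L.Q ^ (-(1 / (L.m : ℝ))) := by
      rw [cc_eq]
      field_simp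
    change ∀ (a h : ℝ) (ν : ℕ∞), K ≤ a → K * a ≤ h → h ≤ Real.exp (2 * a / L.m) → ((⌈K * a * h⌉₊ : ℕ) : ℕ∞) ≤ ν →
      ∀ (α β : ℝ) (μ : Measure ℝ), 0 ≤ α → 0 < β → Rp (D := D1 L) a ν α β μ → ∀ s t : ℝ, |s| ≤ 4 * cc (L := toL L) / (L.m : ℝ) * Real.cos u * h →
      |t| ≤ 4 * cc (L := toL L) / (L.m : ℝ) * Real.cos u * h →
      (∀ ρ : Zt (D := D1 L), Real.exp (-(κ * h / Real.log h)) ≤ |s - (ρ : ℂ).im| ∧ Real.exp (-(κ * h / Real.log h)) ≤ |t - (ρ : ℂ).im|) →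
      μ (Ioo s t) ≠ ⊤ ∧ α * Nz (D := D1 L) s t - β * Real.exp (-(b * h)) ≤ μ.real (Ioo s t) ∧
        μ.real (Ioo s t) ≤ β * (Nz (D := D1 L) s t + Real.exp (-(b * h))) at H
    rw [hθ] at H
    have hNC := NC_eq (L := L) hΛd hc hk hΛ
    refine ⟨κ, K, hκ, fun a h ha hah hh => ⟨fun α β μ hα hβ hμ s t hs ht hfar => ?_, fun n hn α β μ hα hβ hμ s t hs ht hfar => ?_⟩⟩
    · have ha0 : 0 < a := by linarith
      have := H a h ⊤ ha hah hh le_top α β μ hα hβ (smooth_rp hV ha0 hβ hμ ⊤) s t hs ht (far_iff hc hk hΛ hfar)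
      rw [hNC] at this
      exact this
    · have ha0 : 0 < a := by linarith
      have := H a h (n : ℕ∞) ha hah hh (by exact_mod_cast Nat.ceil_le.2 hn) α β μ hα hβ ((solves_iff hV ha0 n α β μ).1 hμ) s t hs ht (far_iff hc hk hΛ hfar)
      rw [hNC] at this
      exact this
  · -- the node
    have hpi := Real.pi_pos
    have hk1 : 2 ≤ ⌈a * t / Real.pi⌉₊ := by
      have : (1 : ℝ) < a * t / Real.pi := by
        have h0 : (0 : ℝ) ≤ n := Nat.cast_nonneg n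
        linarith
      have h2 := Nat.lt_ceil.2 (by exact_mod_cast this : ((1 : ℕ) : ℝ) < a * t / Real.pi)
      omega
    obtain ⟨j, hj⟩ : ∃ j : ℕ, ⌈a * t / Real.pi⌉₊ = j + 1 := ⟨⌈a * t / Real.pi⌉₊ - 1, by omega⟩
    have h1 : (j : ℝ) < a * t / Real.pi := Nat.lt_ceil.1 (by omega)
    have h2 : a * t / Real.pi ≤ (j : ℝ) + 1 := by
      have := Nat.le_ceil (a * t / Real.pi)
      rw [hj] at this
      exact_mod_cast this
    have h3 : n < j := by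
      have : ((n + 1 : ℕ) : ℝ) < a * t / Real.pi := by push_cast; exact hn
      have := Nat.lt_ceil.2 this
      omega
    refine ⟨μ + ENNReal.ofReal M • Measure.dirac (Real.pi * j / a), add_node ha hμ h3 _ ENNReal.ofReal_ne_top, ?_⟩
    have hmem : Real.pi * j / a ∈ Ioo s t := by
      rw [lt_div_iff₀ hpi] at h1
      rw [div_le_iff₀ hpi] at h2
      constructor
      · rw [lt_div_iff₀ ha]
        nlinarith
      · rw [div_lt_iff₀ ha]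
        linarith
    rw [Measure.add_apply, Measure.smul_apply, Measure.dirac_apply' _ measurableSet_Ioo, Set.indicator_of_mem hmem]
    simp
  · exact hsol ha (hrh.2 hRH) f (Tg_Hn ha hf).hd
  · by_contra hRH
    obtain ⟨a, h1, ha⟩ := ((nonex (L := L) (fun h' => hRH (hrh.1 h')) _ hsq).and (eventually_gt_atTop 0)).exists
    obtain ⟨μ, hμ⟩ := h a ⌈a ^ 2⌉₊ ha
    exact h1 _ 1 1 μ le_rfl one_pos ((solves_iff hV ha _ 1 1 μ).1 hμ)
  · have ha0 : 0 < max A 1 := lt_of_lt_of_le one_pos (le_max_right _ _)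
    exact ⟨max A 1, le_max_left _ _, 1, 1, zm (D := D1 L), zero_le_one, one_pos, fun f hf => hsol ha0 (hrh.2 hRH) f (Tg_Hn ha0 hf).hd⟩
  · by_contra hRH
    obtain ⟨A, h1⟩ := eventually_atTop.1 (nonex (L := L) (fun h' => hRH (hrh.1 h')) n hn)
    obtain ⟨a, ha, α, β, μ, -, hβ, hμ⟩ := h (max A 1)
    exact h1 a ((le_max_left _ _).trans ha) _ α β μ le_rfl hβ ((solves_iff hV (lt_of_lt_of_le one_pos ((le_max_right _ _).trans ha)) _ α β μ).1 hμ)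
  · have ha0 : 0 < max A 1 := lt_of_lt_of_le one_pos (le_max_right _ _)
    exact ⟨max A 1, le_max_left _ _, 1, 1, zm (D := D1 L), zero_le_one, one_pos, fun f hf => hsol ha0 (hrh.2 hRH) f (test_hd ha0 hf)⟩
  · by_contra hRH
    obtain ⟨A, h1⟩ := eventually_atTop.1 (nonex (L := L) (fun h' => hRH (hrh.1 h')) _ hsq)
    obtain ⟨a, ha, α, β, μ, -, hβ, hμ⟩ := h (max A 1)
    exact h1 a ((le_max_left _ _).trans ha) ⊤ α β μ le_top hβ (smooth_rp hV (lt_of_lt_of_le one_pos ((le_max_right _ _).trans ha)) hβ hμ ⊤)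

end

end Pool.Agent.Q97.RL
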