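import Pool.Agent.Q97.RL.K2

set_option autoImplicit false
set_option linter.unusedSectionVars false
set_option maxHeartbeats 2000000

/-!
# Project RGL: rotated bounds in all of the plane (as `Pool/Agent/Y23/G/Ts2.lean`)
-/

open Complex Filter Topology Set MeasureTheory Metric
open scoped ComplexConjugate

namespace Pool.Agent.Q97.RL

open Pool.Agent
open Pool.Agent.Y23 (TT Fa)
open Pool.Agent.Y23.G
open Pool.Agent.W169.HF H353.E Pool.Agent.W355.UN Pool.Agent.TH839.NA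

section
variable [P : RP]

lemma ExR_mono {A B σ : ℝ} (h : A ≤ B) (hσ : 0 ≤ σ) : ExR A σ ≤ ExR B σ := by
  unfold ExR
  have h1 : 0 ≤ Real.log (2 + σ) := Real.log_nonneg (by linarith)
  nlinarith [mul_le_mul_of_nonneg_right h h1]

lemma ExR_low {A σ R : ℝ} (hA : 0 ≤ A) (hσ : 0 ≤ σ) (hR : σ ≤ R) :
    A - P.m / 2 * (1 + R * |kpR|) ≤ ExR A σ := by
  unfold ExR
  have hm := m_oneR (P := P)
  have h1 : 0 ≤ Real.log (2 + σ) := Real.log_nonneg (by linarith)
  have h2 : -1 ≤ σ * Real.log σ := by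
    rcases hσ.eq_or_lt with h | h
    · rw [← h]; simp
    · have h3 := Real.one_sub_inv_le_log_of_pos h
      have h4 : σ * (1 - σ⁻¹) ≤ σ * Real.log σ := mul_le_mul_of_nonneg_left h3 hσ
      have h5 : σ * (1 - σ⁻¹) = σ - 1 := by field_simp
      linarith
  have h3 : σ * kpR ≤ R * |kpR| := by
    have h4 : kpR ≤ |kpR| := le_abs_self _
    have h5 := abs_nonneg kpR
    nlinarith
  have h6 : -(1 + R * |kpR|) ≤ σ * (Real.log σ - kpR) := by nlinarith
  have h7 : P.m / 2 * -(1 + R * |kpR|) ≤ P.m / 2 * (σ * (Real.log σ - kpR)) :=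
    mul_le_mul_of_nonneg_left h6 (by positivity)
  have h8 : 0 ≤ A * Real.log (2 + σ) := mul_nonneg hA h1
  linarith

end

variable [L : LFun]

/-- the rotated function -/
noncomputable def HR (ε : ℝ) (w : ℂ) : ℂ := L.X (1 / 2 + w) * cexp (-(I * ε * w))

lemma norm_rot (ε : ℝ) (w : ℂ) : ‖cexp (-(I * ε * w))‖ = Real.exp (ε * w.im) := by
  rw [Complex.norm_exp]
  congr 1
  simp

lemma HR_diff (ε : ℝ) : Differentiable ℂ (HR (L := L) ε) := by
  unfold HR
  have h1 : Differentiable ℂ (fun z : ℂ => L.X (1 / 2 + z)) := Xd.comp (by fun_prop)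
  exact h1.mul (by fun_prop)

lemma HR_norm (ε : ℝ) (w : ℂ) : ‖HR (L := L) ε w‖ = ‖L.X (1 / 2 + w)‖ * Real.exp (ε * w.im) := by
  unfold HR
  rw [norm_mul, norm_rot]

/-- bounds everywhere, uniformly in the rotation -/
lemma X_allRU {θ : ℝ} (hθ0 : 0 ≤ θ) (hθ1 : θ < Real.pi / 2) : ∃ A : ℝ, 0 ≤ A ∧ ∀ ε : ℝ, |ε| ≤ L.m * θ / 2 → ∀ w : ℂ,
    ‖HR (L := L) ε w‖ ≤ Real.exp (ExR (P := rpL (L := L) hθ0 hθ1) A |w.re|) / (1 + w.im ^ 2) := by
  obtain ⟨A, hA, hb0⟩ := X_rightR (L := L) hθ0 hθ1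
  set M : ℝ := Real.exp (ExR (P := rpL (L := L) hθ0 hθ1) A 2) with hM
  have hM0 : 0 < M := Real.exp_pos _
  have hm := m_one (L := L)
  refine ⟨max A (Real.log (144 * M) + L.m / 2 * (1 + 2 * |kpR (P := rpL (L := L) hθ0 hθ1)|)) , hA.trans (le_max_left _ _), fun ε hε => ?_⟩
  have hrot : ∀ (x A' : ℝ) (w : ℂ), ‖L.X (1 / 2 + w)‖ ≤ Real.exp (A' - L.m * θ / 2 * |w.im|) / (1 + w.im ^ 2) →
      ‖HR (L := L) ε w‖ ≤ Real.exp A' / (1 + w.im ^ 2) := by
    intro x A' w h
    rw [HR_norm]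
    have h1 : ε * w.im ≤ L.m * θ / 2 * |w.im| := by
      calc ε * w.im ≤ |ε * w.im| := le_abs_self _
        _ = |ε| * |w.im| := abs_mul _ _
        _ ≤ _ := mul_le_mul_of_nonneg_right hε (abs_nonneg _)
    calc ‖L.X (1 / 2 + w)‖ * Real.exp (ε * w.im) ≤ (Real.exp (A' - L.m * θ / 2 * |w.im|) / (1 + w.im ^ 2)) * Real.exp (L.m * θ / 2 * |w.im|) :=
          mul_le_mul h (Real.exp_le_exp.2 h1) (Real.exp_pos _).le (by positivity)
      _ = (Real.exp (A' - L.m * θ / 2 * |w.im|) * Real.exp (L.m * θ / 2 * |w.im|)) / (1 + w.im ^ 2) := by ring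
      _ = _ := by rw [← Real.exp_add, sub_add_cancel]
  have hb' : ∀ w : ℂ, 2 ≤ |w.re| → ‖HR (L := L) ε w‖ ≤ Real.exp (ExR (P := rpL (L := L) hθ0 hθ1) A |w.re|) / (1 + w.im ^ 2) := by
    intro w hw
    refine hrot 0 _ w ?_
    rcases le_total 0 w.re with h | h
    · rw [abs_of_nonneg h] at hw ⊢
      exact hb0 w hw
    · rw [abs_of_nonpos h] at hw ⊢
      rw [X_reflect]
      have h1 := hb0 (-conj w) (by simpa using hw)
      simpa using h1
  -- the strip
  have hstrip : ∀ w : ℂ, |w.re| ≤ 2 → ‖HR (L := L) ε w‖ ≤ 144 * M / (1 + w.im ^ 2) := by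
    intro w hw
    set f : ℂ → ℂ := fun z => HR (L := L) ε z * (z - 10) ^ 2 with hf
    have hfd : Differentiable ℂ f := (HR_diff (L := L) ε).mul (by fun_prop)
    have hn10 : ∀ z : ℂ, ‖(z - 10 : ℂ) ^ 2‖ = (z.re - 10) ^ 2 + z.im ^ 2 := by
      intro z
      rw [norm_pow, Complex.sq_norm, Complex.normSq_apply]
      simp
      ring
    have hedge : ∀ z : ℂ, |z.re| = 2 → ‖f z‖ ≤ 144 * M := by
      intro z hz
      have h1 := hb' z hz.ge
      rw [hz] at h1
      simp only [hf]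
      rw [norm_mul, hn10]
      have h2 : (z.re - 10) ^ 2 + z.im ^ 2 ≤ 144 * (1 + z.im ^ 2) := by
        have h3 := abs_le.1 hz.le
        nlinarith [sq_nonneg z.im]
      calc ‖HR (L := L) ε z‖ * ((z.re - 10) ^ 2 + z.im ^ 2) ≤ (M / (1 + z.im ^ 2)) * (144 * (1 + z.im ^ 2)) := by gcongr
        _ = _ := by field_simp
    have hs : Slow (fun u => L.X (1 / 2 + (1 : ℝ) * u)) := slow_affine L.raw.slow (1 / 2) one_pos
    obtain ⟨K, hK, hKb⟩ := hs.2 1 one_pos
    have hPL := PhragmenLindelof.vertical_strip (a := -2) (b := 2) (f := f) (C := 144 * M) (z := w)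
      hfd.diffContOnCl ?_ (fun z hz => hedge z (by rw [hz]; norm_num)) (fun z hz => hedge z (by rw [hz]; norm_num))
      (abs_le.1 hw).1 (abs_le.1 hw).2
    · simp only [hf] at hPL
      rw [norm_mul, hn10] at hPL
      rw [le_div_iff₀ (by positivity)]
      refine le_trans (mul_le_mul_of_nonneg_left ?_ (norm_nonneg _)) hPL
      have h3 := (abs_le.1 hw).2
      nlinarith [sq_nonneg w.im]
    · refine ⟨1 / 2, by
        have := Real.pi_gt_three
        linarith, 14 + 2 * |ε|, ?_⟩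
      refine Asymptotics.IsBigO.of_bound (300 * K) ?_
      refine (Filter.Eventually.filter_mono inf_le_right ?_)
      rw [Filter.eventually_principal]
      intro z hz
      have hz1 : -2 < z.re ∧ z.re < 2 := hz
      simp only [hf]
      rw [norm_mul, hn10]
      have h1 : ‖L.X (1 / 2 + z)‖ ≤ K * Real.exp (‖z‖ ^ 2) := by
        have h0 := hKb z
        rw [one_mul] at h0
        have e : (1 / 2 + z : ℂ) = 1 / 2 + ((1 : ℝ) : ℂ) * z := by push_cast; ring
        rw [e]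
        exact h0
      set E := Real.exp (1 / 2 * |z.im|) with hE
      have hE1 : 1 ≤ E := Real.one_le_exp (by positivity)
      have h2 : z.im ^ 2 ≤ 8 * E := by
        have h3 := Real.quadratic_le_exp_of_nonneg (x := 1 / 2 * |z.im|) (by positivity)
        rw [← sq_abs]
        have := abs_nonneg z.im
        nlinarith
      have h3 : ‖z‖ ^ 2 ≤ 12 * E := by
        rw [Complex.sq_norm, Complex.normSq_apply]
        nlinarith
      have h4 : (z.re - 10) ^ 2 + z.im ^ 2 ≤ 300 * Real.exp E := by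
        have := Real.add_one_le_exp E
        nlinarith
      have h5 : ‖HR (L := L) ε z‖ ≤ K * Real.exp (12 * E) * Real.exp (2 * |ε| * E) := by
        rw [HR_norm]
        have h6 : ε * z.im ≤ 2 * |ε| * E := by
          have h7 : |z.im| ≤ 2 * E := by linarith [Real.add_one_le_exp (1 / 2 * |z.im|)]
          calc ε * z.im ≤ |ε * z.im| := le_abs_self _
            _ = |ε| * |z.im| := abs_mul _ _
            _ ≤ |ε| * (2 * E) := mul_le_mul_of_nonneg_left h7 (abs_nonneg _)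
            _ = _ := by ring
        refine mul_le_mul (h1.trans ?_) (Real.exp_le_exp.2 h6) (Real.exp_pos _).le (by positivity)
        gcongr
      rw [Real.norm_eq_abs, abs_of_pos (Real.exp_pos _)]
      calc ‖HR (L := L) ε z‖ * ((z.re - 10) ^ 2 + z.im ^ 2) ≤ (K * Real.exp (12 * E) * Real.exp (2 * |ε| * E)) * (300 * Real.exp E) :=
            mul_le_mul h5 h4 (by positivity) (by positivity)
        _ = 300 * K * Real.exp ((13 + 2 * |ε|) * E) := by
            rw [show (13 + 2 * |ε|) * E = 12 * E + 2 * |ε| * E + E by ring, Real.exp_add, Real.exp_add]; ring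
        _ ≤ 300 * K * Real.exp ((14 + 2 * |ε|) * E) := by
            refine mul_le_mul_of_nonneg_left (Real.exp_le_exp.2 ?_) (by positivity)
            nlinarith
  intro w
  rcases le_total 2 |w.re| with h | h
  · refine (hb' w h).trans ?_
    gcongr
    exact ExR_mono (P := rpL (L := L) hθ0 hθ1) (le_max_left _ _) (by linarith)
  · refine (hstrip w h).trans ?_
    refine div_le_div_of_nonneg_right ?_ (by positivity)
    rw [← Real.log_le_iff_le_exp (by positivity)]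
    have h1 := ExR_low (P := rpL (L := L) hθ0 hθ1) (A := max A (Real.log (144 * M) + L.m / 2 * (1 + 2 * |kpR (P := rpL (L := L) hθ0 hθ1)|))) (hA.trans (le_max_left _ _))
      (abs_nonneg w.re) h
    change max A (Real.log (144 * M) + L.m / 2 * (1 + 2 * |kpR (P := rpL (L := L) hθ0 hθ1)|)) - L.m / 2 * (1 + 2 * |kpR (P := rpL (L := L) hθ0 hθ1)|) ≤ _ at h1
    have h2 : Real.log (144 * M) + L.m / 2 * (1 + 2 * |kpR (P := rpL (L := L) hθ0 hθ1)|) ≤ max A (Real.log (144 * M) + L.m / 2 * (1 + 2 * |kpR (P := rpL (L := L) hθ0 hθ1)|)) :=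
      le_max_right _ _
    linarith

/-- bounds everywhere -/
lemma X_allR {θ ε : ℝ} (hθ0 : 0 ≤ θ) (hθ1 : θ < Real.pi / 2) (hε : |ε| ≤ L.m * θ / 2) : ∃ A : ℝ, 0 ≤ A ∧ ∀ w : ℂ,
    ‖HR (L := L) ε w‖ ≤ Real.exp (ExR (P := rpL (L := L) hθ0 hθ1) A |w.re|) / (1 + w.im ^ 2) := by
  obtain ⟨A, hA, h⟩ := X_allRU (L := L) hθ0 hθ1
  exact ⟨A, hA, h ε hε⟩

end Pool.Agent.Q97.RL
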