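import Pool.Agent.Q97.RL.R4
import Pool.Agent.Q97.RI.Smo

set_option autoImplicit false

/-!
# Project RGL: from smooth test functions to the form domain (as `Q97/RI/Smo.lean` and `Q97/RI/Smo2.lean`)
-/

open Complex Filter Topology Set Metric MeasureTheory
open scoped ComplexConjugate

namespace Pool.Agent.Q97.RL

open Pool.Agent.Q97.RI (Smo)
open Pool.Agent.Y23 (TT Fa TT_sub TT_add)
open Pool.Agent.Y23.G

lemma hd_iff (a : ℝ) (f : ℝ → ℂ) : Hd a f ↔ Y23.Hd a f := Iff.rfl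

lemma smo_seq {a : ℝ} {f : ℝ → ℂ} (ha : 0 < a) (hf : Hd a f) :
    ∃ g : ℕ → ℝ → ℂ, (∀ k, Smo a (g k)) ∧ (∀ k, Hd a (g k)) ∧ ∀ k : ℕ, LL (fun x => f x - g k x) ≤ 1 / ((k : ℝ) + 1) :=
  Pool.Agent.Q97.RI.smo_seq ha hf

variable [D : ZD] [EC : ZC]

lemma SS_par {a : ℝ} (ha : 0 < a) {f g : ℝ → ℂ} (hf : Hd a f) (hg : Hd a g) {s : ℝ} (hs : 0 < s) :
    SS (fun x => f x - g x) ≤ (1 + s) * SS f + (1 + 1 / s) * SS g := by
  unfold SS
  have h1 := hf.dom ha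
  have h2 := hg.dom ha
  rw [← tsum_mul_left, ← tsum_mul_left, ← (h1.mul_left (1 + s)).tsum_add (h2.mul_left (1 + 1 / s))]
  refine ((hf.sub hg).dom ha).tsum_le_tsum (fun ρ => ?_) ((h1.mul_left (1 + s)).add (h2.mul_left (1 + 1 / s)))
  rw [TT_sub hf.1 hg.1]
  have h3 := mul_le_mul_of_nonneg_left (Pool.Agent.Q65.EX.sq_add_le_par (TT f ((ρ : ℂ) - 1 / 2)) (-TT g ((ρ : ℂ) - 1 / 2)) hs)
    (Nat.cast_nonneg (mu ρ) : (0 : ℝ) ≤ mu ρ)
  rw [norm_neg, ← sub_eq_add_neg] at h3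
  calc _ ≤ _ := h3
    _ = _ := by ring

/-- the form is continuous -/
lemma QQ_diff {a : ℝ} (ha : 0 < a) {f g : ℝ → ℂ} (hf : Hd a f) (hg : Hd a g) {s : ℝ} (hs : 0 < s) :
    |QQ f - QQ g| ≤ 1 / s * SS (fun x => f x - g x) + s / 2 * (SS f + SS g) := by
  have hF := hf.dom ha
  have hG := hg.dom ha
  have hD := (hf.sub hg).dom ha
  have hsum : ∀ {u : ℝ → ℂ}, Dom u → Summable (fun ρ : Zt => (mu ρ : ℝ) * (GG u u ((ρ : ℂ) - 1 / 2)).re) := by
    intro u hu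
    refine Summable.of_norm (Summable.of_nonneg_of_le (fun _ => norm_nonneg _) (fun ρ => ?_) ((hu.add hu.refl).mul_left (1 / 2)))
    rw [norm_mul, Real.norm_natCast, Real.norm_eq_abs]
    have h := mul_le_mul_of_nonneg_left ((Complex.abs_re_le_norm _).trans (norm_GG_zero u u ((ρ : ℂ) - 1 / 2)))
      (Nat.cast_nonneg (mu ρ) : (0 : ℝ) ≤ mu ρ)
    calc _ ≤ _ := h
      _ = _ := by ring
  have hrefl : ∀ u : ℝ → ℂ, ∑' ρ : Zt, (mu ρ : ℝ) * ‖TT u (-conj ((ρ : ℂ) - 1 / 2))‖ ^ 2 = SS u := by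
    intro u
    unfold SS
    rw [← rfZ.tsum_eq (fun ρ : Zt => (mu ρ : ℝ) * ‖TT u ((ρ : ℂ) - 1 / 2)‖ ^ 2)]
    refine tsum_congr fun ρ => ?_
    rw [rfZ_sub, mu_rfZ]
  have key : ∀ ρ : Zt, ‖(mu ρ : ℝ) * (GG f f ((ρ : ℂ) - 1 / 2)).re - (mu ρ : ℝ) * (GG g g ((ρ : ℂ) - 1 / 2)).re‖ ≤
      1 / (2 * s) * ((mu ρ : ℝ) * ‖TT (fun x => f x - g x) ((ρ : ℂ) - 1 / 2)‖ ^ 2 +
        (mu ρ : ℝ) * ‖TT (fun x => f x - g x) (-conj ((ρ : ℂ) - 1 / 2))‖ ^ 2) +
      s / 2 * ((mu ρ : ℝ) * ‖TT f (-conj ((ρ : ℂ) - 1 / 2))‖ ^ 2 + (mu ρ : ℝ) * ‖TT g ((ρ : ℂ) - 1 / 2)‖ ^ 2) := by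
    intro ρ
    set w : ℂ := (ρ : ℂ) - 1 / 2
    rw [TT_sub hf.1 hg.1, TT_sub hf.1 hg.1]
    unfold GG
    set x := TT f w
    set x' := TT f (-conj w)
    set y := TT g w
    set y' := TT g (-conj w)
    have e1 : (mu ρ : ℝ) * (x * conj x').re - (mu ρ : ℝ) * (y * conj y').re = (mu ρ : ℝ) * ((x - y) * conj x' + y * conj (x' - y')).re := by
      rw [← mul_sub, ← Complex.sub_re]
      congr 2
      rw [map_sub]
      ring
    rw [e1, norm_mul, Real.norm_natCast, Real.norm_eq_abs]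
    have e2 : |((x - y) * conj x' + y * conj (x' - y')).re| ≤ ‖x - y‖ * ‖x'‖ + ‖y‖ * ‖x' - y'‖ := by
      refine (Complex.abs_re_le_norm _).trans ((norm_add_le _ _).trans ?_)
      rw [norm_mul, norm_mul, RCLike.norm_conj, RCLike.norm_conj]
    have e3 : ‖x - y‖ * ‖x'‖ ≤ 1 / (2 * s) * ‖x - y‖ ^ 2 + s / 2 * ‖x'‖ ^ 2 := by
      have : 0 ≤ (‖x - y‖ - s * ‖x'‖) ^ 2 / (2 * s) := by positivity
      have e : (‖x - y‖ - s * ‖x'‖) ^ 2 / (2 * s) = 1 / (2 * s) * ‖x - y‖ ^ 2 + s / 2 * ‖x'‖ ^ 2 - ‖x - y‖ * ‖x'‖ := by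
        field_simp
        ring
      linarith
    have e4 : ‖y‖ * ‖x' - y'‖ ≤ 1 / (2 * s) * ‖x' - y'‖ ^ 2 + s / 2 * ‖y‖ ^ 2 := by
      have : 0 ≤ (‖x' - y'‖ - s * ‖y‖) ^ 2 / (2 * s) := by positivity
      have e : (‖x' - y'‖ - s * ‖y‖) ^ 2 / (2 * s) = 1 / (2 * s) * ‖x' - y'‖ ^ 2 + s / 2 * ‖y‖ ^ 2 - ‖y‖ * ‖x' - y'‖ := by
        field_simp
        ring
      linarith
    have e5 := mul_le_mul_of_nonneg_left (e2.trans (add_le_add e3 e4)) (Nat.cast_nonneg (mu ρ) : (0 : ℝ) ≤ mu ρ)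
    calc _ ≤ _ := e5
      _ = _ := by ring
  have hs1 : Summable fun ρ : Zt => 1 / (2 * s) * ((mu ρ : ℝ) * ‖TT (fun x => f x - g x) ((ρ : ℂ) - 1 / 2)‖ ^ 2 +
        (mu ρ : ℝ) * ‖TT (fun x => f x - g x) (-conj ((ρ : ℂ) - 1 / 2))‖ ^ 2) := (hD.add hD.refl).mul_left _
  have hs2 : Summable fun ρ : Zt => s / 2 * ((mu ρ : ℝ) * ‖TT f (-conj ((ρ : ℂ) - 1 / 2))‖ ^ 2 + (mu ρ : ℝ) * ‖TT g ((ρ : ℂ) - 1 / 2)‖ ^ 2) :=
    (hF.refl.add hG).mul_left _
  have e : QQ f - QQ g = ∑' ρ : Zt, ((mu ρ : ℝ) * (GG f f ((ρ : ℂ) - 1 / 2)).re - (mu ρ : ℝ) * (GG g g ((ρ : ℂ) - 1 / 2)).re) :=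
    ((hsum hF).tsum_sub (hsum hG)).symm
  rw [e, ← Real.norm_eq_abs]
  refine (tsum_of_norm_bounded (hs1.add hs2).hasSum key).trans (le_of_eq ?_)
  rw [hs1.tsum_add hs2, tsum_mul_left, tsum_mul_left, hD.tsum_add hD.refl, hF.refl.tsum_add hG, hrefl, hrefl]
  show 1 / (2 * s) * (SS (fun x => f x - g x) + SS (fun x => f x - g x)) + s / 2 * (SS f + SS g) = _
  have : 1 / (2 * s) * (SS (fun x => f x - g x) + SS (fun x => f x - g x)) = 1 / s * SS (fun x => f x - g x) := by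
    generalize SS (fun x => f x - g x) = X
    field_simp
    ring
  rw [this]

/-- the comparison for smooth test functions implies the comparison on the form domain -/
theorem smo_ext {a α β : ℝ} {μ : Measure ℝ} (ha : 0 < a) (hβ : 0 ≤ β)
    (h : ∀ g : ℝ → ℂ, Smo a g → Integrable (fun t : ℝ => ‖TT g (t * I)‖ ^ 2) μ ∧ α * QQ g ≤ ∫ t : ℝ, ‖TT g (t * I)‖ ^ 2 ∂μ ∧
      ∫ t : ℝ, ‖TT g (t * I)‖ ^ 2 ∂μ ≤ β * QQ g) {f : ℝ → ℂ} (hf : Hd a f) :
    Integrable (fun t : ℝ => ‖TT f (t * I)‖ ^ 2) μ ∧ α * QQ f ≤ ∫ t : ℝ, ‖TT f (t * I)‖ ^ 2 ∂μ ∧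
      ∫ t : ℝ, ‖TT f (t * I)‖ ^ 2 ∂μ ≤ β * QQ f := by
  obtain ⟨g, hg1, hg2, hg3⟩ := smo_seq ha hf
  obtain ⟨C, hC, hdom⟩ := dom_of_Hd ha
  have hcont : ∀ u : ℝ → ℂ, Hd a u → Continuous fun t : ℝ => ‖TT u (t * I)‖ ^ 2 := fun u hu => Pool.Agent.Q97.RI.cont_TT hu.1
  -- the differences of the test functions
  have hpair : ∀ k j : ℕ, k ≤ j → ∫⁻ t : ℝ, ENNReal.ofReal (‖TT (fun x => g j x - g k x) (t * I)‖ ^ 2) ∂μ ≤ ENNReal.ofReal (4 * β * C / ((k : ℝ) + 1)) := by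
    intro k j hkj
    have h1 := h _ ((hg1 j).sub (hg1 k))
    rw [← ofReal_integral_eq_lintegral_ofReal h1.1 (ae_of_all _ fun t => sq_nonneg _)]
    refine ENNReal.ofReal_le_ofReal (h1.2.2.trans ?_)
    have hd := (hg2 j).sub (hg2 k)
    have h2 := hdom _ hd
    have h3 := (le_abs_self _).trans (QQ_abs_le h2.1)
    have h4 := LL_sub_le (hf.sub (hg2 k)) (hf.sub (hg2 j))
    have e : (fun x => (f x - g k x) - (f x - g j x)) = fun x => g j x - g k x := by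
      funext x
      ring
    rw [e] at h4
    have h5 := hg3 k
    have h6 := hg3 j
    have h7 : 1 / ((j : ℝ) + 1) ≤ 1 / ((k : ℝ) + 1) := by
      refine one_div_le_one_div_of_le (by positivity) ?_
      have : (k : ℝ) ≤ j := by exact_mod_cast hkj
      linarith
    have h8 : QQ (fun x => g j x - g k x) ≤ C * (4 * (1 / ((k : ℝ) + 1))) := by
      refine h3.trans (h2.2.trans (mul_le_mul_of_nonneg_left ?_ hC.le))
      linarith
    calc β * QQ (fun x => g j x - g k x) ≤ β * (C * (4 * (1 / ((k : ℝ) + 1)))) := mul_le_mul_of_nonneg_left h8 hβ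
      _ = 4 * β * C / ((k : ℝ) + 1) := by
          field_simp
  -- the limit
  have hlim : ∀ k : ℕ, ∫⁻ t : ℝ, ENNReal.ofReal (‖TT (fun x => f x - g k x) (t * I)‖ ^ 2) ∂μ ≤ ENNReal.ofReal (4 * β * C / ((k : ℝ) + 1)) := by
    intro k
    have h1 : ∀ t : ℝ, Tendsto (fun j => ENNReal.ofReal (‖TT (fun x => g j x - g k x) (t * I)‖ ^ 2)) atTop
        (𝓝 (ENNReal.ofReal (‖TT (fun x => f x - g k x) (t * I)‖ ^ 2))) := by
      intro t
      refine ENNReal.tendsto_ofReal ?_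
      have h2 := (Pool.Agent.Q65.EX.TT_tendsto ha hf hg2 hg3 (t * I)).sub_const (TT (g k) (t * I))
      rw [← TT_sub hf.1 (hg2 k).1] at h2
      refine (h2.norm.pow 2).congr fun j => ?_
      rw [TT_sub (hg2 j).1 (hg2 k).1]
    calc ∫⁻ t : ℝ, ENNReal.ofReal (‖TT (fun x => f x - g k x) (t * I)‖ ^ 2) ∂μ
        = ∫⁻ t : ℝ, liminf (fun j => ENNReal.ofReal (‖TT (fun x => g j x - g k x) (t * I)‖ ^ 2)) atTop ∂μ :=
          lintegral_congr fun t => (h1 t).liminf_eq.symm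
      _ ≤ liminf (fun j => ∫⁻ t : ℝ, ENNReal.ofReal (‖TT (fun x => g j x - g k x) (t * I)‖ ^ 2) ∂μ) atTop :=
          lintegral_liminf_le fun j => (ENNReal.continuous_ofReal.comp (hcont _ ((hg2 j).sub (hg2 k)))).measurable
      _ ≤ ENNReal.ofReal (4 * β * C / ((k : ℝ) + 1)) := by
          refine liminf_le_of_le (by isBoundedDefault) fun b hb => ?_
          obtain ⟨j, hj1, hj2⟩ := (hb.and (eventually_ge_atTop k)).exists
          exact hj1.trans (hpair k j hj2)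
  have hd : ∀ k, Hd a (fun x => f x - g k x) := fun k => hf.sub (hg2 k)
  have hint : ∀ k : ℕ, Integrable (fun t : ℝ => ‖TT (fun x => f x - g k x) (t * I)‖ ^ 2) μ := fun k =>
    ⟨(hcont _ (hd k)).aestronglyMeasurable, by
      rw [hasFiniteIntegral_iff_ofReal (ae_of_all _ fun t => sq_nonneg _)]
      exact lt_of_le_of_lt (hlim k) ENNReal.ofReal_lt_top⟩
  have hval : ∀ k : ℕ, ∫ t : ℝ, ‖TT (fun x => f x - g k x) (t * I)‖ ^ 2 ∂μ ≤ 4 * β * C / ((k : ℝ) + 1) := by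
    intro k
    have h1 := hlim k
    rw [← ofReal_integral_eq_lintegral_ofReal (hint k) (ae_of_all _ fun t => sq_nonneg _)] at h1
    exact (ENNReal.ofReal_le_ofReal_iff (by positivity)).1 h1
  have hfi : Integrable (fun t : ℝ => ‖TT f (t * I)‖ ^ 2) μ := by
    refine (((h _ (hg1 0)).1.const_mul 2).add ((hint 0).const_mul 2)).mono' (hcont f hf).aestronglyMeasurable (Eventually.of_forall fun t => ?_)
    rw [Real.norm_eq_abs, abs_of_nonneg (sq_nonneg _)]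
    have h1 := Pool.Agent.Q65.EX.sq_add_le_par (TT (g 0) (t * I)) (TT (fun x => f x - g 0 x) (t * I)) one_pos
    have e : TT (g 0) (t * I) + TT (fun x => f x - g 0 x) (t * I) = TT f (t * I) := by
      rw [TT_sub hf.1 (hg2 0).1]
      ring
    rw [e] at h1
    simp only [Pi.add_apply]
    linarith
  -- the two inequalities
  have hup : ∀ (s : ℝ) (k : ℕ), 0 < s → ∫ t : ℝ, ‖TT f (t * I)‖ ^ 2 ∂μ ≤ (1 + s) * (β * QQ (g k)) + (1 + 1 / s) * (4 * β * C / ((k : ℝ) + 1)) := by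
    intro s k hs
    have h1 := h _ (hg1 k)
    calc ∫ t : ℝ, ‖TT f (t * I)‖ ^ 2 ∂μ ≤ ∫ t : ℝ, ((1 + s) * ‖TT (g k) (t * I)‖ ^ 2 + (1 + 1 / s) * ‖TT (fun x => f x - g k x) (t * I)‖ ^ 2) ∂μ := by
          refine integral_mono hfi ((h1.1.const_mul _).add ((hint k).const_mul _)) fun t => ?_
          have h2 := Pool.Agent.Q65.EX.sq_add_le_par (TT (g k) (t * I)) (TT (fun x => f x - g k x) (t * I)) hs
          have e : TT (g k) (t * I) + TT (fun x => f x - g k x) (t * I) = TT f (t * I) := by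
            rw [TT_sub hf.1 (hg2 k).1]
            ring
          rw [e] at h2
          exact h2
      _ = (1 + s) * (∫ t : ℝ, ‖TT (g k) (t * I)‖ ^ 2 ∂μ) + (1 + 1 / s) * ∫ t : ℝ, ‖TT (fun x => f x - g k x) (t * I)‖ ^ 2 ∂μ := by
          rw [integral_add (h1.1.const_mul _) ((hint k).const_mul _), integral_const_mul, integral_const_mul]
      _ ≤ _ := add_le_add (mul_le_mul_of_nonneg_left h1.2.2 (by positivity)) (mul_le_mul_of_nonneg_left (hval k) (by positivity))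
  have hlo : ∀ (s : ℝ) (k : ℕ), 0 < s → α * QQ (g k) ≤ (1 + s) * (∫ t : ℝ, ‖TT f (t * I)‖ ^ 2 ∂μ) + (1 + 1 / s) * (4 * β * C / ((k : ℝ) + 1)) := by
    intro s k hs
    have h1 := h _ (hg1 k)
    calc α * QQ (g k) ≤ ∫ t : ℝ, ‖TT (g k) (t * I)‖ ^ 2 ∂μ := h1.2.1
      _ ≤ ∫ t : ℝ, ((1 + s) * ‖TT f (t * I)‖ ^ 2 + (1 + 1 / s) * ‖TT (fun x => f x - g k x) (t * I)‖ ^ 2) ∂μ := by
          refine integral_mono h1.1 ((hfi.const_mul _).add ((hint k).const_mul _)) fun t => ?_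
          have h2 := Pool.Agent.Q65.EX.sq_add_le_par (TT f (t * I)) (-TT (fun x => f x - g k x) (t * I)) hs
          have e : TT f (t * I) + -TT (fun x => f x - g k x) (t * I) = TT (g k) (t * I) := by
            rw [TT_sub hf.1 (hg2 k).1]
            ring
          rw [e, norm_neg] at h2
          exact h2
      _ = (1 + s) * (∫ t : ℝ, ‖TT f (t * I)‖ ^ 2 ∂μ) + (1 + 1 / s) * ∫ t : ℝ, ‖TT (fun x => f x - g k x) (t * I)‖ ^ 2 ∂μ := by
          rw [integral_add (hfi.const_mul _) ((hint k).const_mul _), integral_const_mul, integral_const_mul]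
      _ ≤ _ := add_le_add le_rfl (mul_le_mul_of_nonneg_left (hval k) (by positivity))
  -- convergence of the form
  have hS : ∀ k, SS (fun x => f x - g k x) ≤ C * (1 / ((k : ℝ) + 1)) := fun k =>
    (hdom _ (hd k)).2.trans (mul_le_mul_of_nonneg_left (hg3 k) hC.le)
  have hSg : ∀ k, SS (g k) ≤ 2 * SS f + 2 * C := by
    intro k
    have h1 := SS_par ha hf (hd k) one_pos
    have e : (fun x => f x - (f x - g k x)) = g k := by
      funext x
      ring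
    rw [e] at h1
    have h2 := hS k
    have h3 : 1 / ((k : ℝ) + 1) ≤ 1 := by
      rw [div_le_one (by positivity)]
      have : (0 : ℝ) ≤ k := Nat.cast_nonneg k
      linarith
    have h4 : C * (1 / ((k : ℝ) + 1)) ≤ C * 1 := mul_le_mul_of_nonneg_left h3 hC.le
    linarith
  have hQ : Tendsto (fun k => QQ (g k)) atTop (𝓝 (QQ f)) := by
    rw [Metric.tendsto_atTop]
    intro ε hε
    set X : ℝ := 3 * SS f + 2 * C + 1 with hX
    have hSf : 0 ≤ SS f := SS_nonneg f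
    have hX0 : 0 < X := by positivity
    set s : ℝ := ε / X with hs
    have hs0 : 0 < s := by positivity
    have hz : Tendsto (fun k : ℕ => 1 / s * (C * (1 / ((k : ℝ) + 1)))) atTop (𝓝 0) := by
      have := ((tendsto_one_div_add_atTop_nhds_zero_nat (𝕜 := ℝ)).const_mul C).const_mul (1 / s)
      simpa using this
    obtain ⟨K, hK⟩ := eventually_atTop.1 (hz.eventually (gt_mem_nhds (half_pos hε)))
    refine ⟨K, fun k hk => ?_⟩
    have h1 := hK k hk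
    have h2 := QQ_diff ha hf (hg2 k) hs0
    rw [Real.dist_eq, abs_sub_comm]
    have h3 := mul_le_mul_of_nonneg_left (hS k) (by positivity : (0 : ℝ) ≤ 1 / s)
    have h4 : s / 2 * (SS f + SS (g k)) ≤ ε / 2 := by
      have h5 : SS f + SS (g k) ≤ X := by
        have := hSg k
        rw [hX]
        linarith
      calc s / 2 * (SS f + SS (g k)) ≤ s / 2 * X := mul_le_mul_of_nonneg_left h5 (by positivity)
        _ = ε / 2 := by
            rw [hs]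
            field_simp
    linarith
  have hz : ∀ s : ℝ, Tendsto (fun k : ℕ => (1 + 1 / s) * (4 * β * C / ((k : ℝ) + 1))) atTop (𝓝 0) := by
    intro s
    have := ((tendsto_one_div_add_atTop_nhds_zero_nat (𝕜 := ℝ)).const_mul (4 * β * C)).const_mul (1 + 1 / s)
    rw [mul_zero, mul_zero] at this
    refine this.congr fun k => ?_
    rw [mul_one_div]
  have hup2 : ∀ s : ℝ, 0 < s → ∫ t : ℝ, ‖TT f (t * I)‖ ^ 2 ∂μ ≤ (1 + s) * (β * QQ f) := by
    intro s hs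
    have h1 : Tendsto (fun k : ℕ => (1 + s) * (β * QQ (g k)) + (1 + 1 / s) * (4 * β * C / ((k : ℝ) + 1))) atTop (𝓝 ((1 + s) * (β * QQ f) + 0)) :=
      ((hQ.const_mul β).const_mul (1 + s)).add (hz s)
    rw [add_zero] at h1
    exact ge_of_tendsto h1 (Eventually.of_forall fun k => hup s k hs)
  have hlo2 : ∀ s : ℝ, 0 < s → α * QQ f ≤ (1 + s) * ∫ t : ℝ, ‖TT f (t * I)‖ ^ 2 ∂μ := by
    intro s hs
    have h1 : Tendsto (fun k : ℕ => (1 + s) * (∫ t : ℝ, ‖TT f (t * I)‖ ^ 2 ∂μ) + (1 + 1 / s) * (4 * β * C / ((k : ℝ) + 1))) atTop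
        (𝓝 ((1 + s) * (∫ t : ℝ, ‖TT f (t * I)‖ ^ 2 ∂μ) + 0)) := tendsto_const_nhds.add (hz s)
    rw [add_zero] at h1
    exact le_of_tendsto_of_tendsto' (hQ.const_mul α) h1 fun k => hlo s k hs
  have hcl : ∀ x y : ℝ, (∀ s : ℝ, 0 < s → x ≤ (1 + s) * y) → x ≤ y := by
    intro x y hxy
    have h1 : Tendsto (fun s : ℝ => (1 + s) * y) (𝓝[>] 0) (𝓝 ((1 + 0) * y)) :=
      ((tendsto_const_nhds.add tendsto_id).mul_const y).mono_left nhdsWithin_le_nhds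
    rw [add_zero, one_mul] at h1
    exact ge_of_tendsto h1 (eventually_mem_nhdsWithin.mono fun s hs => hxy s hs)
  exact ⟨hfi, hcl _ _ hlo2, hcl _ _ hup2⟩

end Pool.Agent.Q97.RL
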