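import Pool.Agent.Q97.RL.R7
import Pool.Agent.Q97.RL.R8

set_option autoImplicit false

/-!
# Project RGL: windows, in terms of `h = exp (2 b / m)`
-/

open Complex Filter Topology Set MeasureTheory Metric
open scoped ComplexConjugate

namespace Pool.Agent.Q97.RL

open Pool.Agent
open Pool.Agent.Y23 (TT N2 Fa)
open Pool.Agent.Y23.G

/-- rigidity in windows, for heights up to `θ h` and with the error `exp (- c h)` -/
def Win [L : LFun] (θ c : ℝ) : Prop := ∃ κ K : ℝ, 0 < κ ∧ 1 ≤ K ∧ ∀ (a h : ℝ) (ν : ℕ∞), K ≤ a → K * a ≤ h → h ≤ Real.exp (2 * a / L.m) →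
  ((⌈K * a * h⌉₊ : ℕ) : ℕ∞) ≤ ν → ∀ (α β : ℝ) (μ : Measure ℝ), 0 ≤ α → 0 < β → Rp a ν α β μ → ∀ s t : ℝ, |s| ≤ θ * h → |t| ≤ θ * h →
    (∀ ρ : Zt, Real.exp (-(κ * h / Real.log h)) ≤ |s - (ρ : ℂ).im| ∧ Real.exp (-(κ * h / Real.log h)) ≤ |t - (ρ : ℂ).im|) →
      μ (Ioo s t) ≠ ⊤ ∧ α * Nz s t - β * Real.exp (-(c * h)) ≤ μ.real (Ioo s t) ∧ μ.real (Ioo s t) ≤ β * (Nz s t + Real.exp (-(c * h)))

variable [L : LFun]

theorem win_td {c2 U θ ω c : ℝ} (hTD : TD (L := L) c2 U θ ω) (hθ0 : 0 < θ) (hc0 : 0 < c) (hc : c < c2 - U) : Win (L := L) θ c := by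
  have hpi := Real.pi_pos
  have hm1 := m_one (L := L)
  have hm0 : (0 : ℝ) < L.m := by linarith
  obtain ⟨κ, A, η, hκ, hA, hη, H⟩ := uniform (L := L) hTD (le_max_left ω (θ / Real.pi))
    (by
      have := le_max_right ω (θ / Real.pi)
      rwa [div_le_iff₀ hpi, mul_comm] at this) hθ0 hc0 hc
  set ω' : ℝ := max ω (θ / Real.pi) with hω'
  set K : ℝ := max (max 1 (Real.exp (2 * A / L.m) + 1)) (max (1 / η) ω') with hK
  have hK1 : 1 ≤ K := (le_max_left _ _).trans (le_max_left _ _)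
  have hK2 : Real.exp (2 * A / L.m) + 1 ≤ K := (le_max_right _ _).trans (le_max_left _ _)
  have hK3 : 1 / η ≤ K := (le_max_left _ _).trans (le_max_right _ _)
  have hK4 : ω' ≤ K := (le_max_right _ _).trans (le_max_right _ _)
  refine ⟨2 * κ / L.m, K, by positivity, hK1, fun a h ν ha hah hh hν α β μ hα hβ hμ s t hs ht hfar => ?_⟩
  have ha1 : 1 ≤ a := hK1.trans ha
  have ha0 : 0 < a := by linarith
  have hKh : K ≤ h := (le_mul_of_one_le_right (by linarith) ha1).trans hah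
  have hh1 : 1 < h := by
    have := Real.exp_pos (2 * A / L.m)
    linarith
  have hh0 : 0 < h := by linarith
  have hlog : 0 < Real.log h := Real.log_pos hh1
  set b : ℝ := L.m / 2 * Real.log h with hb
  have hEb : Real.exp (2 * b / L.m) = h := by
    have : 2 * b / L.m = Real.log h := by
      rw [hb]
      field_simp
    rw [this, Real.exp_log hh0]
  have hAb : A ≤ b := by
    have h1 : 2 * A / L.m ≤ Real.log h := by
      rw [Real.le_log_iff_exp_le hh0]
      linarith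
    rw [div_le_iff₀ hm0] at h1
    rw [hb]
    linarith
  have hba : b ≤ a := by
    have h1 : Real.log h ≤ 2 * a / L.m := by
      rw [Real.log_le_iff_le_exp hh0]
      exact hh
    rw [le_div_iff₀ hm0] at h1
    rw [hb]
    linarith
  have hηa : a ≤ η * Real.exp (2 * b / L.m) := by
    rw [hEb]
    have h1 : 1 / η * a ≤ h := (mul_le_mul_of_nonneg_right hK3 ha0.le).trans hah
    have h2 : 1 / η * a = a / η := by ring
    rw [h2, div_le_iff₀ hη] at h1
    linarith
  have hbig : big2 (L := L) ω' a b ν := by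
    unfold big2
    rw [hEb]
    refine le_trans ?_ hν
    have h1 : ω' * a * h ≤ K * a * h := by gcongr
    exact_mod_cast Nat.ceil_mono h1
  have e4 : 2 * κ / L.m * h / Real.log h = κ * Real.exp (2 * b / L.m) / b := by
    rw [hEb, hb]
    field_simp
  rw [e4] at hfar
  have key := H a b ν hAb hba hηa hbig α β μ hα hβ hμ s t (by rw [hEb]; exact hs) (by rw [hEb]; exact ht) hfar
  rw [hEb] at key
  exact key

/-- windows with the unrotated kernel -/
theorem win_unrot {θ c : ℝ} (hθ0 : 0 < θ) (hc0 : 0 < c) (hc : c + Real.pi * L.m / 4 * θ < cc (L := L)) : Win (L := L) θ c := by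
  set c2 : ℝ := (cc (L := L) + (c + Real.pi * L.m / 4 * θ)) / 2 with hc2
  obtain ⟨ω, hTD⟩ := td_unrot (L := L) (c2 := c2) hθ0.le (by rw [hc2]; linarith)
  exact win_td (L := L) hTD hθ0 hc0 (by rw [hc2]; linarith)

end Pool.Agent.Q97.RL
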