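import Pool.Agent.Q97.RL.K4

set_option autoImplicit false
set_option linter.unusedSectionVars false

/-!
# Project RGL: windows with rotated kernels
-/

open Complex Filter Topology Set MeasureTheory Metric
open scoped ComplexConjugate

namespace Pool.Agent.Q97.RL

open Pool.Agent
open Pool.Agent.Y23 (TT N2 Fa)
open Pool.Agent.Y23.G

variable [L : LFun]

/-- the size of the main term -/
lemma size_main {q0 C u θ M a E γ : ℝ} (hq0 : 0 < q0) (hM : C + |Real.log q0| ≤ M) (ha : 1 ≤ a) (hu1 : u < Real.pi / 2)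
    (hC : 0 ≤ C) (hγ : |γ| ≤ θ * E) (hlow : Real.exp (-(Real.pi * L.m / 4 * |γ|) - C) ≤ ‖L.X (ctr γ)‖) :
    Real.exp (-(L.m / 2 * (Real.pi / 2 - u) * θ * E) - M * a) ≤ q0 * Real.exp (L.m * u / 2 * |γ|) * ‖L.X (ctr γ)‖ := by
  have hm1 := m_one (L := L)
  have e1 : Real.exp (-|Real.log q0|) ≤ q0 := by
    calc Real.exp (-|Real.log q0|) ≤ Real.exp (Real.log q0) := Real.exp_le_exp.2 (neg_abs_le _)
      _ = q0 := Real.exp_log hq0
  calc Real.exp (-(L.m / 2 * (Real.pi / 2 - u) * θ * E) - M * a)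
      ≤ Real.exp (-|Real.log q0| + L.m * u / 2 * |γ| + (-(Real.pi * L.m / 4 * |γ|) - C)) := by
        refine Real.exp_le_exp.2 ?_
        have h9 : C + |Real.log q0| ≤ M * a := by
          refine hM.trans (le_mul_of_one_le_right ?_ ha)
          have := abs_nonneg (Real.log q0)
          linarith
        have h8 : 0 ≤ (L.m : ℝ) / 2 * (Real.pi / 2 - u) := by
          have : 0 ≤ Real.pi / 2 - u := by linarith
          positivity
        have h10 := mul_le_mul_of_nonneg_left hγ h8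
        have e : (L.m : ℝ) / 2 * (Real.pi / 2 - u) * (θ * E) = L.m / 2 * (Real.pi / 2 - u) * θ * E := by ring
        have e' : (L.m : ℝ) / 2 * (Real.pi / 2 - u) * |γ| = Real.pi * L.m / 4 * |γ| - L.m * u / 2 * |γ| := by ring
        linarith
    _ = Real.exp (-|Real.log q0|) * Real.exp (L.m * u / 2 * |γ|) * Real.exp (-(Real.pi * L.m / 4 * |γ|) - C) := by
        rw [Real.exp_add, Real.exp_add]
    _ ≤ _ := mul_le_mul (mul_le_mul_of_nonneg_right e1 (Real.exp_pos _).le) hlow (Real.exp_pos _).le (by positivity)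

/-- the rotated kernels -/
theorem td_rot {u c2 θ : ℝ} (hu0 : 0 ≤ u) (hu1 : u < Real.pi / 2) (hθ : 0 ≤ θ) (hc2 : c2 < cc (L := L) * Real.cos u) :
    ∃ ω : ℝ, TD (L := L) c2 (L.m / 2 * (Real.pi / 2 - u) * θ) θ ω := by
  have hm1 := m_one (L := L)
  have hφ : 0 ≤ (L.m : ℝ) * u / 2 := by positivity
  obtain ⟨q1, p1, M1, A1, ω1, hq1, hp1, hM1, hA1, H1⟩ := tdE (L := L) (ε := L.m * u / 2) hu0 hu1 (by rw [abs_of_nonneg hφ]) hθ hc2
  obtain ⟨q2, p2, M2, A2, ω2, hq2, hp2, hM2, hA2, H2⟩ := tdE (L := L) (ε := -(L.m * u / 2)) hu0 hu1 (by rw [abs_neg, abs_of_nonneg hφ]) hθ hc2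
  obtain ⟨C, hC, hlow⟩ := ctr_low (L := L)
  set M : ℝ := max (max M1 M2) (max (C + |Real.log p1|) (C + |Real.log p2|)) with hM
  have m1 : M1 ≤ M := (le_max_left _ _).trans (le_max_left _ _)
  have m2 : M2 ≤ M := (le_max_right _ _).trans (le_max_left _ _)
  have m3 : C + |Real.log p1| ≤ M := (le_max_left _ _).trans (le_max_right _ _)
  have m4 : C + |Real.log p2| ≤ M := (le_max_right _ _).trans (le_max_right _ _)
  refine ⟨max ω1 ω2, max q1 q2, M, max A1 A2, le_max_of_le_left hq1, hM1.trans m1, le_max_of_le_left hA1, fun a b ν hb hba hν γ hγ => ?_⟩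
  have hb1 : A1 ≤ b := (le_max_left _ _).trans hb
  have hb2 : A2 ≤ b := (le_max_right _ _).trans hb
  have ha1 : 1 ≤ a := (hA1.trans hb1).trans hba
  have ha0 : 0 ≤ a := by linarith
  have hR : ∀ (M' : ℝ) (R : ℂ → ℂ), M' ≤ M → (∀ w : ℂ, |w.re| ≤ 3 → ‖R w‖ ≤ Real.exp (M' * a - c2 * Real.exp (2 * b / L.m)) / (1 + |w.im|)) →
      ∀ w : ℂ, |w.re| ≤ 3 → ‖R w‖ ≤ Real.exp (M * a - c2 * Real.exp (2 * b / L.m)) / (1 + |w.im|) := by
    intro M' R hM' h w hw
    refine (h w hw).trans (div_le_div_of_nonneg_right (Real.exp_le_exp.2 ?_) (by positivity))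
    have := mul_le_mul_of_nonneg_right hM' ha0
    linarith
  rcases le_total 0 γ with h0 | h0
  · obtain ⟨g, Q, R, h1, h2, h3, h4, h5, h6, h7⟩ := H1 a b ν hb1 hba (big2_mono ha0 (le_max_left _ _) hν) γ hγ
    have e : L.m * u / 2 * γ = L.m * u / 2 * |γ| := by rw [abs_of_nonneg h0]
    rw [e] at h6 h7
    refine ⟨g, Q, R, p1 * Real.exp (L.m * u / 2 * |γ|), by positivity, h1, h2, h3, h4, hR M1 R m1 h5, h6, fun w hw hwγ => ?_, ?_⟩
    · exact (h7 w hw hwγ).trans (mul_le_mul_of_nonneg_right (le_max_left _ _) (by positivity))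
    · exact size_main (L := L) hp1 m3 ha1 hu1 hC hγ (hlow γ)
  · obtain ⟨g, Q, R, h1, h2, h3, h4, h5, h6, h7⟩ := H2 a b ν hb2 hba (big2_mono ha0 (le_max_right _ _) hν) γ hγ
    have e : -(L.m * u / 2) * γ = L.m * u / 2 * |γ| := by rw [abs_of_nonpos h0]; ring
    rw [e] at h6 h7
    refine ⟨g, Q, R, p2 * Real.exp (L.m * u / 2 * |γ|), by positivity, h1, h2, h3, h4, hR M2 R m2 h5, h6, fun w hw hwγ => ?_, ?_⟩
    · exact (h7 w hw hwγ).trans (mul_le_mul_of_nonneg_right (le_max_right _ _) (by positivity))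
    · exact size_main (L := L) hp2 m4 ha1 hu1 hC hγ (hlow γ)

/-- **windows with rotated kernels**: heights up to `2 π cos u (X / N) ^ (1 / m)` -/
theorem win_rot {u c : ℝ} (hu0 : 0 < u) (hu1 : u < Real.pi / 2) (hc0 : 0 < c) (hc : c < cc (L := L) * (Real.sin u - u * Real.cos u)) :
    Win (L := L) (2 * cc (L := L) / L.m * Real.cos u) c := by
  have hm1 := m_one (L := L)
  have hm0 : (0 : ℝ) < L.m := by linarith
  have hcc := cc_pos (L := L)
  have hcos : 0 < Real.cos u := Real.cos_pos_of_mem_Ioo ⟨by linarith, hu1⟩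
  have hsin : Real.cos (Real.pi / 2 - u) = Real.sin u := Real.cos_pi_div_two_sub u
  have hU : L.m / 2 * (Real.pi / 2 - (Real.pi / 2 - u)) * (2 * cc (L := L) / L.m * Real.cos u) = cc (L := L) * (u * Real.cos u) := by
    field_simp
    ring
  have hc' : c + cc (L := L) * (u * Real.cos u) < cc (L := L) * Real.sin u := by
    have : cc (L := L) * (Real.sin u - u * Real.cos u) = cc (L := L) * Real.sin u - cc (L := L) * (u * Real.cos u) := by ring
    linarith
  set c2 : ℝ := (cc (L := L) * Real.sin u + (c + cc (L := L) * (u * Real.cos u))) / 2 with hc2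
  obtain ⟨ω, hTD⟩ := td_rot (L := L) (u := Real.pi / 2 - u) (c2 := c2) (θ := 2 * cc (L := L) / L.m * Real.cos u) (by linarith) (by linarith)
    (by positivity) (by rw [hsin, hc2]; linarith)
  rw [hU] at hTD
  exact win_td (L := L) hTD (by positivity) hc0 (by rw [hc2]; linarith)

end Pool.Agent.Q97.RL
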