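import Pool.Agent.Y23.G.Fw5
import Pool.Agent.Y23.F.As
import Pool.Agent.Y23.G.An4

set_option autoImplicit false

/-!
# Project RGL: interpolation by a contour integral (as `Q97/RI/H1.lean`, for a wider rectangle)
-/

open Complex Filter Topology Set Metric MeasureTheory
open scoped ComplexConjugate
open H370.Loc (Pf Pf_zero Pf_cons)

namespace Pool.Agent.Q97.RL

/-- the integral over the boundary of the rectangle `[-3/2, 3/2] × [c, d]` -/
noncomputable def bi (f : ℂ → ℂ) (c d : ℝ) : ℂ :=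
  (∫ x in (-(3 / 2) : ℝ)..(3 / 2), f ⟨x, c⟩) - (∫ x in (-(3 / 2) : ℝ)..(3 / 2), f ⟨x, d⟩) + I * (∫ y in c..d, f ⟨3 / 2, y⟩) - I * (∫ y in c..d, f ⟨-(3 / 2), y⟩)

/-- the boundary of the rectangle -/
def Bd (c d : ℝ) : Set ℂ := {w | |w.re| ≤ 3 / 2 ∧ (w.im = c ∨ w.im = d) ∨ |w.re| = 3 / 2 ∧ c ≤ w.im ∧ w.im ≤ d}

/-- the closed rectangle -/
def Kr (c d : ℝ) : Set ℂ := Icc (-(3 / 2) : ℝ) (3 / 2) ×ℂ Icc c d

/-- the open rectangle -/
def Ko (c d : ℝ) : Set ℂ := Ioo (-(3 / 2) : ℝ) (3 / 2) ×ℂ Ioo c d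

lemma mem_Kr {c d : ℝ} {w : ℂ} : w ∈ Kr c d ↔ |w.re| ≤ 3 / 2 ∧ c ≤ w.im ∧ w.im ≤ d := by
  unfold Kr
  rw [Complex.mem_reProdIm, Set.mem_Icc, Set.mem_Icc, abs_le]

lemma mem_Ko {c d : ℝ} {w : ℂ} : w ∈ Ko c d ↔ |w.re| < 3 / 2 ∧ c < w.im ∧ w.im < d := by
  unfold Ko
  rw [Complex.mem_reProdIm, Set.mem_Ioo, Set.mem_Ioo, abs_lt]

lemma Bd_sub {c d : ℝ} (h : c ≤ d) : Bd c d ⊆ Kr c d := by
  rintro w (⟨h1, h2 | h2⟩ | ⟨h1, h2, h3⟩)
  · exact mem_Kr.2 ⟨h1, h2.ge, by linarith⟩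
  · exact mem_Kr.2 ⟨h1, by linarith, h2.le⟩
  · exact mem_Kr.2 ⟨h1.le, h2, h3⟩

lemma Ko_sub (c d : ℝ) : Ko c d ⊆ Kr c d := by
  intro w hw
  obtain ⟨h1, h2, h3⟩ := mem_Ko.1 hw
  exact mem_Kr.2 ⟨h1.le, h2.le, h3.le⟩

lemma not_bd {c d : ℝ} {w : ℂ} (hw : w ∉ Bd c d) : w ∈ Ko c d ∨ w ∉ Kr c d := by
  by_cases h : w ∈ Kr c d
  · left
    obtain ⟨h1, h2, h3⟩ := mem_Kr.1 h
    refine mem_Ko.2 ⟨lt_of_le_of_ne h1 fun e => hw (Or.inr ⟨e, h2, h3⟩), lt_of_le_of_ne h2 fun e => hw (Or.inl ⟨h1, Or.inl e.symm⟩),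
      lt_of_le_of_ne h3 fun e => hw (Or.inl ⟨h1, Or.inr e⟩)⟩
  · exact Or.inr h

lemma Ko_not_bd {c d : ℝ} {w : ℂ} (hw : w ∈ Ko c d) : w ∉ Bd c d := by
  obtain ⟨h1, h2, h3⟩ := mem_Ko.1 hw
  rintro (⟨-, h4 | h4⟩ | ⟨h4, -⟩) <;> linarith

section
variable {c d : ℝ}

lemma bdH {x : ℝ} (hx : x ∈ uIcc (-(3 / 2) : ℝ) (3 / 2)) : (⟨x, c⟩ : ℂ) ∈ Bd c d ∧ (⟨x, d⟩ : ℂ) ∈ Bd c d := by
  rw [uIcc_of_le (by norm_num), Set.mem_Icc, ← abs_le] at hx
  exact ⟨Or.inl ⟨hx, Or.inl rfl⟩, Or.inl ⟨hx, Or.inr rfl⟩⟩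

lemma bdV (h : c ≤ d) {y : ℝ} (hy : y ∈ uIcc c d) : (⟨3 / 2, y⟩ : ℂ) ∈ Bd c d ∧ (⟨-(3 / 2), y⟩ : ℂ) ∈ Bd c d := by
  rw [uIcc_of_le h, Set.mem_Icc] at hy
  refine ⟨Or.inr ⟨abs_of_pos (by norm_num), hy⟩, Or.inr ⟨?_, hy⟩⟩
  show |(-(3 / 2) : ℝ)| = 3 / 2
  rw [abs_neg]
  exact abs_of_pos (by norm_num)

lemma cH (y : ℝ) : Continuous (fun x : ℝ => (⟨x, y⟩ : ℂ)) := by
  have : (fun x : ℝ => (⟨x, y⟩ : ℂ)) = fun x : ℝ => (x : ℂ) + y * I := by
    funext x
    apply Complex.ext <;> simp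
  rw [this]
  fun_prop

lemma ii {f : ℂ → ℂ} (h : c ≤ d) (hf : ContinuousOn f (Bd c d)) :
    IntervalIntegrable (fun x : ℝ => f ⟨x, c⟩) volume (-(3 / 2)) (3 / 2) ∧ IntervalIntegrable (fun x : ℝ => f ⟨x, d⟩) volume (-(3 / 2)) (3 / 2) ∧
      IntervalIntegrable (fun y : ℝ => f ⟨3 / 2, y⟩) volume c d ∧ IntervalIntegrable (fun y : ℝ => f ⟨-(3 / 2), y⟩) volume c d := by
  refine ⟨ContinuousOn.intervalIntegrable ?_, ContinuousOn.intervalIntegrable ?_, ContinuousOn.intervalIntegrable ?_,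
    ContinuousOn.intervalIntegrable ?_⟩
  · exact hf.comp (cH c).continuousOn fun x hx => (bdH hx).1
  · exact hf.comp (cH d).continuousOn fun x hx => (bdH hx).2
  · exact hf.comp (Pool.Agent.Y23.G.line_ct (3 / 2)).continuousOn fun x hx => (bdV h hx).1
  · exact hf.comp (Pool.Agent.Y23.G.line_ct (-(3 / 2))).continuousOn fun x hx => (bdV h hx).2

lemma bi_congr {f g : ℂ → ℂ} (h : c ≤ d) (hfg : ∀ w ∈ Bd c d, f w = g w) : bi f c d = bi g c d := by
  unfold bi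
  congr 1
  · congr 1
    · congr 1
      · exact intervalIntegral.integral_congr fun x hx => hfg _ (bdH hx).1
      · exact intervalIntegral.integral_congr fun x hx => hfg _ (bdH hx).2
    · congr 1
      exact intervalIntegral.integral_congr fun x hx => hfg _ (bdV h hx).1
  · congr 1
    exact intervalIntegral.integral_congr fun x hx => hfg _ (bdV h hx).2

lemma bi_smul (k : ℂ) (f : ℂ → ℂ) : bi (fun w => k * f w) c d = k * bi f c d := by
  unfold bi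
  simp only [intervalIntegral.integral_const_mul]
  ring

lemma bi_sub {f g : ℂ → ℂ} (h : c ≤ d) (hf : ContinuousOn f (Bd c d)) (hg : ContinuousOn g (Bd c d)) :
    bi (fun w => f w - g w) c d = bi f c d - bi g c d := by
  obtain ⟨f1, f2, f3, f4⟩ := ii h hf
  obtain ⟨g1, g2, g3, g4⟩ := ii h hg
  unfold bi
  rw [intervalIntegral.integral_sub f1 g1, intervalIntegral.integral_sub f2 g2, intervalIntegral.integral_sub f3 g3,
    intervalIntegral.integral_sub f4 g4]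
  ring

lemma bi_add {f g : ℂ → ℂ} (h : c ≤ d) (hf : ContinuousOn f (Bd c d)) (hg : ContinuousOn g (Bd c d)) :
    bi (fun w => f w + g w) c d = bi f c d + bi g c d := by
  obtain ⟨f1, f2, f3, f4⟩ := ii h hf
  obtain ⟨g1, g2, g3, g4⟩ := ii h hg
  unfold bi
  rw [intervalIntegral.integral_add f1 g1, intervalIntegral.integral_add f2 g2, intervalIntegral.integral_add f3 g3,
    intervalIntegral.integral_add f4 g4]
  ring

lemma bi_norm {f : ℂ → ℂ} (h : c ≤ d) {M : ℝ} (hM : ∀ w ∈ Bd c d, ‖f w‖ ≤ M) : ‖bi f c d‖ ≤ (6 + 2 * (d - c)) * M := by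
  have h1 : ‖∫ x in (-(3 / 2) : ℝ)..(3 / 2), f ⟨x, c⟩‖ ≤ M * |(3 / 2 : ℝ) - -(3 / 2)| :=
    intervalIntegral.norm_integral_le_of_norm_le_const fun x hx => hM _ (bdH (uIoc_subset_uIcc hx)).1
  have h2 : ‖∫ x in (-(3 / 2) : ℝ)..(3 / 2), f ⟨x, d⟩‖ ≤ M * |(3 / 2 : ℝ) - -(3 / 2)| :=
    intervalIntegral.norm_integral_le_of_norm_le_const fun x hx => hM _ (bdH (uIoc_subset_uIcc hx)).2
  have h3 : ‖∫ y in c..d, f ⟨3 / 2, y⟩‖ ≤ M * |d - c| :=
    intervalIntegral.norm_integral_le_of_norm_le_const fun x hx => hM _ (bdV h (uIoc_subset_uIcc hx)).1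
  have h4 : ‖∫ y in c..d, f ⟨-(3 / 2), y⟩‖ ≤ M * |d - c| :=
    intervalIntegral.norm_integral_le_of_norm_le_const fun x hx => hM _ (bdV h (uIoc_subset_uIcc hx)).2
  rw [abs_of_nonneg (by linarith : 0 ≤ d - c)] at h3 h4
  have e : |(3 / 2 : ℝ) - -(3 / 2)| = 3 := by norm_num [abs_of_pos]
  rw [e] at h1 h2
  unfold bi
  refine (norm_sub_le _ _).trans ?_
  refine (add_le_add ((norm_add_le _ _).trans (add_le_add (norm_sub_le _ _) le_rfl)) le_rfl).trans ?_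
  rw [norm_mul, norm_mul, norm_I, one_mul, one_mul]
  linarith

lemma bi_zero {f : ℂ → ℂ} (h : c ≤ d) (hf : DifferentiableOn ℂ f (Kr c d)) : bi f c d = 0 := by
  have h1 := Complex.integral_boundary_rect_eq_zero_of_differentiableOn f (⟨-(3 / 2), c⟩ : ℂ) (⟨3 / 2, d⟩ : ℂ) (by
    have e : (uIcc (⟨-(3 / 2), c⟩ : ℂ).re (⟨3 / 2, d⟩ : ℂ).re ×ℂ uIcc (⟨-(3 / 2), c⟩ : ℂ).im (⟨3 / 2, d⟩ : ℂ).im) = Kr c d := by
      unfold Kr
      simp only
      rw [uIcc_of_le (by norm_num), uIcc_of_le h]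
    rw [e]
    exact hf)
  have e1 : ∀ x y : ℝ, (x : ℂ) + y * I = ⟨x, y⟩ := fun x y => by apply Complex.ext <;> simp
  simp only [e1, smul_eq_mul] at h1
  unfold bi
  exact h1

lemma mult_sub (x : ℂ) : H370.mult (fun w : ℂ => w - x) x = 1 := by
  unfold H370.mult analyticOrderNatAt
  have h : analyticOrderAt (fun w : ℂ => w - x) x = 1 := by
    have h0 : AnalyticAt ℂ (fun w : ℂ => w - x) x := by fun_prop
    rw [show (1 : ℕ∞) = ((1 : ℕ) : ℕ∞) by rfl, h0.analyticOrderAt_eq_natCast]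
    exact ⟨fun _ => 1, analyticAt_const, one_ne_zero, Eventually.of_forall fun z => by simp⟩
  rw [h]
  rfl

lemma bi_inv (h : c < d) {x : ℂ} (hx : x ∈ Ko c d) : bi (fun w => 1 / (w - x)) c d = 2 * Real.pi * I := by
  have hr := (H370.rect_residue (fun w => w - x) (fun _ => 1) (-(3 / 2)) (3 / 2) c d (by norm_num) h (fun s _ => by fun_prop)
    (differentiable_const _) (fun s hs h0 => by rw [sub_eq_zero.1 h0]; exact hx)).2
  have hset : {s : ℂ | s ∈ Set.Ioo (-(3 / 2) : ℝ) (3 / 2) ×ℂ Set.Ioo c d ∧ s - x = 0} = {x} := by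
    ext s
    constructor
    · rintro ⟨-, h2⟩
      exact sub_eq_zero.1 h2
    · intro h
      rw [mem_singleton_iff] at h
      rw [h]
      exact ⟨hx, sub_self x⟩
  rw [hset, finsum_mem_singleton, mult_sub, Nat.cast_one, one_mul, mul_one] at hr
  have hd : ∀ w : ℂ, deriv (fun w : ℂ => w - x) w = 1 := fun w => by
    rw [deriv_sub_const]
    simp
  simp only [hd, mul_one] at hr
  unfold bi
  exact hr

lemma Kr_nhds {x : ℂ} (hx : x ∈ Ko c d) : Kr c d ∈ 𝓝 x := by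
  refine mem_of_superset (IsOpen.mem_nhds ?_ hx) (Ko_sub c d)
  exact isOpen_Ioo.reProdIm isOpen_Ioo

/-- Cauchy's formula -/
lemma bi_cauchy (h : c < d) {g : ℂ → ℂ} (hg : DifferentiableOn ℂ g (Kr c d)) {x : ℂ} (hx : x ∈ Ko c d) :
    bi (fun w => g w / (w - x)) c d = 2 * Real.pi * I * g x := by
  have hne : ∀ w ∈ Bd c d, w - x ≠ 0 := fun w hw => sub_ne_zero.2 fun e => Ko_not_bd hx (e ▸ hw)
  have h1 : bi (fun w => g w / (w - x)) c d = bi (fun w => dslope g x w + g x * (1 / (w - x))) c d := by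
    refine bi_congr h.le fun w hw => ?_
    have hn := hne w hw
    rw [dslope_of_ne _ (sub_ne_zero.1 hn), slope_def_field]
    field_simp
    ring
  have h2 : DifferentiableOn ℂ (dslope g x) (Kr c d) := (Complex.differentiableOn_dslope (Kr_nhds hx)).2 hg
  rw [h1, bi_add h.le (h2.continuousOn.mono (Bd_sub h.le)), bi_zero h.le h2, zero_add, bi_smul, bi_inv h hx]
  · ring
  · refine continuousOn_const.mul (continuousOn_const.div (by fun_prop) hne)

lemma bi_cauchy_out (h : c < d) {g : ℂ → ℂ} (hg : DifferentiableOn ℂ g (Kr c d)) {x : ℂ} (hx : x ∉ Kr c d) :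
    bi (fun w => g w / (w - x)) c d = 0 := by
  refine bi_zero h.le (hg.div (by fun_prop) fun w hw => sub_ne_zero.2 fun e => hx (e ▸ hw))

end

/-- the Cauchy transform of `1 / F` -/
noncomputable def Jc (F : ℂ → ℂ) (c d : ℝ) (x : ℂ) : ℂ := 1 / (2 * Real.pi * I) * bi (fun w => 1 / (F w * (w - x))) c d

open Classical in
/-- **interpolation**: the difference of the indicator function and `F J` is a transform -/
theorem rep {a : ℝ} {ν : ℕ∞} (ha : 0 < a) {c d : ℝ} (h : c < d) {E : ℂ → ℂ} (hE : ∀ w ∈ Kr c d, ContinuousAt E w ∧ E w ≠ 0) (l : Multiset ℂ) :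
    ∀ f : ℝ → ℂ, Y23.G.F.Hn a ν f → (∀ w, Y23.TT f w = Pf l w * E w) → (∀ z ∈ l, z ∈ Ko c d ∧ Y23.G.F.ad a ν z) →
      ∃ g : ℝ → ℂ, Y23.G.F.Hn a ν g ∧ ∀ x : ℂ, x ∉ Bd c d →
        Y23.TT g x = (if x ∈ Ko c d then 1 else 0) - Y23.TT f x * Jc (Y23.TT f) c d x := by
  have hpi : (2 * Real.pi * I : ℂ) ≠ 0 := by
    simp [Real.pi_ne_zero]
  induction l using Multiset.induction_on with
  | empty =>
    intro f hf hF hl
    refine ⟨fun _ => 0, Y23.G.F.Hn.zero, fun x hx => ?_⟩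
    have h0 : Y23.TT (fun _ => (0 : ℂ)) x = 0 := by
      unfold Y23.TT
      simp
    have hFd : Differentiable ℂ (Y23.TT f) := Y23.differentiable_TT hf.hd.1
    have hFE : ∀ w, Y23.TT f w = E w := fun w => by rw [hF, Pf_zero, one_mul]
    have hne : ∀ w ∈ Kr c d, Y23.TT f w ≠ 0 := fun w hw => by
      rw [hFE]
      exact (hE w hw).2
    have hg : DifferentiableOn ℂ (fun w => 1 / Y23.TT f w) (Kr c d) := (differentiableOn_const _).div hFd.differentiableOn hne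
    have e : ∀ w : ℂ, 1 / (Y23.TT f w * (w - x)) = (1 / Y23.TT f w) / (w - x) := fun w => by rw [div_div]
    unfold Jc
    simp only [e]
    rw [h0]
    rcases not_bd hx with h1 | h1
    · rw [if_pos h1, bi_cauchy h hg h1]
      have := hne x (Ko_sub c d h1)
      field_simp
      ring
    · rw [if_neg (fun h2 => h1 (Ko_sub c d h2)), bi_cauchy_out h hg h1]
      ring
  | cons z l ih =>
    intro f hf hF hl
    obtain ⟨hz1, hz2⟩ := hl z (Multiset.mem_cons_self _ _)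
    have hF0 : Y23.TT f z = 0 := by
      rw [hF, Pf_cons, sub_self, zero_mul, zero_mul]
    obtain ⟨f1, hf1, hf1T, -⟩ := hf.div ha z hz2 hF0
    have hf1d : Differentiable ℂ (Y23.TT f1) := Y23.differentiable_TT hf1.hd.1
    have hne1 : ∀ w, w ≠ z → Y23.TT f1 w = Pf l w * E w := by
      intro w hw
      have h1 := hf1T w
      rw [hF, Pf_cons, mul_assoc] at h1
      exact mul_left_cancel₀ (sub_ne_zero.2 hw) h1
    have hall : ∀ w, Y23.TT f1 w = Pf l w * E w := by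
      intro w
      by_cases hw : w = z
      · subst hw
        have h1 : ContinuousAt (fun w => Pf l w * E w) w := ((H370.Loc.Pf_diff l).continuous.continuousAt).mul (hE w (Ko_sub c d hz1)).1
        have h2 : Tendsto (Y23.TT f1) (𝓝[≠] w) (𝓝 (Pf l w * E w)) := by
          refine (h1.tendsto.mono_left nhdsWithin_le_nhds).congr' ?_
          filter_upwards [self_mem_nhdsWithin] with y hy
          exact (hne1 y hy).symm
        exact tendsto_nhds_unique (hf1d.continuous.continuousAt.tendsto.mono_left nhdsWithin_le_nhds) h2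
      · exact hne1 w hw
    obtain ⟨g1, hg1, hg1T⟩ := ih f1 hf1 hall fun y hy => hl y (Multiset.mem_cons_of_mem hy)
    refine ⟨fun x => g1 x + Jc (Y23.TT f1) c d z * f1 x, hg1.add (hf1.smul _), fun x hx => ?_⟩
    rw [Y23.TT_add hg1.1 (hf1.smul _).1, Y23.TT_smul, hg1T x hx]
    -- the functional equation of the Cauchy transform
    have hnz : ∀ w ∈ Bd c d, Y23.TT f1 w ≠ 0 ∧ w - z ≠ 0 ∧ w - x ≠ 0 := by
      intro w hw
      refine ⟨?_, sub_ne_zero.2 fun e => Ko_not_bd hz1 (e ▸ hw), sub_ne_zero.2 fun e => hx (e ▸ hw)⟩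
      rw [hall w]
      refine mul_ne_zero (H370.Loc.Pf_ne_zero fun y hy e => ?_) (hE w (Bd_sub h.le hw)).2
      exact Ko_not_bd (hl y (Multiset.mem_cons_of_mem hy)).1 (e ▸ hw)
    have key : (x - z) * Jc (Y23.TT f) c d x = Jc (Y23.TT f1) c d x - Jc (Y23.TT f1) c d z := by
      unfold Jc
      have h1 : (x - z) * (1 / (2 * Real.pi * I) * bi (fun w => 1 / (Y23.TT f w * (w - x))) c d) =
          1 / (2 * Real.pi * I) * bi (fun w => (x - z) * (1 / (Y23.TT f w * (w - x)))) c d := by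
        rw [bi_smul]
        ring
      rw [h1, ← mul_sub, ← bi_sub h.le]
      · congr 1
        refine bi_congr h.le fun w hw => ?_
        obtain ⟨n1, n2, n3⟩ := hnz w hw
        rw [← hf1T w]
        field_simp
        ring
      · exact continuousOn_const.div (hf1d.continuous.continuousOn.mul (by fun_prop)) fun w hw => mul_ne_zero (hnz w hw).1 (hnz w hw).2.2
      · exact continuousOn_const.div (hf1d.continuous.continuousOn.mul (by fun_prop)) fun w hw => mul_ne_zero (hnz w hw).1 (hnz w hw).2.1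
    have h2 : Y23.TT f x = (x - z) * Y23.TT f1 x := (hf1T x).symm
    rw [h2]
    linear_combination (Y23.TT f1 x) * key

end Pool.Agent.Q97.RL
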