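import Pool.Agent.Q97.RL.R9
import Pool.Agent.Q286.XG.AllN
import Pool.Agent.Q240.EX.HdS
import Pool.Agent.Q240.CD.AllZ

set_option autoImplicit false

/-!
# Project RGL: solutions under the Riemann hypothesis, and none if it fails
-/

open Complex Filter Topology Set MeasureTheory Metric
open scoped ComplexConjugate

namespace Pool.Agent.Q97.RL

open Pool.Agent
open Pool.Agent.Y23 (TT N2 Fa)
open Pool.Agent.Y23.G
open Pool.Agent.Q240.CD (Tg_Hn Hn_Tg a_rep a_trigInv)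
open Pool.Agent.Q286.TR (LFunction D1 D2 W W2 Trig W_eq trig_cj)

section
variable [D : ZD]

/-- the measure of the ordinates -/
noncomputable def zm : Measure ℝ := Measure.sum fun ρ : Zt => (mu ρ : ENNReal) • Measure.dirac (ρ : ℂ).im

lemma zm_int {h : ℝ → ℝ} (hm : Continuous h) (h0 : ∀ t, 0 ≤ h t) (hs : Summable fun ρ : Zt => (mu ρ : ℝ) * h (ρ : ℂ).im) :
    Integrable h zm ∧ ∫ t, h t ∂zm = ∑' ρ : Zt, (mu ρ : ℝ) * h (ρ : ℂ).im := by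
  have hnn : ∀ ρ : Zt, 0 ≤ (mu ρ : ℝ) * h (ρ : ℂ).im := fun ρ => mul_nonneg (Nat.cast_nonneg _) (h0 _)
  have h1 : ∫⁻ t, ENNReal.ofReal (h t) ∂zm = ENNReal.ofReal (∑' ρ : Zt, (mu ρ : ℝ) * h (ρ : ℂ).im) := by
    unfold zm
    rw [lintegral_sum_measure, ENNReal.ofReal_tsum_of_nonneg hnn hs]
    refine tsum_congr fun ρ => ?_
    rw [lintegral_smul_measure, lintegral_dirac' _ (by fun_prop), ENNReal.ofReal_mul (Nat.cast_nonneg _), ENNReal.ofReal_natCast]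
    rfl
  have h2 : Integrable h zm := ⟨hm.aestronglyMeasurable, by
    rw [hasFiniteIntegral_iff_ofReal (ae_of_all _ h0), h1]
    exact ENNReal.ofReal_lt_top⟩
  refine ⟨h2, ?_⟩
  rw [integral_eq_lintegral_of_nonneg_ae (ae_of_all _ h0) hm.aestronglyMeasurable, h1, ENNReal.toReal_ofReal (tsum_nonneg hnn)]

lemma line_eq (hRH : ∀ ρ : Zt, (ρ : ℂ).re = 1 / 2) (ρ : Zt) : ((ρ : ℂ).im : ℂ) * I = (ρ : ℂ) - 1 / 2 := by
  apply Complex.ext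
  · simp [hRH ρ]
  · simp

/-- under the Riemann hypothesis the ordinates are a solution -/
theorem zm_sol [EC : ZC] (hRH : ∀ ρ : Zt, (ρ : ℂ).re = 1 / 2) {a : ℝ} (ha : 0 < a) {f : ℝ → ℂ} (hf : Hd a f) :
    Integrable (fun t : ℝ => ‖TT f (t * I)‖ ^ 2) zm ∧ ∫ t : ℝ, ‖TT f (t * I)‖ ^ 2 ∂zm = QQ f := by
  have h1 : Summable fun ρ : Zt => (mu ρ : ℝ) * ‖TT f (((ρ : ℂ).im : ℂ) * I)‖ ^ 2 := by
    have := Hd.dom ha hf
    unfold Dom at this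
    refine this.congr fun ρ => ?_
    rw [line_eq hRH ρ]
  obtain ⟨h2, h3⟩ := zm_int (h := fun t : ℝ => ‖TT f (t * I)‖ ^ 2) (Pool.Agent.Q97.RI.cont_TT hf.1) (fun t => sq_nonneg _) h1
  refine ⟨h2, ?_⟩
  rw [h3, QQ_eq_SS hRH]
  unfold SS
  refine tsum_congr fun ρ => ?_
  rw [line_eq hRH ρ]

end

section
variable {L : LFunction}

lemma rhD (L : LFunction) : Pool.Agent.Q286.TR.GRH L ↔ ∀ ρ : Zt (D := D1 L), (ρ : ℂ).re = 1 / 2 :=
  ⟨fun h ρ => h ρ ρ.2, fun h s hs => h ⟨s, hs⟩⟩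

/-- the form is negative somewhere if the Riemann hypothesis fails -/
lemma neg_ex (hRH : ¬ Pool.Agent.Q286.TR.GRH L) (n : ℝ → ℕ) (hn : Tendsto (fun a : ℝ => (n a : ℝ) / a) atTop atTop) :
    ∀ᶠ a : ℝ in atTop, ∃ f : ℝ → ℂ, Trig a (n a) f ∧ QQ (D := D1 L) f < 0 := by
  have hRH' : ¬ Pool.Agent.Q286.XG.RHG (D := D2 L) := fun h => hRH ((Pool.Agent.Q286.XG.rhg_iff L).2 h)
  have h := Pool.Agent.Q286.XG.a_neg (D := D2 L) hRH' n hn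
  filter_upwards [h, eventually_gt_atTop 0] with a h ha
  obtain ⟨f, hf, -, hQ⟩ := h 0
  obtain ⟨g, hg, hgf⟩ := Hn_Tg a_rep a_trigInv ha hf
  rw [neg_zero, ← Pool.Agent.Q240.CG.QQG_congr (D := D2 L) hgf,
    Pool.Agent.Q240.CG.QQ_sym (D := D1 L) (Hd.dom (DZ := D2 L) ha (Tg_Hn ha hg).hd)] at hQ
  rcases lt_or_ge (QQ (D := D1 L) g) 0 with h1 | h1
  · exact ⟨g, hg, h1⟩
  · exact ⟨_, trig_cj hg, by linarith⟩

/-- no solutions if the Riemann hypothesis fails -/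
theorem nonex (hRH : ¬ Pool.Agent.Q286.TR.GRH L) (n : ℝ → ℕ) (hn : Tendsto (fun a : ℝ => (n a : ℝ) / a) atTop atTop) :
    ∀ᶠ a : ℝ in atTop, ∀ (ν : ℕ∞) (α β : ℝ) (μ : Measure ℝ), (n a : ℕ∞) ≤ ν → 0 < β → ¬ Rp (D := D1 L) a ν α β μ := by
  filter_upwards [neg_ex hRH n hn, eventually_gt_atTop 0] with a ⟨f, hf, hQ⟩ ha ν α β μ hν hβ hμ
  have hf' := Tg_Hn ha hf
  have h1 := hμ f ⟨hf'.1, hf'.2.1, fun k hk => hf'.2.2 k (lt_of_le_of_lt hν hk)⟩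
  have h2 : 0 ≤ ∫ t : ℝ, ‖TT f (t * I)‖ ^ 2 ∂μ := integral_nonneg fun t => sq_nonneg _
  have h3 := h1.2.2
  have h4 : β * QQ (D := D1 L) f < 0 := mul_neg_of_pos_of_neg hβ hQ
  linarith

end

end Pool.Agent.Q97.RL
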