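import Pool.Agent.Q97.RL.R10

set_option autoImplicit false

/-!
# Project RGL: the results in any normalisation
-/

open Complex Filter Topology Set MeasureTheory Metric
open scoped ComplexConjugate

namespace Pool.Agent.Q97.RL

open Pool.Agent
open Pool.Agent.Y23 (TT N2 Fa)
open Pool.Agent.Y23.G
open Pool.Agent.Q240.CD (Tg_Hn Hn_Tg a_rep a_trigInv)
open Pool.Agent.Q286.TR (LFunction D1 D2 W W2 Trig W_eq trig_cj MC mc_line M_line)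

/-- smooth functions with compact support in `(-a, a)` -/
def TestP (a : ℝ) (f : ℝ → ℂ) : Prop := ContDiff ℝ ((⊤ : ℕ∞) : WithTop ℕ∞) f ∧ tsupport f ⊆ Ioo (-a) a

/-- the explicit formula for `f`, up to the factors `α`, `β` -/
def CompC (V : ℝ → (ℝ → ℂ) → ℝ) (c : ℂ) (a α β : ℝ) (μ : Measure ℝ) (f : ℝ → ℂ) : Prop :=
  Integrable (fun t : ℝ => ‖MC c f (c + t * I)‖ ^ 2) μ ∧
    α * V a f ≤ ∫ t : ℝ, ‖MC c f (c + t * I)‖ ^ 2 ∂μ ∧ ∫ t : ℝ, ‖MC c f (c + t * I)‖ ^ 2 ∂μ ≤ β * V a f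

/-- the number of the zeros with ordinates in `(s, t)` -/
noncomputable def NC (Λ : ℂ → ℂ) (s t : ℝ) : ℝ :=
  ∑' ρ : {ρ : ℂ // Λ ρ = 0}, if s < (ρ : ℂ).im ∧ (ρ : ℂ).im < t then (analyticOrderNatAt Λ (ρ : ℂ) : ℝ) else 0

def CloseC (Λ : ℂ → ℂ) (α β e : ℝ) (μ : Measure ℝ) (s t : ℝ) : Prop := μ (Ioo s t) ≠ ⊤ ∧
  α * NC Λ s t - β * e ≤ (μ (Ioo s t)).toReal ∧ (μ (Ioo s t)).toReal ≤ β * (NC Λ s t + e)

def RigC (Λ : ℂ → ℂ) (P : ℝ → ℝ → Measure ℝ → Prop) (R d e : ℝ) : Prop := ∀ (α β : ℝ) (μ : Measure ℝ), 0 ≤ α → 0 < β → P α β μ →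
  ∀ s t : ℝ, |s| ≤ R → |t| ≤ R → (∀ ρ : ℂ, Λ ρ = 0 → d ≤ |s - ρ.im| ∧ d ≤ |t - ρ.im|) → CloseC Λ α β e μ s t

section

variable {L : LFunction} {Λ : ℂ → ℂ} {c : ℂ} {r : ℝ} {k : ℂ} {V : ℝ → (ℝ → ℂ) → ℝ}

lemma comp_iff (hV : ∀ a, 0 < a → ∀ f : ℝ → ℂ, Hd a f → V a f = W L a f) {a : ℝ} (ha : 0 < a) (α β : ℝ) (μ : Measure ℝ) {f : ℝ → ℂ} (hf : Hd a f) :
    CompC V c a α β μ f ↔ Integrable (fun t : ℝ => ‖TT f (t * I)‖ ^ 2) μ ∧ α * QQ (D := D1 L) f ≤ ∫ t : ℝ, ‖TT f (t * I)‖ ^ 2 ∂μ ∧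
      ∫ t : ℝ, ‖TT f (t * I)‖ ^ 2 ∂μ ≤ β * QQ (D := D1 L) f := by
  unfold CompC
  rw [hV a ha f hf, W_eq L ha hf]
  simp only [mc_line, M_line]

lemma solves_iff (hV : ∀ a, 0 < a → ∀ f : ℝ → ℂ, Hd a f → V a f = W L a f) {a : ℝ} (ha : 0 < a) (n : ℕ) (α β : ℝ) (μ : Measure ℝ) :
    (∀ f, Trig a n f → CompC V c a α β μ f) ↔ Rp (D := D1 L) a (n : ℕ∞) α β μ := by
  constructor
  · intro h f hf
    obtain ⟨g, hg, hgf⟩ := Hn_Tg a_rep a_trigInv ha hf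
    have h1 := (comp_iff hV ha α β μ (Tg_Hn ha hg).hd).1 (h g hg)
    rw [Pool.Agent.Q240.CG.QQG_congr (D := D1 L) hgf] at h1
    simp only [hgf] at h1
    exact h1
  · intro h f hf
    exact (comp_iff hV ha α β μ (Tg_Hn ha hf).hd).2 (h f (Tg_Hn ha hf))

/-- smooth test functions suffice -/
lemma smooth_rp (hV : ∀ a, 0 < a → ∀ f : ℝ → ℂ, Hd a f → V a f = W L a f) {a : ℝ} (ha : 0 < a) {α β : ℝ} {μ : Measure ℝ} (hβ : 0 < β)
    (h : ∀ f, TestP a f → CompC V c a α β μ f) (ν : ℕ∞) : Rp (D := D1 L) a ν α β μ := by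
  intro f hf
  refine smo_ext (D := D1 L) ha hβ.le (fun g hg => ?_) hf.hd
  obtain ⟨h1, b, hb0, hba, hb⟩ := hg
  have hT : TestP a g := by
    refine ⟨h1, ?_⟩
    have h2 : Function.support g ⊆ Icc (-b) b := by
      intro x hx
      by_contra hcon
      rw [mem_Icc, ← abs_le, not_le] at hcon
      exact hx (hb x hcon.le)
    exact (closure_minimal h2 isClosed_Icc).trans (Icc_subset_Ioo (by linarith) hba)
  have hHd : Hd a g := Pool.Agent.Q240.EX.hd_C1 ha (h1.of_le (by exact_mod_cast le_top)) fun x hx => hb x (hba.le.trans hx)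
  exact (comp_iff hV ha α β μ hHd).1 (h g hT)

/-- the measure of the ordinates solves the explicit formula for smooth test functions -/
lemma test_hd {a : ℝ} (ha : 0 < a) {g : ℝ → ℂ} (hg : TestP a g) : Hd a g := by
  refine Pool.Agent.Q240.EX.hd_C1 ha (hg.1.of_le (by exact_mod_cast le_top)) fun x hx => ?_
  by_contra hcon
  have h1 := hg.2 (subset_tsupport g hcon)
  rw [mem_Ioo, ← abs_lt] at h1
  linarith

/-- the zeros in the two normalisations -/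
noncomputable def zeq (L : LFunction) (Λ : ℂ → ℂ) (c k : ℂ) (hk : k ≠ 0) (hΛ : ∀ s, L.Λ s = k * Λ (s + (c - 1 / 2))) :
    {ρ : ℂ // Λ ρ = 0} ≃ Zt (D := D1 L) where
  toFun ρ := ⟨(ρ : ℂ) - (c - 1 / 2), by
    show L.Λ ((ρ : ℂ) - (c - 1 / 2)) = 0
    rw [hΛ, sub_add_cancel, ρ.2, mul_zero]⟩
  invFun ρ := ⟨(ρ : ℂ) + (c - 1 / 2), by
    have h : L.Λ (ρ : ℂ) = 0 := ρ.2
    rw [hΛ] at h
    exact (mul_eq_zero.1 h).resolve_left hk⟩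
  left_inv ρ := Subtype.ext (sub_add_cancel _ _)
  right_inv ρ := Subtype.ext (add_sub_cancel_right _ _)

lemma im_shift (hc : c = r) (s : ℂ) : (s - (c - 1 / 2)).im = s.im := by
  rw [hc, Complex.sub_im, Complex.sub_im, Complex.ofReal_im]
  norm_num

lemma NC_eq (hΛd : Differentiable ℂ Λ) (hc : c = r) (hk : k ≠ 0) (hΛ : ∀ s, L.Λ s = k * Λ (s + (c - 1 / 2))) (s t : ℝ) :
    Nz (D := D1 L) s t = NC Λ s t := by
  unfold Nz NC
  rw [← (zeq L Λ c k hk hΛ).tsum_eq]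
  refine tsum_congr fun ρ => ?_
  have h1 : (((zeq L Λ c k hk hΛ) ρ : Zt (D := D1 L)) : ℂ) = (ρ : ℂ) - (c - 1 / 2) := rfl
  have h2 : (mu (D := D1 L) ((ρ : ℂ) - (c - 1 / 2)) : ℕ) = analyticOrderNatAt Λ (ρ : ℂ) := by
    show analyticOrderNatAt L.Λ ((ρ : ℂ) - (c - 1 / 2)) = _
    rw [Pool.Agent.Q286.XG.order_shift hk hΛd hΛ, sub_add_cancel]
  rw [h1, im_shift hc, h2]

lemma far_iff (hc : c = r) (hk : k ≠ 0) (hΛ : ∀ s, L.Λ s = k * Λ (s + (c - 1 / 2))) {d s t : ℝ}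
    (h : ∀ ρ : ℂ, Λ ρ = 0 → d ≤ |s - ρ.im| ∧ d ≤ |t - ρ.im|) :
    ∀ ρ : Zt (D := D1 L), d ≤ |s - (ρ : ℂ).im| ∧ d ≤ |t - (ρ : ℂ).im| := by
  intro ρ
  have h1 := h _ ((zeq L Λ c k hk hΛ).symm ρ).2
  have h2 : (((zeq L Λ c k hk hΛ).symm ρ : {ρ : ℂ // Λ ρ = 0}) : ℂ) = (ρ : ℂ) + (c - 1 / 2) := rfl
  have h3 : ((ρ : ℂ) + (c - 1 / 2)).im = (ρ : ℂ).im := by
    have := im_shift hc ((ρ : ℂ) + (c - 1 / 2))
    rw [add_sub_cancel_right] at this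
    exact this.symm
  rw [h2, h3] at h1
  exact h1

/-- adding a point mass at a node -/
lemma add_node {a : ℝ} (ha : 0 < a) {n : ℕ} {α β : ℝ} {μ : Measure ℝ} (h : ∀ f, Trig a n f → CompC V c a α β μ f) {k : ℕ} (hk : n < k) (M : ENNReal) (hM : M ≠ ⊤) :
    ∀ f, Trig a n f → CompC V c a α β (μ + M • Measure.dirac (Real.pi * k / a)) f := by
  intro f hf
  obtain ⟨h1, h2, h3⟩ := h f hf
  simp only [mc_line, M_line] at h1 h2 h3
  have h0 : TT f (((Real.pi * k / a : ℝ) : ℂ) * I) = 0 := by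
    have := (Tg_Hn ha hf).2.2 (k : ℤ) (by simpa using hk)
    unfold F.nd at this
    push_cast at this ⊢
    exact this
  have hm : StronglyMeasurable fun t : ℝ => ‖TT f (t * I)‖ ^ 2 := (Pool.Agent.Q97.RI.cont_TT (Tg_Hn ha hf).hd.1).stronglyMeasurable
  have hi : Integrable (fun t : ℝ => ‖TT f (t * I)‖ ^ 2) (M • Measure.dirac (Real.pi * k / a)) := by
    refine Integrable.smul_measure ?_ hM
    exact integrable_dirac' hm (by simp)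
  have hz : ∫ t : ℝ, ‖TT f (t * I)‖ ^ 2 ∂(M • Measure.dirac (Real.pi * k / a)) = 0 := by
    rw [integral_smul_measure, integral_dirac' _ _ hm, h0]
    simp
  have e : ∫ t : ℝ, ‖TT f (t * I)‖ ^ 2 ∂(μ + M • Measure.dirac (Real.pi * k / a)) = ∫ t : ℝ, ‖TT f (t * I)‖ ^ 2 ∂μ := by
    rw [integral_add_measure h1 hi, hz, add_zero]
  unfold CompC
  simp only [mc_line, M_line]
  rw [e]
  exact ⟨h1.add_measure hi, h2, h3⟩

end

end Pool.Agent.Q97.RL
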