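import Pool.Agent.Q97.RL.R1

set_option autoImplicit false

/-!
# Project RGL: functions which are close to the indicator function of a strip (as `Q97/RI/H2.lean`)
-/

open Complex Filter Topology Set Metric MeasureTheory
open scoped ComplexConjugate
open H370.Loc (Pf Pf_zero Pf_cons Pf_diff Pf_ne_zero extract)

namespace Pool.Agent.Q97.RL

lemma bi_adj {f : ℂ → ℂ} {a b c : ℝ} (h1 : IntervalIntegrable (fun y : ℝ => f ⟨3 / 2, y⟩) volume a b)
    (h2 : IntervalIntegrable (fun y : ℝ => f ⟨3 / 2, y⟩) volume b c) (h3 : IntervalIntegrable (fun y : ℝ => f ⟨-(3 / 2), y⟩) volume a b)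
    (h4 : IntervalIntegrable (fun y : ℝ => f ⟨-(3 / 2), y⟩) volume b c) : bi f a c = bi f a b + bi f b c := by
  unfold bi
  rw [← intervalIntegral.integral_add_adjacent_intervals h1 h2, ← intervalIntegral.integral_add_adjacent_intervals h3 h4]
  ring

/-- the frame around the rectangle -/
def Fr (s t δ : ℝ) : Set ℂ := {w | |w.re| ≤ 3 / 2 ∧ s - δ ≤ w.im ∧ w.im ≤ t + δ ∧ (|w.re| = 3 / 2 ∨ w.im ≤ s + δ ∨ t - δ ≤ w.im)}

section
variable {s t δ : ℝ}

lemma Bd_Fr {c d : ℝ} (hc : |c - s| ≤ δ) (hd : |d - t| ≤ δ) (h : c ≤ d) : Bd c d ⊆ Fr s t δ := by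
  rw [abs_le] at hc hd
  rintro w (⟨h1, h2 | h2⟩ | ⟨h1, h2, h3⟩)
  · exact ⟨h1, by linarith, by linarith, Or.inr (Or.inl (by linarith))⟩
  · exact ⟨h1, by linarith, by linarith, Or.inr (Or.inr (by linarith))⟩
  · exact ⟨h1.le, by linarith, by linarith, Or.inl h1⟩

lemma Kr_Fr1 {c d : ℝ} (hc : |c - s| ≤ δ) (hd : |d - s| ≤ δ) (hst : s ≤ t) : Kr c d ⊆ Fr s t δ := by
  rw [abs_le] at hc hd
  intro w hw
  obtain ⟨h1, h2, h3⟩ := mem_Kr.1 hw
  exact ⟨h1, by linarith, by linarith, Or.inr (Or.inl (by linarith))⟩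

lemma Kr_Fr2 {c d : ℝ} (hc : |c - t| ≤ δ) (hd : |d - t| ≤ δ) (hst : s ≤ t) : Kr c d ⊆ Fr s t δ := by
  rw [abs_le] at hc hd
  intro w hw
  obtain ⟨h1, h2, h3⟩ := mem_Kr.1 hw
  exact ⟨h1, by linarith, by linarith, Or.inr (Or.inr (by linarith))⟩

variable {F : ℂ → ℂ}

/-- the integrand on the vertical lines -/
lemma vint (hFd : Differentiable ℂ F) (hF : ∀ w ∈ Fr s t δ, F w ≠ 0) {x : ℂ} (hx : |x.re| ≤ 1)
    {a b : ℝ} (ha1 : s - δ ≤ a) (ha2 : a ≤ t + δ) (hb1 : s - δ ≤ b) (hb2 : b ≤ t + δ) :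
    IntervalIntegrable (fun y : ℝ => (1 : ℂ) / (F ⟨3 / 2, y⟩ * (⟨3 / 2, y⟩ - x))) volume a b ∧
      IntervalIntegrable (fun y : ℝ => (1 : ℂ) / (F ⟨-(3 / 2), y⟩ * (⟨-(3 / 2), y⟩ - x))) volume a b := by
  rw [abs_le] at hx
  have hab : |(3 / 2 : ℝ)| = 3 / 2 := abs_of_pos (by norm_num)
  have hmem : ∀ y ∈ uIcc a b, s - δ ≤ y ∧ y ≤ t + δ := fun y hy =>
    ⟨(le_min ha1 hb1).trans hy.1, hy.2.trans (max_le ha2 hb2)⟩
  refine ⟨ContinuousOn.intervalIntegrable ?_, ContinuousOn.intervalIntegrable ?_⟩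
  · refine continuousOn_const.div (ContinuousOn.mul (hFd.continuous.comp (Pool.Agent.Y23.G.line_ct (3 / 2))).continuousOn
      ((Pool.Agent.Y23.G.line_ct (3 / 2)).sub continuous_const).continuousOn) fun y hy => mul_ne_zero (hF _ ⟨by simp [hab], hmem y hy |>.1, hmem y hy |>.2, Or.inl (by simp [hab])⟩) ?_
    refine sub_ne_zero.2 fun e => ?_
    have := congrArg Complex.re e
    simp only at this
    linarith
  · refine continuousOn_const.div (ContinuousOn.mul (hFd.continuous.comp (Pool.Agent.Y23.G.line_ct (-(3 / 2)))).continuousOn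
      ((Pool.Agent.Y23.G.line_ct (-(3 / 2))).sub continuous_const).continuousOn) fun y hy => mul_ne_zero (hF _ ⟨by simp [hab], hmem y hy |>.1, hmem y hy |>.2, Or.inl (by simp [hab])⟩) ?_
    refine sub_ne_zero.2 fun e => ?_
    have := congrArg Complex.re e
    simp only at this
    linarith

lemma strip0 (hFd : Differentiable ℂ F) {c d : ℝ} (h : c ≤ d) (hF : ∀ w ∈ Kr c d, F w ≠ 0) {x : ℂ} (hx : x ∉ Kr c d) :
    bi (fun w => 1 / (F w * (w - x))) c d = 0 := by
  refine bi_zero h ((differentiableOn_const _).div (hFd.differentiableOn.mul (by fun_prop)) fun w hw => mul_ne_zero (hF w hw) ?_)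
  exact sub_ne_zero.2 fun e => hx (e ▸ hw)

lemma shiftA (hδ : 0 ≤ δ) (hst : s < t) (hFd : Differentiable ℂ F) (hF : ∀ w ∈ Fr s t δ, F w ≠ 0) {x : ℂ} (hx : |x.re| ≤ 1)
    (h1 : s < x.im) (h2 : x.im < t) : Jc F s t x = Jc F (s - δ) (t + δ) x := by
  unfold Jc
  congr 1
  have i1 := vint hFd hF hx (a := s - δ) (b := s) (by linarith) (by linarith) (by linarith) (by linarith)
  have i2 := vint hFd hF hx (a := s) (b := t) (by linarith) (by linarith) (by linarith) (by linarith)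
  have i3 := vint hFd hF hx (a := t) (b := t + δ) (by linarith) (by linarith) (by linarith) (by linarith)
  have z1 : bi (fun w => 1 / (F w * (w - x))) (s - δ) s = 0 :=
    strip0 hFd (by linarith) (fun w hw => hF w (Kr_Fr1 (by rw [abs_le]; constructor <;> linarith) (by simpa using hδ) hst.le hw))
      (fun h => by linarith [(mem_Kr.1 h).2.2])
  have z2 : bi (fun w => 1 / (F w * (w - x))) t (t + δ) = 0 :=
    strip0 hFd (by linarith) (fun w hw => hF w (Kr_Fr2 (by simpa using hδ) (by rw [abs_le]; constructor <;> linarith) hst.le hw))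
      (fun h => by linarith [(mem_Kr.1 h).2.1])
  rw [bi_adj (a := s - δ) (b := s) (c := t + δ) i1.1 (i2.1.trans i3.1) i1.2 (i2.2.trans i3.2),
    bi_adj (a := s) (b := t) (c := t + δ) i2.1 i3.1 i2.2 i3.2, z1, z2, zero_add, add_zero]

lemma shiftB (hδ : 0 ≤ δ) (hst : s < t) (hFd : Differentiable ℂ F) (hF : ∀ w ∈ Fr s t δ, F w ≠ 0) {x : ℂ} (hx : |x.re| ≤ 1)
    (h1 : x.im < s) : Jc F s t x = Jc F (s + δ) (t + δ) x := by
  unfold Jc
  congr 1
  have i1 := vint hFd hF hx (a := s) (b := s + δ) (by linarith) (by linarith) (by linarith) (by linarith)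
  have i2 := vint hFd hF hx (a := s + δ) (b := t) (by linarith) (by linarith) (by linarith) (by linarith)
  have i3 := vint hFd hF hx (a := t) (b := t + δ) (by linarith) (by linarith) (by linarith) (by linarith)
  have z1 : bi (fun w => 1 / (F w * (w - x))) s (s + δ) = 0 :=
    strip0 hFd (by linarith) (fun w hw => hF w (Kr_Fr1 (by simpa using hδ) (by rw [abs_le]; constructor <;> linarith) hst.le hw))
      (fun h => by linarith [(mem_Kr.1 h).2.1])
  have z2 : bi (fun w => 1 / (F w * (w - x))) t (t + δ) = 0 :=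
    strip0 hFd (by linarith) (fun w hw => hF w (Kr_Fr2 (by simpa using hδ) (by rw [abs_le]; constructor <;> linarith) hst.le hw))
      (fun h => by linarith [(mem_Kr.1 h).2.1])
  rw [bi_adj (a := s) (b := s + δ) (c := t) i1.1 i2.1 i1.2 i2.2,
    bi_adj (a := s + δ) (b := t) (c := t + δ) i2.1 i3.1 i2.2 i3.2, z1, z2, zero_add, add_zero]

lemma shiftC (hδ : 0 ≤ δ) (hst : s < t) (hFd : Differentiable ℂ F) (hF : ∀ w ∈ Fr s t δ, F w ≠ 0) {x : ℂ} (hx : |x.re| ≤ 1)
    (h1 : t < x.im) : Jc F s t x = Jc F (s - δ) (t - δ) x := by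
  unfold Jc
  congr 1
  have i1 := vint hFd hF hx (a := s - δ) (b := s) (by linarith) (by linarith) (by linarith) (by linarith)
  have i2 := vint hFd hF hx (a := s) (b := t - δ) (by linarith) (by linarith) (by linarith) (by linarith)
  have i3 := vint hFd hF hx (a := t - δ) (b := t) (by linarith) (by linarith) (by linarith) (by linarith)
  have z1 : bi (fun w => 1 / (F w * (w - x))) (s - δ) s = 0 :=
    strip0 hFd (by linarith) (fun w hw => hF w (Kr_Fr1 (by rw [abs_le]; constructor <;> linarith) (by simpa using hδ) hst.le hw))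
      (fun h => by linarith [(mem_Kr.1 h).2.2])
  have z2 : bi (fun w => 1 / (F w * (w - x))) (t - δ) t = 0 :=
    strip0 hFd (by linarith) (fun w hw => hF w (Kr_Fr2 (by rw [abs_le]; constructor <;> linarith) (by simpa using hδ) hst.le hw))
      (fun h => by linarith [(mem_Kr.1 h).2.2])
  rw [bi_adj (a := s) (b := t - δ) (c := t) i2.1 i3.1 i2.2 i3.2,
    bi_adj (a := s - δ) (b := s) (c := t - δ) i1.1 i2.1 i1.2 i2.2, z1, z2, zero_add, add_zero]

/-- the bound of the Cauchy transform -/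
lemma Jc_norm {c d m : ℝ} (hm : 0 < m) (hδ : 0 < δ) (hδ1 : δ ≤ 1 / 2) (h : c ≤ d) (hcd : d - c ≤ 1) {x : ℂ} (hx : |x.re| ≤ 1)
    (hF : ∀ w ∈ Bd c d, m ≤ ‖F w‖) (hxc : δ ≤ |x.im - c|) (hxd : δ ≤ |x.im - d|) : ‖Jc F c d x‖ ≤ 2 / (m * δ) := by
  have h1 : ‖bi (fun w => 1 / (F w * (w - x))) c d‖ ≤ (6 + 2 * (d - c)) * (1 / (m * δ)) := by
    refine bi_norm h fun w hw => ?_
    rw [norm_div, norm_one, norm_mul]
    refine one_div_le_one_div_of_le (by positivity) (mul_le_mul (hF w hw) ?_ hδ.le (norm_nonneg _))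
    rcases hw with ⟨-, h2 | h2⟩ | ⟨h2, -⟩
    · refine hxc.trans ?_
      have := Complex.abs_im_le_norm (w - x)
      rw [Complex.sub_im, h2, abs_sub_comm] at this
      exact this
    · refine hxd.trans ?_
      have := Complex.abs_im_le_norm (w - x)
      rw [Complex.sub_im, h2, abs_sub_comm] at this
      exact this
    · refine hδ1.trans (le_trans ?_ (Complex.abs_re_le_norm (w - x)))
      rw [Complex.sub_re]
      have h3 := abs_sub_abs_le_abs_sub w.re x.re
      rw [h2] at h3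
      linarith
  unfold Jc
  rw [norm_mul, norm_div, norm_one]
  have e : ‖(2 * Real.pi * I : ℂ)‖ = 2 * Real.pi := by
    rw [norm_mul, norm_mul, norm_I, mul_one, Complex.norm_real, Real.norm_eq_abs, abs_of_pos Real.pi_pos]
    norm_num
  rw [e]
  have hpi := Real.pi_gt_three
  have h2 : 0 < 1 / (m * δ) := by positivity
  calc 1 / (2 * Real.pi) * ‖bi (fun w => 1 / (F w * (w - x))) c d‖ ≤ 1 / (2 * Real.pi) * ((6 + 2 * (d - c)) * (1 / (m * δ))) :=
        mul_le_mul_of_nonneg_left h1 (by positivity)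
    _ ≤ 1 / (2 * Real.pi) * ((4 * Real.pi) * (1 / (m * δ))) := by
        refine mul_le_mul_of_nonneg_left (mul_le_mul_of_nonneg_right (by linarith) h2.le) (by positivity)
    _ = _ := by
        field_simp
        norm_num

/-- the zeros in the rectangle -/
lemma factor_rect (hδ : 0 < δ) (hst : s < t) (hlen : t - s + 2 * δ ≤ 1) (hFd : Differentiable ℂ F) (hF : ∀ w ∈ Fr s t δ, F w ≠ 0) :
    ∃ (l : Multiset ℂ) (E : ℂ → ℂ), (∀ w ∈ Kr s t, ContinuousAt E w ∧ E w ≠ 0) ∧ (∀ w, F w = Pf l w * E w) ∧ ∀ z ∈ l, z ∈ Ko s t ∧ F z = 0 := by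
  classical
  set c : ℂ := ⟨3 / 2, (s + t) / 2⟩ with hc
  have hab : |(3 / 2 : ℝ)| = 3 / 2 := abs_of_pos (by norm_num)
  have hcF : F c ≠ 0 := hF c ⟨by simp [hc, hab], by simp only [hc]; linarith, by simp only [hc]; linarith, Or.inl (by simp [hc, hab])⟩
  obtain ⟨M, hM⟩ := (isCompact_closedBall c 5).exists_bound_of_continuousOn hFd.continuous.continuousOn
  obtain ⟨s0, g, hs0, hg, hfg, hg0, -⟩ := extract (f := F) (c := c) (r := 4) (R := 5) (M := max M 1) (by norm_num) (by norm_num) (le_max_right _ _)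
    (fun z _ => hFd.analyticAt z) hcF (fun z hz => (hM z hz).trans (le_max_left _ _))
  have hball : Kr s t ⊆ closedBall c 4 := by
    intro w hw
    obtain ⟨h1, h2, h3⟩ := mem_Kr.1 hw
    rw [abs_le] at h1
    rw [mem_closedBall, dist_eq_norm]
    refine (Complex.norm_le_abs_re_add_abs_im _).trans ?_
    have ec1 : c.re = 3 / 2 := rfl
    have ec2 : c.im = (s + t) / 2 := rfl
    have e1 : |(w - c).re| ≤ 3 := by
      rw [Complex.sub_re, ec1, abs_le]
      constructor <;> linarith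
    have e2 : |(w - c).im| ≤ 1 := by
      rw [Complex.sub_im, ec2, abs_le]
      constructor <;> linarith
    linarith
  have hball4 : ∀ w ∈ Kr s t, w ∈ closedBall c 5 := fun w hw => closedBall_subset_closedBall (by norm_num) (hball hw)
  refine ⟨s0.filter (fun z => z ∈ Kr s t), fun w => Pf (s0.filter fun z => ¬ z ∈ Kr s t) w * g w, fun w hw => ⟨?_, ?_⟩, fun w => ?_, fun z hz => ?_⟩
  · exact ((Pf_diff _).continuous.continuousAt).mul (hg w (hball4 w hw)).continuousAt
  · refine mul_ne_zero (Pf_ne_zero fun y hy e => ?_) (hg0 w (hball hw))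
    rw [Multiset.mem_filter] at hy
    exact hy.2 (e ▸ hw)
  · rw [hfg w, ← mul_assoc]
    congr 1
    unfold Pf
    rw [← Multiset.prod_add, ← Multiset.map_add, Multiset.filter_add_not]
  · rw [Multiset.mem_filter] at hz
    have hz0 := (hs0 z hz.1).2
    obtain ⟨h1, h2, h3⟩ := mem_Kr.1 hz.2
    refine ⟨mem_Ko.2 ⟨lt_of_le_of_ne h1 fun e => ?_, lt_of_le_of_ne h2 fun e => ?_, lt_of_le_of_ne h3 fun e => ?_⟩, hz0⟩
    · exact hF z ⟨h1, by linarith, by linarith, Or.inl e⟩ hz0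
    · exact hF z ⟨h1, by linarith, by linarith, Or.inr (Or.inl (by linarith))⟩ hz0
    · exact hF z ⟨h1, by linarith, by linarith, Or.inr (Or.inr (by linarith))⟩ hz0

end

/-- a limit from one side -/
lemma side {φ χ : ℂ → ℝ} (hφ : Continuous φ) (hχ : Continuous χ) (x : ℂ) (σ : ℝ)
    (h : ∀ᶠ e : ℝ in 𝓝[>] 0, φ (x + (σ * e : ℝ) * I) ≤ χ (x + (σ * e : ℝ) * I)) : φ x ≤ χ x := by
  have h1 : Tendsto (fun e : ℝ => x + ((σ * e : ℝ) : ℂ) * I) (𝓝[>] 0) (𝓝 x) := by
    have : Continuous fun e : ℝ => x + ((σ * e : ℝ) : ℂ) * I := by fun_prop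
    have h2 := this.tendsto 0
    simp only [mul_zero, Complex.ofReal_zero, zero_mul, add_zero] at h2
    exact h2.mono_left nhdsWithin_le_nhds
  exact le_of_tendsto_of_tendsto ((hφ.tendsto x).comp h1) ((hχ.tendsto x).comp h1) h

/-- **a transform close to the indicator function of the strip** -/
theorem est {a : ℝ} {ν : ℕ∞} (ha : 0 < a) {s t δ m : ℝ} (hδ : 0 < δ) (hst : s < t) (hlen : t - s + 2 * δ ≤ 1) (hm : 0 < m)
    {f : ℝ → ℂ} (hf : Y23.G.F.Hn a ν f) (hF : ∀ w ∈ Fr s t δ, m ≤ ‖Y23.TT f w‖) (had : ∀ z : ℂ, s < z.im → z.im < t → Y23.G.F.ad a ν z) :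
    ∃ g : ℝ → ℂ, Y23.G.F.Hn a ν g ∧ ∀ x : ℂ, |x.re| ≤ 1 →
      (s ≤ x.im → x.im ≤ t → ‖Y23.TT g x - 1‖ ≤ 2 / (m * δ) * ‖Y23.TT f x‖) ∧
      (x.im ≤ s ∨ t ≤ x.im → ‖Y23.TT g x‖ ≤ 2 / (m * δ) * ‖Y23.TT f x‖) := by
  have hFd : Differentiable ℂ (Y23.TT f) := Y23.differentiable_TT hf.hd.1
  have hF0 : ∀ w ∈ Fr s t δ, Y23.TT f w ≠ 0 := fun w hw => by
    have := hm.trans_le (hF w hw)
    exact norm_pos_iff.1 this
  obtain ⟨l, E, hE, hfac, hl⟩ := factor_rect hδ hst hlen hFd hF0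
  obtain ⟨g, hg, hgT⟩ := rep ha hst hE l f hf hfac fun z hz => ⟨(hl z hz).1, had z (mem_Ko.1 (hl z hz).1).2.1 (mem_Ko.1 (hl z hz).1).2.2⟩
  have hgd : Differentiable ℂ (Y23.TT g) := Y23.differentiable_TT hg.hd.1
  -- strict inequalities
  have hin : ∀ x : ℂ, |x.re| ≤ 1 → s < x.im → x.im < t → ‖Y23.TT g x - 1‖ ≤ 2 / (m * δ) * ‖Y23.TT f x‖ := by
    intro x hx h1 h2
    have hxo : x ∈ Ko s t := mem_Ko.2 ⟨by linarith, h1, h2⟩
    rw [hgT x (Ko_not_bd hxo), if_pos hxo, sub_sub_cancel_left, norm_neg, norm_mul, mul_comm, shiftA hδ.le hst hFd hF0 hx h1 h2]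
    refine mul_le_mul_of_nonneg_right (Jc_norm hm hδ (by linarith) (by linarith) (by linarith) hx (fun w hw => hF w (Bd_Fr ?_ ?_ (by linarith) hw)) ?_ ?_)
      (norm_nonneg _)
    · rw [abs_le]; constructor <;> linarith
    · rw [abs_le]; constructor <;> linarith
    · rw [abs_of_pos (by linarith)]; linarith
    · rw [abs_of_neg (by linarith)]; linarith
  have hlo : ∀ x : ℂ, |x.re| ≤ 1 → x.im < s → ‖Y23.TT g x‖ ≤ 2 / (m * δ) * ‖Y23.TT f x‖ := by
    intro x hx h1
    have hxo : x ∉ Kr s t := fun h => by linarith [(mem_Kr.1 h).2.1]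
    rw [hgT x (fun h => hxo (Bd_sub hst.le h)), if_neg (fun h => hxo (Ko_sub s t h)), zero_sub, norm_neg, norm_mul, mul_comm,
      shiftB hδ.le hst hFd hF0 hx h1]
    refine mul_le_mul_of_nonneg_right (Jc_norm hm hδ (by linarith) (by linarith) (by linarith) hx (fun w hw => hF w (Bd_Fr ?_ ?_ (by linarith) hw)) ?_ ?_)
      (norm_nonneg _)
    · rw [abs_le]; constructor <;> linarith
    · rw [abs_le]; constructor <;> linarith
    · rw [abs_of_neg (by linarith)]; linarith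
    · rw [abs_of_neg (by linarith)]; linarith
  have hup : ∀ x : ℂ, |x.re| ≤ 1 → t < x.im → ‖Y23.TT g x‖ ≤ 2 / (m * δ) * ‖Y23.TT f x‖ := by
    intro x hx h1
    have hxo : x ∉ Kr s t := fun h => by linarith [(mem_Kr.1 h).2.2]
    rw [hgT x (fun h => hxo (Bd_sub hst.le h)), if_neg (fun h => hxo (Ko_sub s t h)), zero_sub, norm_neg, norm_mul, mul_comm,
      shiftC hδ.le hst hFd hF0 hx h1]
    refine mul_le_mul_of_nonneg_right (Jc_norm hm hδ (by linarith) (by linarith) (by linarith) hx (fun w hw => hF w (Bd_Fr ?_ ?_ (by linarith) hw)) ?_ ?_)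
      (norm_nonneg _)
    · rw [abs_le]; constructor <;> linarith
    · rw [abs_le]; constructor <;> linarith
    · rw [abs_of_pos (by linarith)]; linarith
    · rw [abs_of_pos (by linarith)]; linarith
  have hre : ∀ (x : ℂ) (σ e : ℝ), (x + ((σ * e : ℝ) : ℂ) * I).re = x.re := fun x σ e => by simp
  have him : ∀ (x : ℂ) (σ e : ℝ), (x + ((σ * e : ℝ) : ℂ) * I).im = x.im + σ * e := fun x σ e => by simp
  have c1 : Continuous fun x : ℂ => ‖Y23.TT g x - 1‖ := (hgd.continuous.sub continuous_const).norm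
  have c2 : Continuous fun x : ℂ => ‖Y23.TT g x‖ := hgd.continuous.norm
  have c3 : Continuous fun x : ℂ => 2 / (m * δ) * ‖Y23.TT f x‖ := continuous_const.mul hFd.continuous.norm
  refine ⟨g, hg, fun x hx => ⟨fun h1 h2 => ?_, fun h1 => ?_⟩⟩
  · rcases eq_or_lt_of_le h1 with h3 | h3
    · refine side c1 c3 x 1 ?_
      have : ∀ᶠ e : ℝ in 𝓝[>] 0, e < t - s := eventually_nhdsWithin_of_eventually_nhds (gt_mem_nhds (by linarith))
      filter_upwards [this, self_mem_nhdsWithin] with e he he0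
      have he1 : 0 < e := he0
      exact hin _ (by rwa [hre]) (by rw [him]; linarith) (by rw [him]; linarith)
    · rcases eq_or_lt_of_le h2 with h4 | h4
      · refine side c1 c3 x (-1) ?_
        have : ∀ᶠ e : ℝ in 𝓝[>] 0, e < t - s := eventually_nhdsWithin_of_eventually_nhds (gt_mem_nhds (by linarith))
        filter_upwards [this, self_mem_nhdsWithin] with e he he0
        have he1 : 0 < e := he0
        exact hin _ (by rwa [hre]) (by rw [him]; linarith) (by rw [him]; linarith)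
      · exact hin x hx h3 h4
  · rcases h1 with h1 | h1
    · rcases eq_or_lt_of_le h1 with h3 | h3
      · refine side c2 c3 x (-1) ?_
        filter_upwards [self_mem_nhdsWithin] with e he0
        have he1 : 0 < e := he0
        exact hlo _ (by rwa [hre]) (by rw [him]; linarith)
      · exact hlo x hx h3
    · rcases eq_or_lt_of_le h1 with h3 | h3
      · refine side c2 c3 x 1 ?_
        filter_upwards [self_mem_nhdsWithin] with e he0
        have he1 : 0 < e := he0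
        exact hup _ (by rwa [hre]) (by rw [him]; linarith)
      · exact hup x hx h3

end Pool.Agent.Q97.RL
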