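import Pool.Agent.Y23.G.Fw3

set_option autoImplicit false

/-!
# Project RGL: the minimum modulus of the completed L-function (as `Q97/RI/H3.lean`)
-/

open Complex Filter Topology Set MeasureTheory Metric
open scoped ComplexConjugate
open H370.Loc (Pf Pf_zero Pf_cons Pf_diff Pf_ne_zero Pf_norm_ge Pf_norm_le extract)
open Pool.Agent.Y23.G
open Pool.Agent.Y23 (zf_lower)

namespace Pool.Agent.Q97.RL

/-- **the minimum modulus**, at distance `d` from the zeros -/
theorem minmod [L : LFun] : ∃ K : ℝ, 1 ≤ K ∧ ∀ (t d : ℝ) (z : ℂ), 0 < d → d ≤ 1 → |z.re| ≤ 3 / 2 → |z.im - t| ≤ 1 / 2 →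
    (∀ ρ : ℂ, L.X ρ = 0 → d ≤ ‖1 / 2 + z - ρ‖) →
      ‖L.X (ctr t)‖ * Real.exp (-(K * Lg t * (1 - Real.log d))) ≤ ‖L.X (1 / 2 + z)‖ := by
  classical
  obtain ⟨C, hC, hdata⟩ := Xn_data (L := L)
  set r : ℝ := 5.6 with hr
  set R : ℝ := 6 with hR
  set r1 : ℝ := 5.55 with hr1
  have hr0 : 0 < r := by rw [hr]; norm_num
  have hR0 : 0 < R := by rw [hR]; norm_num
  have hr10 : 0 < r1 := by rw [hr1]; norm_num
  have hrR : r < R := by rw [hr, hR]; norm_num
  have h1r : r1 < r := by rw [hr, hr1]; norm_num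
  have hq0 : 0 < Real.log (R / r) := Real.log_pos (by rw [lt_div_iff₀ hr0]; linarith)
  set q := Real.log (R / r) with hq
  have hqq0 : 0 ≤ Real.log (r / (R - r)) := Real.log_nonneg (by rw [hr, hR]; norm_num)
  set qq := Real.log (r / (R - r)) with hqq
  have hrr : 0 < r - r1 := by linarith
  have hRr0 : 0 < R - r := by linarith
  set K1 := C / q with hK1
  have hK10 : 0 < K1 := by positivity
  set KB := C + K1 * qq + 1 with hKB
  have hKB0 : 0 < KB := by positivity
  set K2 := K1 * r + 2 * KB * r1 / (r - r1) with hK2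
  have hK20 : 0 < K2 := by positivity
  refine ⟨1 + K1 + K2, by linarith, fun t d z0 hd0 hd1 hz1 hz2 hfar => ?_⟩
  obtain ⟨hc1, hb⟩ := hdata t
  have hL := one_le_Lg t
  set c : ℂ := ctr t with hc
  set f : ℂ → ℂ := Xn t with hf
  set M := Real.exp (C * Lg t) with hM
  have hM1 : 1 ≤ M := Real.one_le_exp (by positivity)
  have hXc : L.X c ≠ 0 := ctr_ne t
  have hfX : ∀ z, L.X z = L.X c * f z := fun z => by
    simp only [hf]
    unfold Xn
    rw [← hc, mul_inv_cancel_left₀ hXc]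
  have hfd : Differentiable ℂ f := (Xd (L := L)).const_mul _
  have hfc : f c ≠ 0 := by rw [hc1]; exact one_ne_zero
  obtain ⟨s0, g0, hs0, hg0, hfg, hg0z, hcard⟩ := extract hr0 hrR hM1 (fun z _ => hfd.analyticAt z) hfc hb
  set n := Multiset.card s0 with hn
  have hnK : (n : ℝ) ≤ K1 * Lg t := by
    refine hcard.trans ?_
    rw [hc1, norm_one, div_one, hM, Real.log_exp, hK1]
    rw [div_mul_eq_mul_div]
  have hgsphere : ∀ w ∈ sphere c R, ‖g0 w‖ ≤ M / (R - r) ^ n := by
    intro w hw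
    have hwR := sphere_subset_closedBall hw
    have h1 : (R - r) ^ n ≤ ‖Pf s0 w‖ := Pf_norm_ge hRr0.le fun ρ hρ => by
      have h2 := (hs0 ρ hρ).1
      rw [mem_closedBall, dist_eq_norm] at h2
      rw [mem_sphere, dist_eq_norm] at hw
      have h3 : ‖w - c‖ ≤ ‖w - ρ‖ + ‖ρ - c‖ := by
        calc ‖w - c‖ = ‖(w - ρ) + (ρ - c)‖ := by congr 1; ring
          _ ≤ _ := norm_add_le _ _
      linarith
    rw [le_div_iff₀ (by positivity)]
    calc ‖g0 w‖ * (R - r) ^ n ≤ ‖g0 w‖ * ‖Pf s0 w‖ := mul_le_mul_of_nonneg_left h1 (norm_nonneg _)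
      _ = ‖f w‖ := by rw [hfg w, norm_mul, mul_comm]
      _ ≤ M := hb w hwR
  have hgball : ∀ w ∈ closedBall c R, ‖g0 w‖ ≤ M / (R - r) ^ n := by
    intro w hw
    refine Complex.norm_le_of_forall_mem_frontier_norm_le (U := ball c R) isBounded_ball ?_ ?_ ?_
    · apply DifferentiableOn.diffContOnCl
      rw [closure_ball c hR0.ne']
      exact fun x hx => (hg0 x hx).differentiableAt.differentiableWithinAt
    · intro x hx
      rw [frontier_ball c hR0.ne'] at hx
      exact hgsphere x hx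
    · rwa [closure_ball c hR0.ne']
  have hgc : 1 / r ^ n ≤ ‖g0 c‖ := by
    rw [div_le_iff₀ (by positivity)]
    have h1 : ‖Pf s0 c‖ ≤ r ^ n := Pf_norm_le fun ρ hρ => by
      have h2 := (hs0 ρ hρ).1
      rw [mem_closedBall, dist_eq_norm, norm_sub_rev] at h2
      exact h2
    calc (1 : ℝ) = ‖f c‖ := by rw [hc1, norm_one]
      _ = ‖g0 c‖ * ‖Pf s0 c‖ := by rw [hfg c, norm_mul, mul_comm]
      _ ≤ ‖g0 c‖ * r ^ n := mul_le_mul_of_nonneg_left h1 (norm_nonneg _)
  set B0 : ℝ := C * Lg t + n * qq with hB0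
  have hB00 : 0 ≤ B0 := by positivity
  have hexpB : Real.exp B0 = M * (r / (R - r)) ^ n := by
    rw [hB0, Real.exp_add, Real.exp_nat_mul, hqq, Real.exp_log (by positivity)]
  have hgb : ∀ w ∈ closedBall c r, ‖g0 w‖ ≤ Real.exp B0 * ‖g0 c‖ := by
    intro w hw
    refine (hgball w (closedBall_subset_closedBall hrR.le hw)).trans ?_
    rw [hexpB]
    calc M / (R - r) ^ n = M * (r / (R - r)) ^ n * (1 / r ^ n) := by
          rw [div_pow]; field_simp
      _ ≤ _ := mul_le_mul_of_nonneg_left hgc (by positivity)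
  have hBK : B0 + 1 ≤ KB * Lg t := by
    rw [hB0, hKB]
    have := mul_le_mul_of_nonneg_right hnK hqq0
    nlinarith
  set s1 : ℂ := 1 / 2 + z0 with hs1
  have hs1r : s1 ∈ closedBall c r1 := by
    rw [mem_closedBall, dist_eq_norm, hr1]
    have hre : (s1 - c).re = z0.re - 4 := by
      simp only [hs1, hc, ctr, Complex.sub_re, Complex.add_re]
      norm_num
      ring
    have him : (s1 - c).im = z0.im - t := by
      simp [hs1, hc, ctr]
    have h1 : |z0.re - 4| ≤ 11 / 2 := by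
      rw [abs_le] at hz1 ⊢
      constructor <;> linarith [hz1.1, hz1.2]
    have h2 : ‖s1 - c‖ ^ 2 ≤ (5.55 : ℝ) ^ 2 := by
      rw [← Complex.normSq_eq_norm_sq, Complex.normSq_apply, hre, him, ← sq, ← sq, ← sq_abs (z0.re - 4), ← sq_abs (z0.im - t)]
      have h3 := pow_le_pow_left₀ (abs_nonneg _) h1 2
      have h4 := pow_le_pow_left₀ (abs_nonneg _) hz2 2
      norm_num at h3 h4 ⊢
      linarith
    exact le_of_sq_le_sq h2 (by norm_num)
  have hlow := zf_lower hr10 h1r hB00 (hg0.mono (closedBall_subset_closedBall hrR.le)) hg0z hgb hs1r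
  have hg0s : Real.exp (-(K2 * Lg t)) ≤ ‖g0 s1‖ := by
    refine le_trans ?_ hlow
    have h1 : Real.exp (-(K1 * r * Lg t)) ≤ ‖g0 c‖ := by
      refine le_trans ?_ hgc
      rw [one_div, Real.exp_neg]
      apply inv_anti₀ (by positivity)
      calc r ^ n ≤ (Real.exp r) ^ n := pow_le_pow_left₀ hr0.le (by linarith [Real.add_one_le_exp r]) n
        _ = Real.exp (n * r) := by rw [← Real.exp_nat_mul]
        _ ≤ _ := Real.exp_le_exp.2 (by nlinarith)
    have h2 : Real.exp (-(2 * KB * r1 / (r - r1) * Lg t)) ≤ Real.exp (-(2 * (B0 + 1) * r1 / (r - r1))) := by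
      refine Real.exp_le_exp.2 (neg_le_neg ?_)
      rw [div_mul_eq_mul_div]
      refine div_le_div_of_nonneg_right ?_ hrr.le
      have := mul_le_mul_of_nonneg_right hBK hr10.le
      nlinarith
    calc Real.exp (-(K2 * Lg t)) = Real.exp (-(K1 * r * Lg t)) * Real.exp (-(2 * KB * r1 / (r - r1) * Lg t)) := by
          rw [← Real.exp_add]; congr 1; rw [hK2]; ring
      _ ≤ _ := mul_le_mul h1 h2 (Real.exp_pos _).le (norm_nonneg _)
  have hlogd : Real.log d ≤ 0 := Real.log_nonpos hd0.le hd1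
  have hPf : Real.exp (K1 * Lg t * Real.log d) ≤ ‖Pf s0 s1‖ := by
    refine le_trans ?_ (Pf_norm_ge hd0.le fun ρ hρ => hfar ρ ?_)
    · have e : d ^ n = Real.exp ((n : ℝ) * Real.log d) := by
        rw [Real.exp_nat_mul, Real.exp_log hd0]
      rw [← hn, e]
      refine Real.exp_le_exp.2 ?_
      nlinarith
    · rw [hfX, (hs0 ρ hρ).2, mul_zero]
  rw [hfX s1, norm_mul]
  refine mul_le_mul_of_nonneg_left ?_ (norm_nonneg _)
  rw [hfg s1, norm_mul]
  calc Real.exp (-((1 + K1 + K2) * Lg t * (1 - Real.log d))) ≤ Real.exp (K1 * Lg t * Real.log d) * Real.exp (-(K2 * Lg t)) := by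
        rw [← Real.exp_add]
        refine Real.exp_le_exp.2 ?_
        have h1 : 0 ≤ Lg t * (-Real.log d) := mul_nonneg (by linarith) (by linarith)
        nlinarith [mul_nonneg hK20.le h1, mul_nonneg hK10.le h1, mul_pos hK10 (by linarith : 0 < Lg t)]
    _ ≤ _ := mul_le_mul hPf hg0s (Real.exp_pos _).le (norm_nonneg _)

end Pool.Agent.Q97.RL
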