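import Pool.Agent.Q97.RL.R2

set_option autoImplicit false

/-!
# Project RGL: from a function close to the indicator function to the measures (as `Q97/RI/H4.lean`, for zero data)
-/

open Complex Filter Topology Set Metric MeasureTheory
open scoped ComplexConjugate

namespace Pool.Agent.Q97.RL

open Pool.Agent.Y23.G (ZD ZC Zt mu QQ SS GG rfZ)

variable [D : ZD]

/-- the measure is comparable with the form -/
def Rp (a : ℝ) (ν : ℕ∞) (α β : ℝ) (μ : Measure ℝ) : Prop := ∀ f : ℝ → ℂ, Y23.G.F.Hn a ν f →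
  Integrable (fun t : ℝ => ‖Y23.TT f (t * I)‖ ^ 2) μ ∧ α * QQ f ≤ ∫ t : ℝ, ‖Y23.TT f (t * I)‖ ^ 2 ∂μ ∧
    ∫ t : ℝ, ‖Y23.TT f (t * I)‖ ^ 2 ∂μ ≤ β * QQ f

/-- the number of the zeros with ordinates in `(s, t)` -/
noncomputable def Nz (s t : ℝ) : ℝ := ∑' ρ : Zt, if s < (ρ : ℂ).im ∧ (ρ : ℂ).im < t then (mu ρ : ℝ) else 0

/-- the sum of `1 / (1 + γ²)` over the zeros -/
noncomputable def CZ : ℝ := ∑' ρ : Zt, (mu ρ : ℝ) * (1 / (1 + ((ρ : ℂ).im - 0) ^ 2))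

lemma CZ_sum : Summable fun ρ : Zt => (mu ρ : ℝ) * (1 / (1 + ((ρ : ℂ).im - 0) ^ 2)) := Y23.G.zsummable 0

lemma CZ_nonneg : 0 ≤ CZ := tsum_nonneg fun ρ => mul_nonneg (Nat.cast_nonneg _) (by positivity)

lemma mu_pos (ρ : Zt) : 1 ≤ mu (ρ : ℂ) := ZD.mpos _ ρ.2

lemma Nz_sum (s t : ℝ) : Summable fun ρ : Zt => if s < (ρ : ℂ).im ∧ (ρ : ℂ).im < t then (mu ρ : ℝ) else 0 := by
  refine Summable.of_nonneg_of_le (fun ρ => ?_) (fun ρ => ?_) (CZ_sum.mul_left (1 + (|s| + |t|) ^ 2))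
  · split_ifs
    · exact Nat.cast_nonneg _
    · exact le_rfl
  · have h0 : (0 : ℝ) ≤ mu ρ := Nat.cast_nonneg _
    split_ifs with h
    · have h1 : |(ρ : ℂ).im| ≤ |s| + |t| := by
        rw [abs_le]
        constructor
        · linarith [neg_abs_le s, abs_nonneg t]
        · linarith [le_abs_self t, abs_nonneg s]
      have h2 : ((ρ : ℂ).im - 0) ^ 2 ≤ (|s| + |t|) ^ 2 := by
        rw [sub_zero, ← sq_abs (ρ : ℂ).im]
        exact pow_le_pow_left₀ (abs_nonneg _) h1 2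
      have h3 : 1 ≤ (1 + (|s| + |t|) ^ 2) * (1 / (1 + ((ρ : ℂ).im - 0) ^ 2)) := by
        rw [mul_one_div, le_div_iff₀ (by positivity)]
        linarith
      calc (mu ρ : ℝ) = (mu ρ : ℝ) * 1 := (mul_one _).symm
        _ ≤ (mu ρ : ℝ) * ((1 + (|s| + |t|) ^ 2) * (1 / (1 + ((ρ : ℂ).im - 0) ^ 2))) := mul_le_mul_of_nonneg_left h3 h0
        _ = _ := by ring
    · positivity

lemma Nz_nonneg (s t : ℝ) : 0 ≤ Nz s t := tsum_nonneg fun ρ => by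
  split_ifs
  · exact Nat.cast_nonneg _
  · exact le_rfl

lemma Nz_le (s t : ℝ) : Nz s t ≤ (1 + (|s| + |t|) ^ 2) * CZ := by
  unfold Nz CZ
  rw [← tsum_mul_left]
  refine (Nz_sum s t).tsum_le_tsum (fun ρ => ?_) (CZ_sum.mul_left _)
  have h0 : (0 : ℝ) ≤ mu ρ := Nat.cast_nonneg _
  split_ifs with h
  · have h1 : |(ρ : ℂ).im| ≤ |s| + |t| := by
      rw [abs_le]
      constructor
      · linarith [neg_abs_le s, abs_nonneg t]
      · linarith [le_abs_self t, abs_nonneg s]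
    have h2 : ((ρ : ℂ).im - 0) ^ 2 ≤ (|s| + |t|) ^ 2 := by
      rw [sub_zero, ← sq_abs (ρ : ℂ).im]
      exact pow_le_pow_left₀ (abs_nonneg _) h1 2
    have h3 : 1 ≤ (1 + (|s| + |t|) ^ 2) * (1 / (1 + ((ρ : ℂ).im - 0) ^ 2)) := by
      rw [mul_one_div, le_div_iff₀ (by positivity)]
      linarith
    calc (mu ρ : ℝ) = (mu ρ : ℝ) * 1 := (mul_one _).symm
      _ ≤ (mu ρ : ℝ) * ((1 + (|s| + |t|) ^ 2) * (1 / (1 + ((ρ : ℂ).im - 0) ^ 2))) := mul_le_mul_of_nonneg_left h3 h0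
      _ = _ := by ring
  · positivity

lemma Nz_cases (s t : ℝ) : Nz s t = 0 ∨ 1 ≤ Nz s t := by
  by_cases h : ∃ ρ : Zt, s < (ρ : ℂ).im ∧ (ρ : ℂ).im < t
  · right
    obtain ⟨ρ, hρ⟩ := h
    have h1 := (Nz_sum s t).le_tsum ρ fun ρ' _ => by
      split_ifs
      · exact Nat.cast_nonneg _
      · exact le_rfl
    rw [if_pos hρ] at h1
    refine le_trans ?_ h1
    exact_mod_cast mu_pos ρ
  · left
    push Not at h
    unfold Nz
    refine (tsum_congr fun ρ => ?_).trans tsum_zero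
    rw [if_neg (fun hh => absurd (h ρ hh.1) (not_le.2 hh.2))]

lemma Nz_add {s r t : ℝ} (h1 : s < r) (h2 : r < t) (hr : ∀ ρ : Zt, (ρ : ℂ).im ≠ r) : Nz s t = Nz s r + Nz r t := by
  unfold Nz
  rw [← (Nz_sum s r).tsum_add (Nz_sum r t)]
  refine tsum_congr fun ρ => ?_
  rcases lt_or_gt_of_ne (hr ρ) with h | h
  · by_cases h3 : s < (ρ : ℂ).im
    · rw [if_pos ⟨h3, h.trans h2⟩, if_pos ⟨h3, h⟩, if_neg (fun hh => by linarith [hh.1]), add_zero]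
    · rw [if_neg (fun hh => h3 hh.1), if_neg (fun hh => h3 hh.1), if_neg (fun hh => by linarith [hh.1]), add_zero]
  · by_cases h3 : (ρ : ℂ).im < t
    · rw [if_pos ⟨h1.trans h, h3⟩, if_neg (fun hh => by linarith [hh.2]), if_pos ⟨h, h3⟩, zero_add]
    · rw [if_neg (fun hh => h3 hh.2), if_neg (fun hh => by linarith [hh.2]), if_neg (fun hh => h3 hh.2), zero_add]

omit D in
/-- the inequality of Young -/
lemma young {x y δ : ℝ} (hδ : 0 < δ) : (x + y) ^ 2 ≤ (1 + δ) * x ^ 2 + (1 + 1 / δ) * y ^ 2 := by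
  have h1 : 0 ≤ (Real.sqrt δ * x - y / Real.sqrt δ) ^ 2 := sq_nonneg _
  have hs : 0 < Real.sqrt δ := Real.sqrt_pos.2 hδ
  have h2 : (Real.sqrt δ * x - y / Real.sqrt δ) ^ 2 = δ * x ^ 2 - 2 * x * y + 1 / δ * y ^ 2 := by
    have e1 : Real.sqrt δ ^ 2 = δ := Real.sq_sqrt hδ.le
    have e2 : (Real.sqrt δ * x - y / Real.sqrt δ) ^ 2 = Real.sqrt δ ^ 2 * x ^ 2 - 2 * x * y * (Real.sqrt δ / Real.sqrt δ) + y ^ 2 / Real.sqrt δ ^ 2 := by
      ring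
    rw [e2, e1, div_self hs.ne']
    ring
  rw [h2] at h1
  nlinarith

section
variable [EC : ZC] {a : ℝ} {ν : ℕ∞} {f g : ℝ → ℂ} {s t B τ : ℝ}

/-- the form of the trial function -/
lemma QQ_f (ha : 0 < a) (hf : Y23.G.F.Hn a ν f) (hτ : 0 < τ)
    (hz : ∀ ρ : Zt, ‖Y23.TT f ((ρ : ℂ) - 1 / 2)‖ ≤ τ / (1 + |(ρ : ℂ).im|)) : QQ f ≤ CZ * τ ^ 2 := by
  have hdom := (Y23.G.Hd.dom ha hf.hd)
  have h1 := (le_abs_self _).trans (Y23.G.QQ_abs_le hdom)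
  refine h1.trans ?_
  unfold SS CZ
  rw [← tsum_mul_right]
  refine hdom.tsum_le_tsum (fun ρ => ?_) (CZ_sum.mul_right _)
  rw [mul_assoc]
  refine mul_le_mul_of_nonneg_left ?_ (Nat.cast_nonneg _)
  refine (pow_le_pow_left₀ (norm_nonneg _) (hz ρ) 2).trans ?_
  rw [div_pow, sub_zero, one_div, inv_mul_eq_div]
  refine div_le_div_of_nonneg_left (by positivity) (by positivity) ?_
  have := abs_nonneg (ρ : ℂ).im
  nlinarith [sq_abs (ρ : ℂ).im]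

/-- the form of the approximation of the indicator function -/
lemma QQ_g (ha : 0 < a) (hg : Y23.G.F.Hn a ν g) (hB : 0 < B) (hτ : 0 < τ) (hBτ : B * τ ≤ 1)
    (h1 : ∀ x : ℂ, |x.re| ≤ 1 → (s ≤ x.im → x.im ≤ t → ‖Y23.TT g x - 1‖ ≤ B * ‖Y23.TT f x‖) ∧
      (x.im ≤ s ∨ t ≤ x.im → ‖Y23.TT g x‖ ≤ B * ‖Y23.TT f x‖))
    (hz : ∀ ρ : Zt, ‖Y23.TT f ((ρ : ℂ) - 1 / 2)‖ ≤ τ / (1 + |(ρ : ℂ).im|)) :
    |QQ g - Nz s t| ≤ 3 * (B * τ) * Nz s t + (B * τ) ^ 2 * CZ := by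
  have hdom := (Y23.G.Hd.dom ha hg.hd)
  have hQs : Summable (fun ρ : Zt => (mu ρ : ℝ) * (GG g g ((ρ : ℂ) - 1 / 2)).re) := by
    refine Summable.of_norm ?_
    refine Summable.of_nonneg_of_le (fun _ => norm_nonneg _) (fun ρ => ?_) ((hdom.add hdom.refl).mul_left (1 / 2))
    rw [norm_mul, Real.norm_natCast, Real.norm_eq_abs]
    have h := mul_le_mul_of_nonneg_left ((Complex.abs_re_le_norm _).trans (Y23.G.norm_GG_zero g g ((ρ : ℂ) - 1 / 2)))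
      (Nat.cast_nonneg (mu ρ) : (0 : ℝ) ≤ mu ρ)
    calc _ ≤ _ := h
      _ = _ := by ring
  have hδ : 0 < B * τ := mul_pos hB hτ
  have hre : ∀ ρ : Zt, |((ρ : ℂ) - 1 / 2).re| ≤ 1 := fun ρ => Y23.G.half_re ρ
  have him : ∀ ρ : Zt, ((ρ : ℂ) - 1 / 2).im = (ρ : ℂ).im := fun ρ => by simp
  have hle : ∀ ρ : Zt, B * ‖Y23.TT f ((ρ : ℂ) - 1 / 2)‖ ≤ B * τ / (1 + |(ρ : ℂ).im|) := fun ρ => by
    rw [mul_div_assoc]
    exact mul_le_mul_of_nonneg_left (hz ρ) hB.le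
  have hle1 : ∀ ρ : Zt, B * ‖Y23.TT f ((ρ : ℂ) - 1 / 2)‖ ≤ B * τ := fun ρ => by
    refine (hle ρ).trans (div_le_self hδ.le ?_)
    linarith [abs_nonneg (ρ : ℂ).im]
  have hpt : ∀ ρ : Zt, |(GG g g ((ρ : ℂ) - 1 / 2)).re - (if s < (ρ : ℂ).im ∧ (ρ : ℂ).im < t then 1 else 0)| ≤
      (if s < (ρ : ℂ).im ∧ (ρ : ℂ).im < t then 3 * (B * τ) else 0) + (B * τ) ^ 2 * (1 / (1 + ((ρ : ℂ).im - 0) ^ 2)) := by
    intro ρ
    set w : ℂ := (ρ : ℂ) - 1 / 2 with hw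
    have hr : -conj w = ((rfZ ρ : Zt) : ℂ) - 1 / 2 := (Y23.G.rfZ_sub ρ).symm
    have hri : ((rfZ ρ : Zt) : ℂ).im = (ρ : ℂ).im := by
      rw [← him (rfZ ρ), ← hr]
      simp [hw]
    unfold GG
    rw [hr]
    have hpos : 0 ≤ (B * τ) ^ 2 * (1 / (1 + ((ρ : ℂ).im - 0) ^ 2)) := by positivity
    by_cases hin : s < (ρ : ℂ).im ∧ (ρ : ℂ).im < t
    · rw [if_pos hin, if_pos hin]
      have a1 := ((h1 w (hre ρ)).1 (by rw [him]; exact hin.1.le) (by rw [him]; exact hin.2.le)).trans (hle1 ρ)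
      have a2 := ((h1 _ (hre (rfZ ρ))).1 (by rw [him, hri]; exact hin.1.le) (by rw [him, hri]; exact hin.2.le)).trans (hle1 (rfZ ρ))
      set u := Y23.TT g w
      set v := Y23.TT g (((rfZ ρ : Zt) : ℂ) - 1 / 2)
      have e1 : (u * conj v).re - 1 = (u * conj v - 1).re := by simp
      rw [e1]
      refine (Complex.abs_re_le_norm _).trans ?_
      have e2 : u * conj v - 1 = (u - 1) * conj v + conj (v - 1) := by
        rw [map_sub, map_one]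
        ring
      rw [e2]
      have hv : ‖v‖ ≤ 1 + B * τ := by
        calc ‖v‖ = ‖(v - 1) + 1‖ := by rw [sub_add_cancel]
          _ ≤ ‖v - 1‖ + ‖(1 : ℂ)‖ := norm_add_le _ _
          _ ≤ _ := by rw [norm_one]; linarith
      have h3 : ‖(u - 1) * conj v + conj (v - 1)‖ ≤ (B * τ) * (1 + B * τ) + B * τ := by
        refine (norm_add_le _ _).trans ?_
        rw [norm_mul, Complex.norm_conj, Complex.norm_conj]
        exact add_le_add (mul_le_mul a1 hv (norm_nonneg _) hδ.le) a2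
      refine h3.trans ?_
      nlinarith
    · rw [if_neg hin, if_neg hin, sub_zero, zero_add]
      have hor : (ρ : ℂ).im ≤ s ∨ t ≤ (ρ : ℂ).im := by
        by_contra hcon
        push Not at hcon
        exact hin hcon
      have a1 := ((h1 w (hre ρ)).2 (by rw [him]; exact hor)).trans (hle ρ)
      have a2 := ((h1 _ (hre (rfZ ρ))).2 (by rw [him, hri]; exact hor)).trans (hle (rfZ ρ))
      rw [hri] at a2
      refine (Complex.abs_re_le_norm _).trans ?_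
      rw [norm_mul, Complex.norm_conj]
      refine (mul_le_mul a1 a2 (norm_nonneg _) (by positivity)).trans ?_
      rw [div_mul_div_comm, ← sq, mul_one_div, sub_zero]
      refine div_le_div_of_nonneg_left (by positivity) (by positivity) ?_
      have := abs_nonneg (ρ : ℂ).im
      nlinarith [sq_abs (ρ : ℂ).im]
  have hterm : ∀ ρ : Zt, |(mu ρ : ℝ) * (GG g g ((ρ : ℂ) - 1 / 2)).re - (if s < (ρ : ℂ).im ∧ (ρ : ℂ).im < t then (mu ρ : ℝ) else 0)| ≤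
      3 * (B * τ) * (if s < (ρ : ℂ).im ∧ (ρ : ℂ).im < t then (mu ρ : ℝ) else 0) + (B * τ) ^ 2 * ((mu ρ : ℝ) * (1 / (1 + ((ρ : ℂ).im - 0) ^ 2))) := by
    intro ρ
    have h0 : (0 : ℝ) ≤ mu ρ := Nat.cast_nonneg _
    have e1 : (mu ρ : ℝ) * (GG g g ((ρ : ℂ) - 1 / 2)).re - (if s < (ρ : ℂ).im ∧ (ρ : ℂ).im < t then (mu ρ : ℝ) else 0) =
        (mu ρ : ℝ) * ((GG g g ((ρ : ℂ) - 1 / 2)).re - (if s < (ρ : ℂ).im ∧ (ρ : ℂ).im < t then 1 else 0)) := by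
      split_ifs <;> ring
    rw [e1, abs_mul, abs_of_nonneg h0]
    refine (mul_le_mul_of_nonneg_left (hpt ρ) h0).trans (le_of_eq ?_)
    split_ifs <;> ring
  have hR : Summable fun ρ : Zt => 3 * (B * τ) * (if s < (ρ : ℂ).im ∧ (ρ : ℂ).im < t then (mu ρ : ℝ) else 0) +
      (B * τ) ^ 2 * ((mu ρ : ℝ) * (1 / (1 + ((ρ : ℂ).im - 0) ^ 2))) := ((Nz_sum s t).mul_left _).add (CZ_sum.mul_left _)
  unfold QQ
  have e : (∑' ρ : Zt, (mu ρ : ℝ) * (GG g g ((ρ : ℂ) - 1 / 2)).re) - Nz s t =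
      ∑' ρ : Zt, ((mu ρ : ℝ) * (GG g g ((ρ : ℂ) - 1 / 2)).re - (if s < (ρ : ℂ).im ∧ (ρ : ℂ).im < t then (mu ρ : ℝ) else 0)) := by
    unfold Nz
    rw [hQs.tsum_sub (Nz_sum s t)]
  rw [e]
  have hA : Summable fun ρ : Zt => |(mu ρ : ℝ) * (GG g g ((ρ : ℂ) - 1 / 2)).re - (if s < (ρ : ℂ).im ∧ (ρ : ℂ).im < t then (mu ρ : ℝ) else 0)| :=
    Summable.of_nonneg_of_le (fun _ => abs_nonneg _) hterm hR
  have h5 : |∑' ρ : Zt, ((mu ρ : ℝ) * (GG g g ((ρ : ℂ) - 1 / 2)).re - (if s < (ρ : ℂ).im ∧ (ρ : ℂ).im < t then (mu ρ : ℝ) else 0))| ≤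
      ∑' ρ : Zt, |(mu ρ : ℝ) * (GG g g ((ρ : ℂ) - 1 / 2)).re - (if s < (ρ : ℂ).im ∧ (ρ : ℂ).im < t then (mu ρ : ℝ) else 0)| := by
    have := norm_tsum_le_tsum_norm (f := fun ρ : Zt => (mu ρ : ℝ) * (GG g g ((ρ : ℂ) - 1 / 2)).re -
      (if s < (ρ : ℂ).im ∧ (ρ : ℂ).im < t then (mu ρ : ℝ) else 0)) (by simpa only [Real.norm_eq_abs] using hA)
    simpa only [Real.norm_eq_abs] using this
  refine (h5.trans (hA.tsum_le_tsum hterm hR)).trans (le_of_eq ?_)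
  rw [((Nz_sum s t).mul_left _).tsum_add (CZ_sum.mul_left _), tsum_mul_left, tsum_mul_left]
  rfl

/-- **the measures of short intervals** -/
theorem meas_loc (ha : 0 < a) (hf : Y23.G.F.Hn a ν f) (hg : Y23.G.F.Hn a ν g) (hB : 0 < B) (hτ : 0 < τ) (hBτ : B * τ ≤ 1 / 8)
    (hBC : B * τ * CZ ≤ 1 / 2)
    (h1 : ∀ x : ℂ, |x.re| ≤ 1 → (s ≤ x.im → x.im ≤ t → ‖Y23.TT g x - 1‖ ≤ B * ‖Y23.TT f x‖) ∧
      (x.im ≤ s ∨ t ≤ x.im → ‖Y23.TT g x‖ ≤ B * ‖Y23.TT f x‖))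
    (hz : ∀ ρ : Zt, ‖Y23.TT f ((ρ : ℂ) - 1 / 2)‖ ≤ τ / (1 + |(ρ : ℂ).im|)) {α β : ℝ} {μ : Measure ℝ} (hα : 0 ≤ α) (hβ : 0 < β)
    (hμ : Rp a ν α β μ) : μ (Icc s t) ≠ ⊤ ∧ μ.real (Icc s t) ≤ β * (Nz s t + (7 * Nz s t + 4 * CZ) * (B * τ)) ∧
      α * Nz s t - β * ((7 * Nz s t + 4 * CZ) * (B * τ)) ≤ μ.real (Ioo s t) := by
  set δ : ℝ := B * τ with hδd
  have hδ : 0 < δ := mul_pos hB hτ
  set N : ℝ := Nz s t with hN
  have hN0 : 0 ≤ N := Nz_nonneg s t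
  have hC0 := CZ_nonneg
  have hQf := QQ_f ha hf hτ hz
  have hQg := QQ_g ha hg hB hτ (by linarith) h1 hz
  rw [← hδd, abs_le] at hQg
  obtain ⟨i1, i2, i3⟩ := hμ f hf
  obtain ⟨j1, j2, j3⟩ := hμ g hg
  set u : ℝ → ℝ := fun v => ‖Y23.TT f (v * I)‖ ^ 2 with hu
  set h : ℝ → ℝ := fun v => ‖Y23.TT g (v * I)‖ ^ 2 with hh
  have hline : ∀ v : ℝ, |((v : ℂ) * I).re| ≤ 1 ∧ ((v : ℂ) * I).im = v := fun v => by simp
  have hlo : ∀ v ∈ Icc s t, 1 ≤ (1 + δ) * h v + (1 + 1 / δ) * B ^ 2 * u v := by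
    intro v hv
    have h2 := (h1 _ (hline v).1).1 (by rw [(hline v).2]; exact hv.1) (by rw [(hline v).2]; exact hv.2)
    have h3 : 1 ≤ ‖Y23.TT g (v * I)‖ + B * ‖Y23.TT f (v * I)‖ := by
      calc (1 : ℝ) = ‖(1 : ℂ)‖ := norm_one.symm
        _ = ‖Y23.TT g (v * I) - (Y23.TT g (v * I) - 1)‖ := by congr 1; ring
        _ ≤ ‖Y23.TT g (v * I)‖ + ‖Y23.TT g (v * I) - 1‖ := norm_sub_le _ _
        _ ≤ _ := by linarith
    have h4 := young (x := ‖Y23.TT g (v * I)‖) (y := B * ‖Y23.TT f (v * I)‖) hδ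
    have h5 : (1 : ℝ) ≤ (‖Y23.TT g (v * I)‖ + B * ‖Y23.TT f (v * I)‖) ^ 2 := by nlinarith
    simp only [hh, hu]
    calc (1 : ℝ) ≤ _ := h5.trans h4
      _ = _ := by ring
  have hup : ∀ v, h v ≤ (1 + δ) * (Ioo s t).indicator 1 v + (1 + 1 / δ) * B ^ 2 * u v := by
    intro v
    have hnn : 0 ≤ (1 + 1 / δ) * B ^ 2 * u v := by
      simp only [hu]
      positivity
    by_cases hv : v ∈ Ioo s t
    · rw [indicator_of_mem hv]
      have h2 := (h1 _ (hline v).1).1 (by rw [(hline v).2]; exact hv.1.le) (by rw [(hline v).2]; exact hv.2.le)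
      have h3 : ‖Y23.TT g (v * I)‖ ≤ 1 + B * ‖Y23.TT f (v * I)‖ := by
        calc ‖Y23.TT g (v * I)‖ = ‖1 + (Y23.TT g (v * I) - 1)‖ := by congr 1; ring
          _ ≤ ‖(1 : ℂ)‖ + ‖Y23.TT g (v * I) - 1‖ := norm_add_le _ _
          _ ≤ _ := by rw [norm_one]; linarith
      have h4 := young (x := 1) (y := B * ‖Y23.TT f (v * I)‖) hδ
      have h5 : ‖Y23.TT g (v * I)‖ ^ 2 ≤ (1 + B * ‖Y23.TT f (v * I)‖) ^ 2 := pow_le_pow_left₀ (norm_nonneg _) h3 2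
      simp only [hh, hu, Pi.one_apply]
      calc ‖Y23.TT g (v * I)‖ ^ 2 ≤ _ := h5.trans h4
        _ = _ := by ring
    · rw [indicator_of_notMem hv, mul_zero, zero_add]
      have hor : v ≤ s ∨ t ≤ v := by
        by_contra hcon
        push Not at hcon
        exact hv hcon
      have h2 := (h1 _ (hline v).1).2 (by rw [(hline v).2]; exact hor)
      have h3 : h v ≤ B ^ 2 * u v := by
        simp only [hh, hu]
        rw [← mul_pow]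
        exact pow_le_pow_left₀ (norm_nonneg _) h2 2
      refine h3.trans ?_
      have h6 : 0 ≤ 1 / δ * (B ^ 2 * u v) := by
        simp only [hu]
        positivity
      calc B ^ 2 * u v ≤ B ^ 2 * u v + 1 / δ * (B ^ 2 * u v) := by linarith
        _ = _ := by ring
  -- the upper bound
  have hint : Integrable (fun v => (1 + δ) * h v + (1 + 1 / δ) * B ^ 2 * u v) μ := (j1.const_mul _).add (i1.const_mul _)
  have hnn : ∀ v, 0 ≤ (1 + δ) * h v + (1 + 1 / δ) * B ^ 2 * u v := fun v => by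
    simp only [hh, hu]
    positivity
  have hm1 : μ (Icc s t) ≤ ENNReal.ofReal (∫ v, ((1 + δ) * h v + (1 + 1 / δ) * B ^ 2 * u v) ∂μ) := by
    rw [ofReal_integral_eq_lintegral_ofReal hint (ae_of_all _ hnn), ← lintegral_indicator_one measurableSet_Icc]
    refine lintegral_mono fun v => ?_
    by_cases hv : v ∈ Icc s t
    · rw [indicator_of_mem hv, Pi.one_apply, ← ENNReal.ofReal_one]
      exact ENNReal.ofReal_le_ofReal (hlo v hv)
    · rw [indicator_of_notMem hv]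
      exact bot_le
  have hfin : μ (Icc s t) ≠ ⊤ := ne_top_of_le_ne_top ENNReal.ofReal_ne_top hm1
  have hval : ∫ v, ((1 + δ) * h v + (1 + 1 / δ) * B ^ 2 * u v) ∂μ = (1 + δ) * (∫ v, h v ∂μ) + (1 + 1 / δ) * B ^ 2 * ∫ v, u v ∂μ := by
    rw [integral_add (j1.const_mul _) (i1.const_mul _), integral_const_mul, integral_const_mul]
  have hd2 : (1 + 1 / δ) * B ^ 2 * (β * (CZ * τ ^ 2)) ≤ β * (2 * δ * CZ) := by
    have e : (1 + 1 / δ) * B ^ 2 * (β * (CZ * τ ^ 2)) = β * (((1 + 1 / δ) * δ ^ 2) * CZ) := by rw [hδd]; ring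
    have e2 : (1 + 1 / δ) * δ ^ 2 = δ ^ 2 + δ := by field_simp
    rw [e, e2]
    refine mul_le_mul_of_nonneg_left (mul_le_mul_of_nonneg_right ?_ hC0) hβ.le
    nlinarith
  have hfu : (1 + 1 / δ) * B ^ 2 * ∫ v, u v ∂μ ≤ β * (2 * δ * CZ) := by
    refine le_trans (mul_le_mul_of_nonneg_left (i3.trans (mul_le_mul_of_nonneg_left hQf hβ.le)) (by positivity)) hd2
  have hmain1 : μ.real (Icc s t) ≤ β * (N + (7 * N + 4 * CZ) * δ) := by
    have h2 : μ.real (Icc s t) ≤ (1 + δ) * (∫ v, h v ∂μ) + (1 + 1 / δ) * B ^ 2 * ∫ v, u v ∂μ := by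
      rw [← hval]
      unfold Measure.real
      exact ENNReal.toReal_le_of_le_ofReal (integral_nonneg hnn) hm1
    have h3 : (1 + δ) * (∫ v, h v ∂μ) ≤ (1 + δ) * (β * (N + (3 * δ * N + δ ^ 2 * CZ))) := by
      refine mul_le_mul_of_nonneg_left (j3.trans (mul_le_mul_of_nonneg_left (by linarith [hQg.2]) hβ.le)) (by linarith)
    have h4 : (1 + δ) * (N + (3 * δ * N + δ ^ 2 * CZ)) + 2 * δ * CZ ≤ N + (7 * N + 4 * CZ) * δ := by
      have e1 : 0 ≤ δ * N := mul_nonneg hδ.le hN0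
      have e2 : 0 ≤ δ * CZ := mul_nonneg hδ.le hC0
      have e3 : δ * (δ * N) ≤ 1 / 8 * (δ * N) := mul_le_mul_of_nonneg_right hBτ e1
      have e4 : δ * (δ * CZ) ≤ 1 / 8 * (δ * CZ) := mul_le_mul_of_nonneg_right hBτ e2
      have e5 : δ * (δ * (δ * CZ)) ≤ 1 / 8 * (δ * (δ * CZ)) := mul_le_mul_of_nonneg_right hBτ (mul_nonneg hδ.le e2)
      nlinarith
    calc μ.real (Icc s t) ≤ β * ((1 + δ) * (N + (3 * δ * N + δ ^ 2 * CZ)) + 2 * δ * CZ) := by linarith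
      _ ≤ _ := mul_le_mul_of_nonneg_left h4 hβ.le
  -- the lower bound
  have hfin2 : μ (Ioo s t) ≠ ⊤ := ne_top_of_le_ne_top hfin (measure_mono Ioo_subset_Icc_self)
  have hi1 : Integrable ((Ioo s t).indicator (1 : ℝ → ℝ)) μ := (integrable_indicator_iff measurableSet_Ioo).2 (integrableOn_const hfin2)
  have hv1 : ∫ v, (Ioo s t).indicator (1 : ℝ → ℝ) v ∂μ = μ.real (Ioo s t) := by
    rw [integral_indicator measurableSet_Ioo]
    simp
  have hlow : ∫ v, h v ∂μ ≤ (1 + δ) * μ.real (Ioo s t) + β * (2 * δ * CZ) := by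
    calc ∫ v, h v ∂μ ≤ ∫ v, ((1 + δ) * (Ioo s t).indicator 1 v + (1 + 1 / δ) * B ^ 2 * u v) ∂μ :=
          integral_mono j1 ((hi1.const_mul _).add (i1.const_mul _)) hup
      _ = (1 + δ) * μ.real (Ioo s t) + (1 + 1 / δ) * B ^ 2 * ∫ v, u v ∂μ := by
          rw [integral_add (hi1.const_mul _) (i1.const_mul _), integral_const_mul, integral_const_mul, hv1]
      _ ≤ _ := by linarith
  have hm0 : 0 ≤ μ.real (Ioo s t) := ENNReal.toReal_nonneg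
  refine ⟨hfin, hmain1, ?_⟩
  rcases Nz_cases s t with hNc | hNc
  · rw [← hN] at hNc
    rw [hNc]
    have : 0 ≤ β * ((7 * 0 + 4 * CZ) * δ) := by positivity
    linarith
  · rw [← hN] at hNc
    have hQpos : 0 < QQ g := by
      have h2 : 3 * δ * N ≤ 3 / 8 * N := by nlinarith
      have h3 : δ ^ 2 * CZ ≤ 1 / 16 := by
        calc δ ^ 2 * CZ = δ * (δ * CZ) := by ring
          _ ≤ 1 / 8 * (1 / 2) := mul_le_mul hBτ hBC (mul_nonneg hδ.le hC0) (by norm_num)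
          _ = _ := by norm_num
      linarith [hQg.1]
    have hαβ : α ≤ β := le_of_mul_le_mul_right (j2.trans j3) hQpos
    have h2 : α * (N - (3 * δ * N + δ ^ 2 * CZ)) ≤ α * QQ g := mul_le_mul_of_nonneg_left (by linarith [hQg.1]) hα
    have h3 := (h2.trans j2).trans hlow
    have e1 : 0 ≤ δ * N := mul_nonneg hδ.le hN0
    have e2 : 0 ≤ δ * CZ := mul_nonneg hδ.le hC0
    have e3 : α * (δ * N) ≤ β * (δ * N) := mul_le_mul_of_nonneg_right hαβ e1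
    have e4 : α * (δ * (δ * CZ)) ≤ β * (1 / 8 * (δ * CZ)) :=
      mul_le_mul hαβ (mul_le_mul_of_nonneg_right hBτ e2) (mul_nonneg hδ.le e2) hβ.le
    have e5 : 0 ≤ β * (δ * N) := mul_nonneg hβ.le e1
    have e6 : 0 ≤ β * (δ * CZ) := mul_nonneg hβ.le e2
    have e7 : 0 ≤ δ * (β * ((7 * N + 4 * CZ) * δ)) := by positivity
    have key : (1 + δ) * (α * N - β * ((7 * N + 4 * CZ) * δ)) ≤ (1 + δ) * μ.real (Ioo s t) := by
      calc (1 + δ) * (α * N - β * ((7 * N + 4 * CZ) * δ)) =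
            α * N + α * (δ * N) - (7 * (β * (δ * N)) + 4 * (β * (δ * CZ))) - δ * (β * ((7 * N + 4 * CZ) * δ)) := by ring
        _ ≤ α * N - 3 * (α * (δ * N)) - α * (δ * (δ * CZ)) - 2 * (β * (δ * CZ)) := by linarith
        _ = α * (N - (3 * δ * N + δ ^ 2 * CZ)) - β * (2 * δ * CZ) := by ring
        _ ≤ _ := by linarith
    exact le_of_mul_le_mul_left key (by linarith)

end

end Pool.Agent.Q97.RL
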