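import Pool.Agent.Q97.RL.R3
import Pool.Agent.Q97.RL.R4
import Pool.Agent.Q77.XG.RateLN

set_option autoImplicit false
set_option linter.unusedSectionVars false
set_option maxHeartbeats 2000000

/-!
# Project RGL: test functions of bounded degree at every height, for a general L-function
-/

open Complex Filter Topology Set MeasureTheory Metric
open scoped ComplexConjugate

namespace Pool.Agent.Q97.RL

open Pool.Agent
open Pool.Agent.Y23 (TT N2 Fa kap kap_bound Fa_kap TT_mul_exp TT_smul TT_kap_sq differentiable_TT)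
open Pool.Agent.Y23.G
open Pool.Agent.Q77.XG (X_decay wt4)

/-- the kernel does not vanish on the real line -/
lemma kap_real2 {η : ℝ} (hη : 0 < η) : ∃ c : ℝ, 0 < c ∧ ∀ x : ℝ, |x| ≤ 2 → c ≤ ‖TT (kap η) x‖ := by
  have hne : ∀ x : ℝ, TT (kap η) x ≠ 0 := by
    intro x
    by_cases hx : x = 0
    · rw [hx, Complex.ofReal_zero]; exact TT_kap_zero hη
    · intro h0
      have h1 := TT_kap_sq hη (x : ℂ)
      rw [h0, mul_zero] at h1
      have hη' : (η : ℂ) ≠ 0 := by exact_mod_cast hη.ne'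
      have h2 : cexp (2 * η * x) + cexp (-(2 * η * x)) - cexp (η * x) - cexp (-(η * x)) = 0 :=
        (div_eq_zero_iff.1 h1.symm).resolve_right hη'
      have h3 : Real.exp (2 * η * x) + Real.exp (-(2 * η * x)) - Real.exp (η * x) - Real.exp (-(η * x)) = 0 := by
        exact_mod_cast h2
      have h4 : Real.cosh (2 * η * x) ≤ Real.cosh (η * x) := by
        rw [Real.cosh_eq, Real.cosh_eq]
        linarith
      rw [Real.cosh_le_cosh] at h4
      have h5 : |2 * η * x| = 2 * |η * x| := by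
        rw [mul_assoc, abs_mul, abs_two]
      rw [h5] at h4
      have h6 : 0 < |η * x| := abs_pos.2 (mul_ne_zero hη.ne' hx)
      linarith
  have hc : Continuous (fun x : ℝ => ‖TT (kap η) x‖) :=
    ((differentiable_TT (Fa_kap hη)).continuous.comp Complex.continuous_ofReal).norm
  obtain ⟨x0, _, hx0⟩ := (isCompact_Icc (a := (-2 : ℝ)) (b := 2)).exists_isMinOn ⟨0, by norm_num⟩ hc.continuousOn
  refine ⟨‖TT (kap η) x0‖, norm_pos_iff.2 (hne x0), fun x hx => ?_⟩
  exact hx0 (abs_le.1 hx)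

variable [L : LFun]

lemma exp_abs_log {D : ℝ} (hD : 0 < D) {a : ℝ} (ha : 1 ≤ a) : D ≤ Real.exp (|Real.log D| * a) := by
  rw [← Real.log_le_iff_le_exp hD]
  exact (le_abs_self _).trans (le_mul_of_one_le_right (abs_nonneg _) ha)

/-- the degree is at least `ω a exp (2 b / m)` -/
def big2 (ω a b : ℝ) (ν : ℕ∞) : Prop := ((⌈ω * a * Real.exp (2 * b / L.m)⌉₊ : ℕ) : ℕ∞) ≤ ν

/-- test functions of bounded degree at every height -/
theorem tdL {c2 θ : ℝ} (hθ : 0 ≤ θ) (hc2 : c2 < cc (L := L)) : ∃ q q0 M A ω : ℝ, 1 ≤ q ∧ 0 < q0 ∧ 0 ≤ M ∧ 1 ≤ A ∧ ∀ (a b : ℝ) (ν : ℕ∞), A ≤ b →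
    b ≤ a → big2 (L := L) ω a b ν → ∀ γ : ℝ, |γ| ≤ θ * Real.exp (2 * b / L.m) → ∃ (g : ℝ → ℂ) (Q R : ℂ → ℂ), F.Hn a ν g ∧ Differentiable ℂ Q ∧
      Differentiable ℂ R ∧ (∀ w, TT g w = Q w * L.X (1 / 2 + w) - R w) ∧
      (∀ w : ℂ, |w.re| ≤ 3 → ‖R w‖ ≤ Real.exp (M * a - c2 * Real.exp (2 * b / L.m)) / (1 + |w.im|)) ∧
      (∀ w : ℂ, |w.re| ≤ 2 → w.im = γ → q0 ≤ ‖Q w‖) ∧ (∀ w : ℂ, |w.re| ≤ 3 → |w.im - γ| ≤ 1 → ‖Q w‖ ≤ q * q0) := by
  have hcc := cc_pos (L := L)
  have hm1 := m_one (L := L)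
  have hm0 : (0 : ℝ) < L.m := by linarith
  have hpi := Real.pi_gt_three
  obtain ⟨η, hη, hcη⟩ := exists_eta' (L := L) hc2
  have hη4 : 0 < η / 4 := by positivity
  obtain ⟨A, hA, hXb⟩ := X_all (L := L)
  obtain ⟨CX, hCX, hdecay⟩ := X_decay (L := L)
  obtain ⟨B, C, hB, hC, hcut⟩ := cut (L := L) hA one_pos (H := fun w => L.X (1 / 2 + w)) ((Xd (L := L)).comp (by fun_prop))
    (fun w => by rw [one_mul]; exact hXb w) (R := 3) (by norm_num)
  obtain ⟨Ck, hCk, hkb⟩ := kap_boundR hη4 (r := 3)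
  obtain ⟨c1, hc1, hk1⟩ := kap_real2 hη4
  obtain ⟨C0, hC0, hproj⟩ := F.proj
  obtain ⟨A1, hA1, hlim⟩ := tau_lim (L := L) (B := B) (C := 1) (c := c2) (η := η) hB one_pos hcη
  have hlog3 : 0 ≤ Real.log (3 + θ) := Real.log_nonneg (by linarith)
  set D : ℝ := 4 * Ck ^ 2 * (C + C0 * (CX + C)) with hD
  have hD0 : 0 < D := by positivity
  set M : ℝ := 4 * (Real.log (3 + θ) + 2) + |Real.log D| + 5 with hM
  have hM0 : 0 ≤ M := by positivity
  refine ⟨max 1 (Ck ^ 2 / c1 ^ 2), c1 ^ 2, M, max A1 (η + 1), 2 * cc, le_max_left _ _, by positivity, hM0, le_max_of_le_left hA1,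
    fun a b ν hb hba hν γ hγ => ?_⟩
  have hbA1 : A1 ≤ b := le_of_max_le_left hb
  have hbη : η + 1 ≤ b := le_of_max_le_right hb
  have hb1 : 1 ≤ b := by linarith
  have hb0 : 0 < b := by linarith
  have ha1 : 1 ≤ a := by linarith
  have ha0 : 0 < a := by linarith
  obtain ⟨f, hf, hfb⟩ := hcut (b - η) (by linarith)
  set E : ℝ := Real.exp (2 * b / L.m) with hEd
  have hE0 : 0 < E := Real.exp_pos _
  have hE1 : 1 ≤ E := Real.one_le_exp (by positivity)
  set τ := Real.exp (B * (1 + b) - cc * Real.exp (2 * (b - η) / L.m)) with hτ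
  have hτ0 : 0 < τ := Real.exp_pos _
  have hτc : τ ≤ Real.exp (-(c2 * E)) := by
    have := hlim b hbA1
    rwa [one_mul] at this
  have hτE : Real.exp (-(cc * E)) ≤ τ := by
    apply Real.exp_le_exp.2
    have h1 : Real.exp (2 * (b - η) / L.m) ≤ E := by
      apply Real.exp_le_exp.2
      refine div_le_div_of_nonneg_right (by linarith) (by linarith)
    have h2 := mul_le_mul_of_nonneg_left h1 hcc.le
    have h3 : 0 ≤ B * (1 + b) := by positivity
    linarith
  have hfb' : ∀ w : ℂ, |w.re| ≤ 3 → ‖TT f w - L.X (1 / 2 + w)‖ ≤ C * τ := by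
    intro w hw
    refine (hfb w hw).trans (mul_le_mul_of_nonneg_left (Real.exp_le_exp.2 ?_) hC.le)
    nlinarith
  -- the kernel
  set w1 : ℂ := γ * I with hw1
  have hw1re : w1.re = 0 := by rw [hw1]; simp
  have hw1im : w1.im = γ := by rw [hw1]; simp
  set κ : ℝ → ℂ := fun x => kap (η / 4) x * cexp (-w1 * x) with hκ
  have hκF : Fa (η / 2) κ := by
    have := (Fa_kap hη4).mul_bdd (g := fun x : ℝ => cexp (-w1 * x)) (by fun_prop)
    rwa [show 2 * (η / 4) = η / 2 by ring] at this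
  have hκT : ∀ w, TT κ w = TT (kap (η / 4)) (-w1 + w) := fun w => TT_mul_exp _ _ _
  have hκb : ∀ x, ‖κ x‖ ≤ 3 := by
    intro x
    simp only [hκ]
    rw [norm_mul, Complex.norm_exp]
    have : (-w1 * (x : ℂ)).re = 0 := by
      rw [Complex.re_mul_ofReal, Complex.neg_re, hw1re]; ring
    rw [this, Real.exp_zero, mul_one]
    exact kap_bdd hη4 x
  obtain ⟨g0, hg0, hgT0⟩ := conv_TT hf hκF hκb
  obtain ⟨g, hg, hgT1⟩ := conv_TT hg0 hκF hκb
  rw [show b - η + η / 2 + η / 2 = b by ring] at hg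
  have hκd : Differentiable ℂ (TT κ) := differentiable_TT hκF
  have hfd : Differentiable ℂ (TT f) := differentiable_TT hf
  have hYd : Differentiable ℂ (fun w => L.X (1 / 2 + w)) := (Xd (L := L)).comp (by fun_prop)
  set Q : ℂ → ℂ := fun w => TT κ w ^ 2 with hQ
  have hQd : Differentiable ℂ Q := hκd.pow 2
  have hgT : ∀ w, TT g w = Q w * TT f w := fun w => by rw [hgT1, hgT0]; simp only [hQ]; ring
  have hκ2 : ∀ w : ℂ, |w.re| ≤ 3 → ‖TT κ w‖ ≤ Ck / (1 + (w.im - γ) ^ 2) := by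
    intro w hw
    rw [hκT]
    have h3 := hkb (-w1 + w) (by rw [Complex.add_re, Complex.neg_re, hw1re, neg_zero, zero_add]; exact hw)
    have h4 : (-w1 + w).im = w.im - γ := by
      rw [Complex.add_im, Complex.neg_im, hw1im]; ring
    rwa [h4] at h3
  set Γ0 : ℝ := 4 * (1 + |γ|) ^ 4 * Ck ^ 2 with hΓ0
  have hΓ00 : 0 < Γ0 := by positivity
  have hQn : ∀ w : ℂ, |w.re| ≤ 3 → ‖Q w‖ ≤ Γ0 / (1 + |w.im|) ^ 4 := by
    intro w hw
    simp only [hQ]
    rw [norm_pow]
    exact wt4 (hκ2 w hw) (norm_nonneg _)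
  have hQn2 : ∀ w : ℂ, |w.re| ≤ 3 → ‖Q w‖ ≤ Ck ^ 2 := by
    intro w hw
    simp only [hQ]
    rw [norm_pow]
    refine pow_le_pow_left₀ (norm_nonneg _) ((hκ2 w hw).trans ?_) 2
    exact div_le_self hCk.le (by nlinarith [sq_nonneg (w.im - γ)])
  have hone : ∀ y : ℝ, 1 ≤ 1 + |y| := fun y => by linarith [abs_nonneg y]
  -- the decay on the line
  have hline : ∀ v : ℝ, ‖TT f (v * I)‖ ≤ CX * Real.exp (-(1 / 4 * |v|)) + C * τ := by
    intro v
    have h1 := hdecay (v * I) (by simp)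
    have h2 := hfb' (v * I) (by simp)
    have e1 : ((v : ℂ) * I).im = v := by simp
    rw [e1] at h1
    calc ‖TT f (v * I)‖ = ‖L.X (1 / 2 + v * I) + (TT f (v * I) - L.X (1 / 2 + v * I))‖ := by congr 1; ring
      _ ≤ _ := (norm_add_le _ _).trans (add_le_add h1 h2)
  have hgd : Hd a g := by
    refine F.Hd_of_bound (hg.mono hba) (C := (CX + C * τ) * Γ0) (c := 0) fun v => ?_
    have h1 := hQn (v * I) (by simp)
    have h2 := hline v
    have e1 : ((v : ℂ) * I).im = v := by simp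
    rw [e1] at h1
    rw [sub_zero]
    have h3 : CX * Real.exp (-(1 / 4 * |v|)) ≤ CX := by
      refine mul_le_of_le_one_right hCX.le ?_
      rw [Real.exp_le_one_iff]
      linarith [abs_nonneg v]
    have h5 : (1 + |v|) * (Γ0 / (1 + |v|) ^ 4) ≤ Γ0 := by
      rw [mul_div_assoc', div_le_iff₀ (by positivity), mul_comm]
      refine mul_le_mul_of_nonneg_left ?_ hΓ00.le
      exact le_self_pow₀ (hone v) (by norm_num)
    rw [hgT, norm_mul]
    calc (1 + |v|) * (‖Q (v * I)‖ * ‖TT f (v * I)‖) ≤ (1 + |v|) * ((Γ0 / (1 + |v|) ^ 4) * ‖TT f (v * I)‖) := by gcongr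
      _ = ‖TT f (v * I)‖ * ((1 + |v|) * (Γ0 / (1 + |v|) ^ 4)) := by ring
      _ ≤ (CX + C * τ) * Γ0 := mul_le_mul (by linarith) h5 (by positivity) (by positivity)
  -- the nodes
  set τp : ℝ := (CX + C) * Γ0 * τ with hτp
  have hτp0 : 0 ≤ τp := by positivity
  have hnodes : ∀ k : ℤ, ν < (k.natAbs : ℕ∞) → ‖TT g (F.nd a k)‖ ≤ τp / (1 + |(F.nd a k).im|) ^ 3 := by
    intro k hk
    have h1 : 2 * cc * a * E ≤ (k.natAbs : ℝ) := by
      have h2 : ((⌈2 * cc * a * E⌉₊ : ℕ) : ℕ∞) < ((k.natAbs : ℕ) : ℕ∞) := lt_of_le_of_lt hν hk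
      have h3 : ⌈2 * cc * a * E⌉₊ < k.natAbs := by exact_mod_cast h2
      exact (Nat.le_ceil _).trans (by exact_mod_cast h3.le)
    have h2 : 2 * Real.pi * cc * E ≤ |(F.nd a k).im| := by
      rw [F.nd_im, abs_div, abs_mul, abs_of_pos ha0, abs_of_pos (by linarith : (0 : ℝ) < Real.pi), le_div_iff₀ ha0]
      rw [Nat.cast_natAbs, Int.cast_abs] at h1
      have := mul_le_mul_of_nonneg_left h1 (by linarith : (0 : ℝ) ≤ Real.pi)
      linarith
    set V : ℝ := (F.nd a k).im with hV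
    have hnd : F.nd a k = (V : ℂ) * I := by
      apply Complex.ext
      · rw [F.nd_re]; simp
      · rw [hV]; simp
    rw [hnd, hgT, norm_mul]
    have e1 : ((V : ℂ) * I).im = V := by simp
    have h3 := hQn (V * I) (by simp)
    rw [e1] at h3
    have h4 : ‖TT f (V * I)‖ ≤ (CX + C) * τ := by
      refine (hline V).trans ?_
      have h5 : CX * Real.exp (-(1 / 4 * |V|)) ≤ CX * τ := by
        refine mul_le_mul_of_nonneg_left (le_trans (Real.exp_le_exp.2 ?_) hτE) hCX.le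
        have h5 : 0 < cc * E := by positivity
        nlinarith
      linarith
    have h6 : Γ0 / (1 + |V|) ^ 4 ≤ Γ0 / (1 + |V|) ^ 3 := by
      refine div_le_div_of_nonneg_left hΓ00.le (by positivity) ?_
      exact pow_le_pow_right₀ (hone _) (by norm_num)
    calc ‖Q (V * I)‖ * ‖TT f (V * I)‖ ≤ (Γ0 / (1 + |V|) ^ 3) * ((CX + C) * τ) :=
          mul_le_mul (h3.trans h6) h4 (norm_nonneg _) (by positivity)
      _ = _ := by rw [hτp]; ring
  obtain ⟨g', hg', hgg, -⟩ := hproj a ν g τp ha1 hτp0 hgd hnodes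
  have hg'd : Differentiable ℂ (TT g') := differentiable_TT hg'.hd.1
  have hexpΛ : (1 + |γ|) ^ 4 ≤ Real.exp (4 * (Real.log (3 + θ) + 2) * a) := by
    have h1 : 3 + |γ| ≤ (3 + θ) * E := num8 hE1 hγ
    have h2 := Real.log_le_log (by positivity) h1
    rw [Real.log_mul (by positivity) (by positivity), hEd, Real.log_exp] at h2
    have h3 : 2 * b / (L.m : ℝ) ≤ 2 * a := (div_le_self (by positivity) hm1).trans (by linarith)
    have h4 := h2.trans (num9 ha1 hlog3 h3)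
    rw [Real.log_le_iff_le_exp (by positivity)] at h4
    have h5 : 1 + |γ| ≤ Real.exp ((Real.log (3 + θ) + 2) * a) := by linarith
    calc (1 + |γ|) ^ 4 ≤ Real.exp ((Real.log (3 + θ) + 2) * a) ^ 4 := pow_le_pow_left₀ (by positivity) h5 4
      _ = _ := by rw [← Real.exp_nat_mul]; congr 1; push_cast; ring
  refine ⟨g', Q, fun w => Q w * (L.X (1 / 2 + w) - TT f w) + (TT g w - TT g' w), hg', hQd,
    (hQd.mul (hYd.sub hfd)).add ((differentiable_TT hgd.1).sub hg'd), fun w => ?_, fun w hw => ?_, fun w hw hwγ => ?_, fun w hw _ => ?_⟩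
  · simp only
    rw [hgT]
    ring
  · have h1 : ‖Q w * (L.X (1 / 2 + w) - TT f w)‖ ≤ Γ0 * (C * τ) / (1 + |w.im|) := by
      rw [norm_mul, norm_sub_rev]
      have h2 : Γ0 / (1 + |w.im|) ^ 4 ≤ Γ0 / (1 + |w.im|) :=
        div_le_div_of_nonneg_left hΓ00.le (by positivity) (le_self_pow₀ (hone _) (by norm_num))
      calc ‖Q w‖ * ‖TT f w - L.X (1 / 2 + w)‖ ≤ (Γ0 / (1 + |w.im|)) * (C * τ) :=
            mul_le_mul ((hQn w hw).trans h2) (hfb' w hw) (norm_nonneg _) (by positivity)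
        _ = _ := by ring
    have h2 := hgg w
    refine (norm_add_le _ _).trans ((add_le_add h1 h2).trans ?_)
    rw [← add_div]
    refine div_le_div_of_nonneg_right ?_ (by positivity)
    have h3 : Real.exp (a * |w.re|) ≤ Real.exp (3 * a) := Real.exp_le_exp.2 (by nlinarith)
    have h4 : a ^ 2 ≤ Real.exp (2 * a) := by
      have h5 : a ≤ Real.exp a := by linarith [Real.add_one_le_exp a]
      calc a ^ 2 ≤ Real.exp a ^ 2 := pow_le_pow_left₀ ha0.le h5 2
        _ = _ := by rw [← Real.exp_nat_mul]; norm_num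
    have h5 : a ^ 2 * Real.exp (a * |w.re|) ≤ Real.exp (5 * a) := by
      calc a ^ 2 * Real.exp (a * |w.re|) ≤ Real.exp (2 * a) * Real.exp (3 * a) := mul_le_mul h4 h3 (Real.exp_pos _).le (Real.exp_pos _).le
        _ = _ := by rw [← Real.exp_add]; congr 1; ring
    have h6 : 1 ≤ Real.exp (5 * a) := Real.one_le_exp (by positivity)
    have h7 : Γ0 * (C * τ) + C0 * a ^ 2 * τp * Real.exp (a * |w.re|) ≤ (1 + |γ|) ^ 4 * D * Real.exp (5 * a) * τ := by
      have e1 : C0 * a ^ 2 * τp * Real.exp (a * |w.re|) = C0 * (CX + C) * Γ0 * τ * (a ^ 2 * Real.exp (a * |w.re|)) := by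
        rw [hτp]; ring
      have e2 : C0 * (CX + C) * Γ0 * τ * (a ^ 2 * Real.exp (a * |w.re|)) ≤ C0 * (CX + C) * Γ0 * τ * Real.exp (5 * a) :=
        mul_le_mul_of_nonneg_left h5 (by positivity)
      have e3 : Γ0 * (C * τ) ≤ Γ0 * (C * τ) * Real.exp (5 * a) := le_mul_of_one_le_right (by positivity) h6
      rw [e1]
      refine (add_le_add e3 e2).trans (le_of_eq ?_)
      rw [hD, hΓ0]
      ring
    refine h7.trans ?_
    calc (1 + |γ|) ^ 4 * D * Real.exp (5 * a) * τ ≤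
          Real.exp (4 * (Real.log (3 + θ) + 2) * a) * Real.exp (|Real.log D| * a) * Real.exp (5 * a) * Real.exp (-(c2 * E)) := by
            gcongr
            exact exp_abs_log hD0 ha1
      _ = _ := by
          rw [← Real.exp_add, ← Real.exp_add, ← Real.exp_add]
          congr 1
          rw [hM]
          ring
  · have e : -w1 + w = ((w.re : ℝ) : ℂ) := by
      apply Complex.ext
      · rw [Complex.add_re, Complex.neg_re, hw1re, Complex.ofReal_re]; ring
      · rw [Complex.add_im, Complex.neg_im, hw1im, Complex.ofReal_im, hwγ]; ring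
    simp only [hQ]
    rw [norm_pow, hκT, e]
    exact pow_le_pow_left₀ hc1.le (hk1 _ hw) 2
  · refine (hQn2 w hw).trans ?_
    calc Ck ^ 2 = Ck ^ 2 / c1 ^ 2 * c1 ^ 2 := by field_simp
      _ ≤ _ := mul_le_mul_of_nonneg_right (le_max_right _ _) (by positivity)

end Pool.Agent.Q97.RL
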