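import Pool.Agent.Q97.RL.R5

set_option autoImplicit false
set_option linter.unusedSectionVars false

/-!
# Project RGL: short intervals at all heights up to a multiple of `exp (2 a / m)` (as `Q97/RI/H5.lean`)
-/

open Complex Filter Topology Set MeasureTheory Metric
open scoped ComplexConjugate

namespace Pool.Agent.Q97.RL

open Pool.Agent
open Pool.Agent.Y23 (TT N2 Fa)
open Pool.Agent.Y23.G

variable [L : LFun]

/-- the property of the test functions which is needed: `c2` is the rate of the remainder, `U` the rate of the size of the main term -/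
def TD (c2 U θ ω : ℝ) : Prop := ∃ q M A : ℝ, 1 ≤ q ∧ 0 ≤ M ∧ 1 ≤ A ∧ ∀ (a b : ℝ) (ν : ℕ∞), A ≤ b → b ≤ a →
    big2 (L := L) ω a b ν → ∀ γ : ℝ, |γ| ≤ θ * Real.exp (2 * b / L.m) → ∃ (g : ℝ → ℂ) (Q R : ℂ → ℂ) (q0 : ℝ), 0 < q0 ∧ F.Hn a ν g ∧ Differentiable ℂ Q ∧
      Differentiable ℂ R ∧ (∀ w, TT g w = Q w * L.X (1 / 2 + w) - R w) ∧
      (∀ w : ℂ, |w.re| ≤ 3 → ‖R w‖ ≤ Real.exp (M * a - c2 * Real.exp (2 * b / L.m)) / (1 + |w.im|)) ∧
      (∀ w : ℂ, |w.re| ≤ 2 → w.im = γ → q0 ≤ ‖Q w‖) ∧ (∀ w : ℂ, |w.re| ≤ 3 → |w.im - γ| ≤ 1 → ‖Q w‖ ≤ q * q0) ∧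
      Real.exp (-(U * Real.exp (2 * b / L.m)) - M * a) ≤ q0 * ‖L.X (ctr γ)‖

/-- the unrotated kernel -/
lemma td_unrot {c2 θ : ℝ} (hθ : 0 ≤ θ) (hc2 : c2 < cc (L := L)) : ∃ ω : ℝ, TD (L := L) c2 (Real.pi * L.m / 4 * θ) θ ω := by
  obtain ⟨q, q0, M, A, ω, hq, hq0, hM, hA, H⟩ := tdL (L := L) hθ hc2
  obtain ⟨C, hC, hlow⟩ := ctr_low (L := L)
  have hm1 := m_one (L := L)
  refine ⟨ω, q, max M (C + |Real.log q0|), A, hq, le_max_of_le_left hM, hA, fun a b ν hb hba hν γ hγ => ?_⟩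
  have ha1 : 1 ≤ a := (hA.trans hb).trans hba
  obtain ⟨g, Q, R, h1, h2, h3, h4, h5, h6, h7⟩ := H a b ν hb hba hν γ hγ
  refine ⟨g, Q, R, q0, hq0, h1, h2, h3, h4, fun w hw => (h5 w hw).trans ?_, h6, h7, ?_⟩
  · refine div_le_div_of_nonneg_right (Real.exp_le_exp.2 ?_) (by positivity)
    have := mul_le_mul_of_nonneg_right (le_max_left M (C + |Real.log q0|)) (by linarith : (0 : ℝ) ≤ a)
    linarith
  · set E : ℝ := Real.exp (2 * b / L.m) with hE
    have e1 : Real.exp (-|Real.log q0|) ≤ q0 := by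
      calc Real.exp (-|Real.log q0|) ≤ Real.exp (Real.log q0) := Real.exp_le_exp.2 (neg_abs_le _)
        _ = q0 := Real.exp_log hq0
    have e2 : Real.exp (-(Real.pi * L.m / 4 * θ * E) - C) ≤ ‖L.X (ctr γ)‖ := by
      refine le_trans (Real.exp_le_exp.2 ?_) (hlow γ)
      have h8 : 0 ≤ Real.pi * L.m / 4 := by positivity
      have := mul_le_mul_of_nonneg_left hγ h8
      linarith
    calc Real.exp (-(Real.pi * L.m / 4 * θ * E) - max M (C + |Real.log q0|) * a)
        ≤ Real.exp (-|Real.log q0| + (-(Real.pi * L.m / 4 * θ * E) - C)) := by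
          refine Real.exp_le_exp.2 ?_
          have h9 : C + |Real.log q0| ≤ max M (C + |Real.log q0|) * a := by
            refine (le_max_right M _).trans (le_mul_of_one_le_right ?_ ha1)
            exact le_max_of_le_left hM
          linarith
      _ = Real.exp (-|Real.log q0|) * Real.exp (-(Real.pi * L.m / 4 * θ * E) - C) := Real.exp_add _ _
      _ ≤ _ := mul_le_mul e1 e2 (Real.exp_pos _).le hq0.le

lemma ev_dom (T0 T1 : ℝ) {ε : ℝ} (hε : 0 < ε) : ∃ A : ℝ, 1 ≤ A ∧ ∀ a : ℝ, A ≤ a → T0 + T1 * a ≤ ε * Real.exp (2 * a / L.m) := by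
  obtain ⟨A, hA, h⟩ := exp_dom (L := L) ε (|T0| + |T1|) hε
  refine ⟨A, hA, fun a ha => le_trans ?_ (h a ha)⟩
  have h1 : 1 ≤ a := hA.trans ha
  have h3 : a ≤ a ^ 3 := le_self_pow₀ h1 (by norm_num)
  have h4 : 1 ≤ a ^ 3 := one_le_pow₀ h1
  have e1 : T0 ≤ |T0| * a ^ 3 := (le_abs_self _).trans (le_mul_of_one_le_right (abs_nonneg _) h4)
  have e2 : T1 * a ≤ |T1| * a ^ 3 := (mul_le_mul_of_nonneg_right (le_abs_self _) (by linarith)).trans (mul_le_mul_of_nonneg_left h3 (abs_nonneg _))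
  calc T0 + T1 * a ≤ |T0| * a ^ 3 + |T1| * a ^ 3 := add_le_add e1 e2
    _ = _ := by ring

omit L in
lemma Q_low {Q : ℂ → ℂ} (hQ : Differentiable ℂ Q) {q q0 γ : ℝ} (hq : 1 ≤ q) (hq0 : 0 < q0)
    (h1 : ∀ w : ℂ, |w.re| ≤ 2 → w.im = γ → q0 ≤ ‖Q w‖) (h2 : ∀ w : ℂ, |w.re| ≤ 3 → |w.im - γ| ≤ 1 → ‖Q w‖ ≤ q * q0)
    {w : ℂ} (hw : |w.re| ≤ 3 / 2) (hw2 : |w.im - γ| ≤ 1 / (4 * q)) : q0 / 2 ≤ ‖Q w‖ := by
  set w' : ℂ := ⟨w.re, γ⟩ with hw'
  have hd : ∀ z ∈ ball w' (1 / 2), ‖deriv Q z‖ ≤ 2 * (q * q0) := by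
    intro z hz
    rw [mem_ball, dist_eq_norm] at hz
    have := Complex.norm_deriv_le_of_forall_mem_sphere_norm_le (c := z) (R := 1 / 2) (C := q * q0) (by norm_num) hQ.diffContOnCl fun y hy => ?_
    · calc ‖deriv Q z‖ ≤ q * q0 / (1 / 2) := this
        _ = _ := by ring
    · rw [mem_sphere, dist_eq_norm] at hy
      have h3 : ‖y - w'‖ ≤ 1 := by
        calc ‖y - w'‖ = ‖(y - z) + (z - w')‖ := by congr 1; ring
          _ ≤ ‖y - z‖ + ‖z - w'‖ := norm_add_le _ _
          _ ≤ 1 := by rw [hy]; linarith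
      have h4 := (Complex.abs_re_le_norm _).trans h3
      have h5 := (Complex.abs_im_le_norm _).trans h3
      rw [Complex.sub_re] at h4
      rw [Complex.sub_im] at h5
      refine h2 y ?_ h5
      have e : w'.re = w.re := rfl
      rw [e] at h4
      rw [abs_le] at h4 hw ⊢
      constructor <;> linarith [h4.1, h4.2, hw.1, hw.2]
  have hww : ‖w - w'‖ ≤ 1 / (4 * q) := by
    have e : w - w' = ((w.im - γ : ℝ) : ℂ) * I := by
      apply Complex.ext <;> simp [hw']
    rw [e, norm_mul, norm_I, mul_one, Complex.norm_real, Real.norm_eq_abs]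
    exact hw2
  have hq4 : 1 / (4 * q) ≤ 1 / 4 := by
    rw [div_le_div_iff₀ (by positivity) (by norm_num)]
    linarith
  have h3 := (convex_ball w' (1 / 2)).norm_image_sub_le_of_norm_deriv_le (f := Q) (C := 2 * (q * q0)) (fun z _ => hQ z) hd
    (mem_ball_self (by norm_num)) (y := w) (by rw [mem_ball, dist_eq_norm]; linarith)
  have h4 : 2 * (q * q0) * ‖w - w'‖ ≤ q0 / 2 := by
    calc 2 * (q * q0) * ‖w - w'‖ ≤ 2 * (q * q0) * (1 / (4 * q)) := mul_le_mul_of_nonneg_left hww (by positivity)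
      _ = q0 / 2 := by field_simp; norm_num
  have h5 := h1 w' (hw.trans (by norm_num)) rfl
  have h6 : ‖Q w'‖ ≤ ‖Q w‖ + ‖Q w - Q w'‖ := by
    calc ‖Q w'‖ = ‖Q w - (Q w - Q w')‖ := by congr 1; ring
      _ ≤ _ := norm_sub_le _ _
  linarith

/-- points of small height are admissible -/
lemma ad_big {a b ω θ : ℝ} {ν : ℕ∞} (ha : 0 < a) (hω : θ ≤ Real.pi * ω) (hν : big2 (L := L) ω a b ν) {z : ℂ} (hz : |z.im| ≤ θ * Real.exp (2 * b / L.m)) :
    F.ad a ν z := by
  intro k hk h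
  have h1 := congrArg Complex.im h
  rw [F.nd_im] at h1
  have h4 : ((⌈ω * a * Real.exp (2 * b / L.m)⌉₊ : ℕ) : ℕ∞) < ((k.natAbs : ℕ) : ℕ∞) := lt_of_le_of_lt hν hk
  have h5 : ⌈ω * a * Real.exp (2 * b / L.m)⌉₊ < k.natAbs := by exact_mod_cast h4
  have h6 : ω * a * Real.exp (2 * b / L.m) < |(k : ℝ)| := by
    refine lt_of_le_of_lt (Nat.le_ceil _) ?_
    rw [← Int.cast_abs, ← Nat.cast_natAbs]
    exact_mod_cast h5
  have h7 : |z.im| = Real.pi * |(k : ℝ)| / a := by
    rw [h1, abs_div, abs_mul, abs_of_pos Real.pi_pos, abs_of_pos ha]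
  have h8 : Real.pi * (ω * a * Real.exp (2 * b / L.m)) < |z.im| * a := by
    rw [h7, div_mul_cancel₀ _ ha.ne']
    exact mul_lt_mul_of_pos_left h6 Real.pi_pos
  have h9 : |z.im| * a ≤ θ * Real.exp (2 * b / L.m) * a := mul_le_mul_of_nonneg_right hz ha.le
  have h10 : θ * Real.exp (2 * b / L.m) * a ≤ Real.pi * (ω * a * Real.exp (2 * b / L.m)) := by
    have : 0 ≤ Real.exp (2 * b / L.m) * a := by positivity
    calc θ * Real.exp (2 * b / L.m) * a = θ * (Real.exp (2 * b / L.m) * a) := by ring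
      _ ≤ (Real.pi * ω) * (Real.exp (2 * b / L.m) * a) := mul_le_mul_of_nonneg_right hω this
      _ = _ := by ring
  linarith

lemma big2_mono {ω ω' a b : ℝ} {ν : ℕ∞} (ha : 0 ≤ a) (h : ω ≤ ω') (hν : big2 (L := L) ω' a b ν) : big2 (L := L) ω a b ν := by
  unfold big2 at *
  refine le_trans ?_ hν
  have h1 : ω * a * Real.exp (2 * b / L.m) ≤ ω' * a * Real.exp (2 * b / L.m) := by gcongr
  exact_mod_cast Nat.ceil_mono h1

/-- **short intervals** -/
theorem short {c2 U θ ω ω' c : ℝ} (hTD : TD (L := L) c2 U θ ω) (hω : ω ≤ ω') (hθω : θ ≤ Real.pi * ω') (hθ0 : 0 < θ) (hc0 : 0 < c) (hc : c < c2 - U) :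
    ∃ κ r A η : ℝ, 0 < κ ∧ 0 < r ∧ r ≤ 1 / 4 ∧ 1 ≤ A ∧ 0 < η ∧ ∀ (a b : ℝ) (ν : ℕ∞), A ≤ b → b ≤ a → a ≤ η * Real.exp (2 * b / L.m) →
      big2 (L := L) ω' a b ν →
      ∀ (α β : ℝ) (μ : Measure ℝ), 0 ≤ α → 0 < β → Rp a ν α β μ → ∀ s t : ℝ, |s| ≤ θ * Real.exp (2 * b / L.m) →
        |t| ≤ θ * Real.exp (2 * b / L.m) → s < t → t - s ≤ r →
        (∀ ρ : Zt, Real.exp (-(κ * Real.exp (2 * b / L.m) / b)) ≤ |s - (ρ : ℂ).im| ∧ Real.exp (-(κ * Real.exp (2 * b / L.m) / b)) ≤ |t - (ρ : ℂ).im|) →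
          μ (Icc s t) ≠ ⊤ ∧ μ.real (Icc s t) ≤ β * (Nz s t + Real.exp (-(c * Real.exp (2 * b / L.m)))) ∧
            α * Nz s t - β * Real.exp (-(c * Real.exp (2 * b / L.m))) ≤ μ.real (Ioo s t) := by
  have hpi := Real.pi_pos
  have hm1 := m_one (L := L)
  have hm0 : (0 : ℝ) < L.m := by linarith
  set gp : ℝ := c2 - U - c with hgp
  have hgp0 : 0 < gp := by rw [hgp]; linarith
  have hUC : c2 - U = c + gp := by rw [hgp]; ring
  obtain ⟨q, M, A1, hq, hM, hA1, htest⟩ := hTD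
  obtain ⟨K, hK, hmin⟩ := minmod (L := L)
  have hlog3 : 0 ≤ Real.log (3 + θ) := Real.log_nonneg (by linarith)
  set M1 : ℝ := Real.log (3 + θ) + 2 with hM1
  have hM10 : 0 < M1 := by linarith
  have hKM : 0 < K * M1 := by positivity
  set κ : ℝ := gp / (8 * (K * M1 + 1)) with hκ
  have hκ0 : 0 < κ := by positivity
  have hκe : (K * M1 + 1) * κ = gp / 8 := by rw [hκ]; field_simp
  have hCZ := CZ_nonneg
  set D : ℝ := (11 + 28 * θ ^ 2) * CZ + 8 with hD
  have hD8 : 8 ≤ D := by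
    have : 0 ≤ (11 + 28 * θ ^ 2) * CZ := by positivity
    linarith
  set M3 : ℝ := 2 * M + 2 * (K * M1) with hM3
  have hM30 : 0 ≤ M3 := by positivity
  obtain ⟨A2, hA2, hd2⟩ := ev_dom (L := L) (Real.log (32 * D)) 0 (ε := gp / 8) (by positivity)
  obtain ⟨A3, hA3, hd3⟩ := ev_dom (L := L) (Real.log 4) 0 (ε := gp / 8) (by positivity)
  obtain ⟨A4, hA4, hd4⟩ := ev_dom (L := L) 0 (Real.log (32 * q)) hκ0
  refine ⟨κ, 1 / (4 * q), max A1 (max A2 (max A3 A4)), gp / (8 * (M3 + 4)), hκ0, by positivity, ?_, le_max_of_le_left hA1, by positivity,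
    fun a b ν ha hba hηa hν α β μ hα hβ hμ s t hs ht hst hr hfar => ?_⟩
  · rw [div_le_div_iff₀ (by positivity) (by norm_num)]
    linarith
  have haA1 : A1 ≤ b := (le_max_left _ _).trans ha
  have haA2 : A2 ≤ b := (le_max_left _ _).trans ((le_max_right _ _).trans ha)
  have haA3 : A3 ≤ b := (le_max_left _ _).trans ((le_max_right _ _).trans ((le_max_right _ _).trans ha))
  have haA4 : A4 ≤ b := (le_max_right _ _).trans ((le_max_right _ _).trans ((le_max_right _ _).trans ha))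
  have hb1 : 1 ≤ b := hA1.trans haA1
  have hb0 : 0 < b := by linarith
  have ha1 : 1 ≤ a := hb1.trans hba
  have ha0 : 0 < a := by linarith
  set E : ℝ := Real.exp (2 * b / L.m) with hE
  have hE1 : 1 ≤ E := Real.one_le_exp (by positivity)
  have hE0 : 0 < E := by linarith
  have hηa' : (M3 + 4) * a ≤ gp / 8 * E := by
    calc (M3 + 4) * a ≤ (M3 + 4) * (gp / (8 * (M3 + 4)) * E) := mul_le_mul_of_nonneg_left hηa (by linarith)
      _ = gp / 8 * E := by field_simp
  have hd2' : Real.log (32 * D) + (M3 + 4) * a ≤ gp / 4 * E := by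
    have := hd2 b haA2
    linarith
  have hd3' : Real.log 4 + M3 * a ≤ gp / 4 * E := by
    have := hd3 b haA3
    linarith
  have hd4' := hd4 b haA4
  rw [← hE] at hd4'
  set d : ℝ := Real.exp (-(κ * E / b)) with hd
  have hd0 : 0 < d := Real.exp_pos _
  have hdq : d ≤ 1 / (32 * q) := by
    have h1 : Real.log (32 * q) ≤ κ * E / b := by
      rw [le_div_iff₀ hb0]
      linarith
    rw [hd, Real.exp_neg, ← one_div]
    refine one_div_le_one_div_of_le (by positivity) ?_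
    rw [← Real.exp_log (by positivity : 0 < 32 * q)]
    exact Real.exp_le_exp.2 h1
  have hq32 : 1 / (32 * q) ≤ 1 / 32 := by
    rw [div_le_div_iff₀ (by positivity) (by norm_num)]
    linarith
  have hd1 : d ≤ 1 / 32 := hdq.trans hq32
  set δ : ℝ := d / 4 with hδ
  have hδ0 : 0 < δ := by positivity
  have hdE : κ * E / b ≤ κ * E := div_le_self (by positivity) hb1
  set γ : ℝ := (s + t) / 2 with hγ
  have hγθ : |γ| ≤ θ * E := by
    rw [abs_le] at hs ht ⊢
    constructor <;> linarith [hs.1, hs.2, ht.1, ht.2]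
  obtain ⟨f, Q, R, q0, hq0, hf, hQd, hRd, hT, hRb, hQ1, hQ2, hQX⟩ := htest a b ν haA1 hba (big2_mono ha0.le hω hν) γ (by rw [← hE]; exact hγθ)
  rw [← hE] at hQX
  -- the logarithm
  have hLa : Lg γ ≤ M1 * b := by
    unfold Lg
    have h1 : 3 + |γ| ≤ (3 + θ) * E := num8 hE1 hγθ
    have h2 := Real.log_le_log (by positivity) h1
    rw [Real.log_mul (by positivity) (by positivity), hE, Real.log_exp] at h2
    rw [hM1]
    refine h2.trans (num9 hb1 hlog3 ?_)
    rw [div_le_iff₀ hm0]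
    nlinarith
  have hL1 := one_le_Lg γ
  -- the lower bound on the frame
  set m : ℝ := 1 / 4 * Real.exp (-((U + K * M1 * κ) * E) - (M + 2 * (K * M1)) * a) with hm
  have hm0 : 0 < m := by positivity
  have hframe : ∀ w ∈ Fr s t δ, m ≤ ‖TT f w‖ := by
    rintro w ⟨w1, w2, w3, w4⟩
    have hδs : δ ≤ 1 / (8 * q) := by
      have : 1 / (32 * q) / 4 ≤ 1 / (8 * q) := by
        rw [div_div, div_le_div_iff₀ (by positivity) (by positivity)]
        nlinarith
      rw [hδ]
      linarith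
    have hwγ : |w.im - γ| ≤ 1 / (4 * q) := by
      have e : 1 / (4 * q) = 1 / (8 * q) + 1 / (8 * q) := by field_simp; norm_num
      rw [e, abs_le]
      have e2 : 1 / (4 * q) / 2 = 1 / (8 * q) := by rw [div_div]; congr 1; ring
      have e3 : (t - s) / 2 ≤ 1 / (8 * q) := by rw [← e2]; linarith
      constructor <;> linarith
    have hq4 : 1 / (4 * q) ≤ 1 / 4 := by
      rw [div_le_div_iff₀ (by positivity) (by norm_num)]
      linarith
    have b1 := Q_low hQd hq hq0 hQ1 hQ2 w1 hwγ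
    have b2 := hmin γ (d / 2) w (by positivity) (by linarith) w1 (by linarith) (fun ρ hρ => by
      have hfρ := hfar ⟨ρ, hρ⟩
      rcases w4 with w4 | w4 | w4
      · refine le_trans ?_ (Complex.abs_re_le_norm _)
        have e : (1 / 2 + w - ρ).re = w.re - (ρ.re - 1 / 2) := by
          simp only [Complex.sub_re, Complex.add_re]
          norm_num
          ring
        rw [e]
        have h3 := abs_sub_abs_le_abs_sub w.re (ρ.re - 1 / 2)
        have h4 : |ρ.re - 1 / 2| ≤ 1 := X_strip hρ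
        rw [w4] at h3
        linarith
      · refine le_trans ?_ (Complex.abs_im_le_norm _)
        have e : (1 / 2 + w - ρ).im = w.im - ρ.im := by simp
        rw [e]
        have h3 : |s - ρ.im| ≤ |s - w.im| + |w.im - ρ.im| := abs_sub_le _ _ _
        have h4 : |s - w.im| ≤ δ := by
          rw [abs_le]
          constructor <;> linarith
        have h5 := hfρ.1
        simp only at h5
        linarith
      · refine le_trans ?_ (Complex.abs_im_le_norm _)
        have e : (1 / 2 + w - ρ).im = w.im - ρ.im := by simp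
        rw [e]
        have h3 : |t - ρ.im| ≤ |t - w.im| + |w.im - ρ.im| := abs_sub_le _ _ _
        have h4 : |t - w.im| ≤ δ := by
          rw [abs_le]
          constructor <;> linarith
        have h5 := hfρ.2
        simp only at h5
        linarith)
    have hlogd : Real.log (d / 2) = -(κ * E / b) - Real.log 2 := by
      rw [Real.log_div hd0.ne' (by norm_num), hd, Real.log_exp]
    have hexp : K * Lg γ * (1 - Real.log (d / 2)) ≤ 2 * (K * M1) * a + K * M1 * κ * E := by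
      rw [hlogd]
      have hl2 : Real.log 2 ≤ 1 := by linarith [Real.log_two_lt_d9]
      have h0 : 0 ≤ κ * E / b := by positivity
      have hl20 : 0 ≤ Real.log 2 := Real.log_nonneg (by norm_num)
      calc K * Lg γ * (1 - (-(κ * E / b) - Real.log 2)) ≤ K * (M1 * b) * (2 + κ * E / b) := by
            refine mul_le_mul (mul_le_mul_of_nonneg_left hLa (by linarith)) (by linarith) (by linarith) (by positivity)
        _ = 2 * (K * M1) * b + K * M1 * (b * (κ * E / b)) := by ring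
        _ = 2 * (K * M1) * b + K * M1 * κ * E := by rw [mul_div_cancel₀ _ hb0.ne']; ring
        _ ≤ _ := by
            have := mul_le_mul_of_nonneg_left hba (by positivity : 0 ≤ 2 * (K * M1))
            linarith
    have b3 : 1 / 2 * Real.exp (-((U + K * M1 * κ) * E) - (M + 2 * (K * M1)) * a) ≤ ‖Q w * L.X (1 / 2 + w)‖ := by
      rw [norm_mul]
      calc 1 / 2 * Real.exp (-((U + K * M1 * κ) * E) - (M + 2 * (K * M1)) * a)
          = 1 / 2 * (Real.exp (-(U * E) - M * a) * Real.exp (-(2 * (K * M1) * a + K * M1 * κ * E))) := by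
            rw [← Real.exp_add]
            congr 2
            ring
        _ ≤ 1 / 2 * ((q0 * ‖L.X (ctr γ)‖) * Real.exp (-(K * Lg γ * (1 - Real.log (d / 2))))) := by
            refine mul_le_mul_of_nonneg_left (mul_le_mul hQX (Real.exp_le_exp.2 (neg_le_neg hexp)) (Real.exp_pos _).le ?_) (by norm_num)
            exact mul_nonneg hq0.le (norm_nonneg _)
        _ = (q0 / 2) * (‖L.X (ctr γ)‖ * Real.exp (-(K * Lg γ * (1 - Real.log (d / 2))))) := by ring
        _ ≤ _ := mul_le_mul b1 b2 (by positivity) (norm_nonneg _)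
    have b4 : ‖R w‖ ≤ 1 / 4 * Real.exp (-((U + K * M1 * κ) * E) - (M + 2 * (K * M1)) * a) := by
      have h1 := hRb w (by linarith)
      rw [← hE] at h1
      have h2 : Real.exp (M * a - c2 * E) / (1 + |w.im|) ≤ Real.exp (M * a - c2 * E) :=
        div_le_self (Real.exp_pos _).le (by linarith [abs_nonneg w.im])
      refine (h1.trans h2).trans ?_
      have h3 : Real.exp (M * a - c2 * E) ≤ Real.exp (-Real.log 4 + (-((U + K * M1 * κ) * E) - (M + 2 * (K * M1)) * a)) := by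
        refine Real.exp_le_exp.2 ?_
        have h4 : K * M1 * κ ≤ gp / 8 := by
          have : (K * M1 + 1) * κ = K * M1 * κ + κ := by ring
          linarith
        have h5 : (c2 - U - K * M1 * κ) * E ≥ gp / 4 * E := by
          refine mul_le_mul_of_nonneg_right ?_ hE0.le
          linarith
        have h6 : (c2 - U - K * M1 * κ) * E = c2 * E - (U + K * M1 * κ) * E := by ring
        have h7 : M3 * a = 2 * M * a + 2 * (K * M1) * a := by rw [hM3]; ring
        have h8 : (M + 2 * (K * M1)) * a = M * a + 2 * (K * M1) * a := by ring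
        linarith
      refine h3.trans (le_of_eq ?_)
      rw [Real.exp_add, Real.exp_neg, Real.exp_log (by norm_num)]
      ring
    rw [hT w]
    have b5 := norm_sub_norm_le (Q w * L.X (1 / 2 + w)) (R w)
    rw [hm]
    linarith
  -- the approximation of the indicator function
  have hstd : t - s + 2 * δ ≤ 1 := by
    have : 1 / (4 * q) ≤ 1 / 4 := by
      rw [div_le_div_iff₀ (by positivity) (by norm_num)]
      linarith
    linarith
  obtain ⟨g, hg, hgT⟩ := est ha0 hδ0 hst hstd hm0 hf hframe fun z hz1 hz2 => ad_big ha0 hθω hν (by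
    rw [← hE]
    rw [abs_le] at hs ht ⊢
    constructor <;> linarith [hs.1, hs.2, ht.1, ht.2])
  set τ : ℝ := Real.exp (M * a - c2 * E) with hτ
  have hτ0 : 0 < τ := Real.exp_pos _
  have hzz : ∀ ρ : Zt, ‖TT f ((ρ : ℂ) - 1 / 2)‖ ≤ τ / (1 + |(ρ : ℂ).im|) := by
    intro ρ
    have h1 := hRb ((ρ : ℂ) - 1 / 2) ((half_re ρ).trans (by norm_num))
    have e : ((ρ : ℂ) - 1 / 2).im = (ρ : ℂ).im := by simp
    rw [e] at h1
    have hX0 : L.X (1 / 2 + ((ρ : ℂ) - 1 / 2)) = 0 := by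
      rw [add_sub_cancel]
      exact ρ.2
    rw [hT, hX0, mul_zero, zero_sub, norm_neg]
    exact h1
  have hB0 : 0 < 2 / (m * δ) := by positivity
  have hBτ : D * E ^ 2 * (2 / (m * δ) * τ) ≤ Real.exp (-(c * E)) := by
    have e1 : 2 / (m * δ) * τ = 32 * Real.exp ((U + K * M1 * κ) * E + (M + 2 * (K * M1)) * a + κ * E / b + (M * a - c2 * E)) := by
      rw [hm, hδ, hd, hτ, Real.exp_add, Real.exp_add, Real.exp_add]
      have h1 : Real.exp (-((U + K * M1 * κ) * E) - (M + 2 * (K * M1)) * a) = (Real.exp ((U + K * M1 * κ) * E) * Real.exp ((M + 2 * (K * M1)) * a))⁻¹ := by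
        rw [← Real.exp_add, ← Real.exp_neg]
        congr 1
        ring
      rw [h1, Real.exp_neg (κ * E / b)]
      field_simp
      norm_num
    have e2 : D * E ^ 2 * (32 : ℝ) ≤ Real.exp (Real.log (32 * D) + 4 * b) := by
      rw [Real.exp_add, Real.exp_log (by positivity)]
      have : E ^ 2 ≤ Real.exp (4 * b) := by
        rw [hE, ← Real.exp_nat_mul]
        refine Real.exp_le_exp.2 ?_
        have h3 : 2 * b / L.m ≤ 2 * b := div_le_self (by positivity) hm1
        push_cast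
        linarith
      have h4 := mul_le_mul_of_nonneg_left this (by positivity : 0 ≤ 32 * D)
      linarith
    rw [e1, ← mul_assoc]
    refine (mul_le_mul_of_nonneg_right e2 (Real.exp_pos _).le).trans ?_
    rw [← Real.exp_add]
    refine Real.exp_le_exp.2 ?_
    have h4 : K * M1 * κ + κ = gp / 8 := by
      have : (K * M1 + 1) * κ = K * M1 * κ + κ := by ring
      linarith
    have h5 : (c2 - U - K * M1 * κ - κ - gp / 4) * E ≥ c * E := by
      refine mul_le_mul_of_nonneg_right ?_ hE0.le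
      linarith
    have h6 : (c2 - U - K * M1 * κ - κ - gp / 4) * E = c2 * E - (U + K * M1 * κ) * E - κ * E - gp / 4 * E := by ring
    have h7 : (M3 + 4) * a = 2 * M * a + 2 * (K * M1) * a + 4 * a := by rw [hM3]; ring
    have h8 : (M + 2 * (K * M1)) * a = M * a + 2 * (K * M1) * a := by ring
    linarith [mul_le_mul_of_nonneg_left hba (by norm_num : (0 : ℝ) ≤ 4)]
  have hBt0 : 0 < 2 / (m * δ) * τ := mul_pos hB0 hτ0
  have hE2 : 1 ≤ E ^ 2 := one_le_pow₀ hE1
  have hce : Real.exp (-(c * E)) ≤ 1 := Real.exp_le_one_iff.2 (by nlinarith)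
  have hDle : D ≤ D * E ^ 2 := le_mul_of_one_le_right (by linarith) hE2
  have hB8 : 2 / (m * δ) * τ ≤ 1 / 8 := by
    have h1 : 8 * (2 / (m * δ) * τ) ≤ D * E ^ 2 * (2 / (m * δ) * τ) := mul_le_mul_of_nonneg_right (hD8.trans hDle) hBt0.le
    linarith
  have hBC : 2 / (m * δ) * τ * CZ ≤ 1 / 2 := by
    have h1 : 2 * CZ ≤ D * E ^ 2 := by
      refine le_trans ?_ hDle
      have : 0 ≤ θ ^ 2 * CZ := by positivity
      rw [hD]
      linarith
    have h2 := mul_le_mul_of_nonneg_right h1 hBt0.le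
    linarith
  obtain ⟨r1, r2, r3⟩ := meas_loc ha0 hf hg hB0 hτ0 hB8 hBC hgT hzz hα hβ hμ
  have hfinal : (7 * Nz s t + 4 * CZ) * (2 / (m * δ) * τ) ≤ Real.exp (-(c * E)) := by
    refine le_trans (mul_le_mul_of_nonneg_right ?_ hBt0.le) hBτ
    have h1 := Nz_le s t
    have h2 : (|s| + |t|) ^ 2 ≤ (2 * (θ * E)) ^ 2 := pow_le_pow_left₀ (by positivity) (by linarith) 2
    have h3 : (1 + (|s| + |t|) ^ 2) * CZ ≤ (1 + (2 * (θ * E)) ^ 2) * CZ := mul_le_mul_of_nonneg_right (by linarith) hCZ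
    have h4 : 7 * Nz s t + 4 * CZ ≤ (11 + 28 * θ ^ 2 * E ^ 2) * CZ := by
      calc 7 * Nz s t + 4 * CZ ≤ 7 * ((1 + (2 * (θ * E)) ^ 2) * CZ) + 4 * CZ := by linarith
        _ = _ := by ring
    have h5 : (11 + 28 * θ ^ 2 * E ^ 2) * CZ ≤ (11 + 28 * θ ^ 2) * CZ * E ^ 2 := by
      have h6 : 11 * CZ ≤ 11 * CZ * E ^ 2 := le_mul_of_one_le_right (by positivity) hE2
      calc (11 + 28 * θ ^ 2 * E ^ 2) * CZ = 11 * CZ + 28 * θ ^ 2 * CZ * E ^ 2 := by ring
        _ ≤ 11 * CZ * E ^ 2 + 28 * θ ^ 2 * CZ * E ^ 2 := by linarith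
        _ = _ := by ring
    refine h4.trans (h5.trans (mul_le_mul_of_nonneg_right ?_ (by positivity)))
    rw [hD]
    linarith
  have h2 := mul_le_mul_of_nonneg_left hfinal hβ.le
  refine ⟨r1, r2.trans (mul_le_mul_of_nonneg_left (by linarith) hβ.le), by linarith⟩

end Pool.Agent.Q97.RL
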