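import Pool.Agent.Q97.RL.R6

set_option autoImplicit false
set_option linter.unusedSectionVars false

/-!
# Project RGL: rigidity at all heights up to a multiple of `exp (2 a / m)` (as `Q97/RI/H6.lean`)
-/

open Complex Filter Topology Set MeasureTheory Metric
open scoped ComplexConjugate

namespace Pool.Agent.Q97.RL

open Pool.Agent
open Pool.Agent.Y23 (TT N2 Fa)
open Pool.Agent.Y23.G

variable [L : LFun]

/-- points far from the ordinates -/
lemma good_pt : ∃ C : ℝ, 0 < C ∧ ∀ x h : ℝ, 0 < h → h ≤ 1 / 8 → ∃ y : ℝ, x ≤ y ∧ y ≤ x + h ∧ ∀ ρ : Zt,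
    h / (2 * (C * Lg x + 1)) ≤ |y - (ρ : ℂ).im| := by
  classical
  obtain ⟨C, hC, hcard⟩ := win_card (L := L)
  refine ⟨C, hC, fun x h hh0 hh1 => ?_⟩
  have hL := one_le_Lg x
  have hf := win_finite (L := L) x
  set Γ : Finset ℝ := hf.toFinset.image fun s => s.im / h with hΓ
  obtain ⟨U, hU, hUΓ⟩ := H370.Loc.pigeon Γ (x / h)
  have hc1 : (Γ.card : ℝ) ≤ C * Lg x := by
    refine le_trans ?_ (hcard x hf.toFinset fun s hs => by simpa using hs)
    exact_mod_cast Finset.card_image_le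
  refine ⟨h * U, ?_, ?_, fun ρ => ?_⟩
  · have := hU.1
    rw [div_le_iff₀ hh0] at this
    linarith
  · have h1 := mul_le_mul_of_nonneg_left hU.2 hh0.le
    have e : h * (x / h + 1) = x + h := by field_simp
    linarith
  · have hx1 : x ≤ h * U := by
      have := hU.1
      rw [div_le_iff₀ hh0] at this
      linarith
    have hx2 : h * U ≤ x + h := by
      have h1 := mul_le_mul_of_nonneg_left hU.2 hh0.le
      have e : h * (x / h + 1) = x + h := by field_simp
      linarith
    by_cases hρ : |(ρ : ℂ).im - x| ≤ 1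
    · have hmem : (ρ : ℂ).im / h ∈ Γ := by
        rw [hΓ, Finset.mem_image]
        refine ⟨(ρ : ℂ), ?_, rfl⟩
        rw [Set.Finite.mem_toFinset]
        exact ⟨ρ.2, hρ⟩
      have h1 := hUΓ _ hmem
      have h2 : |h * U - (ρ : ℂ).im| = h * |U - (ρ : ℂ).im / h| := by
        rw [← abs_of_pos hh0, ← abs_mul, abs_of_pos hh0]
        congr 1
        field_simp
      rw [h2]
      calc h / (2 * (C * Lg x + 1)) ≤ h / (2 * ((Γ.card : ℝ) + 1)) :=
            div_le_div_of_nonneg_left hh0.le (by positivity) (by linarith)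
        _ = h * (1 / (2 * ((Γ.card : ℝ) + 1))) := by ring
        _ ≤ _ := mul_le_mul_of_nonneg_left h1 hh0.le
    · push Not at hρ
      have h1 : h / (2 * (C * Lg x + 1)) ≤ h := by
        refine div_le_self hh0.le ?_
        have : 0 < C * Lg x := by positivity
        linarith
      have h2 : |(ρ : ℂ).im - x| ≤ |h * U - (ρ : ℂ).im| + |h * U - x| := by
        calc |(ρ : ℂ).im - x| = |(h * U - x) - (h * U - (ρ : ℂ).im)| := by congr 1; ring
          _ ≤ |h * U - x| + |h * U - (ρ : ℂ).im| := abs_sub _ _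
          _ = _ := by ring
      have h3 : |h * U - x| ≤ h := by
        rw [abs_of_nonneg (by linarith)]
        linarith
      linarith

/-- **rigidity at all heights up to a multiple of `exp (2 b / m)`** -/
theorem uniform {c2 U θ ω ω' c : ℝ} (hTD : TD (L := L) c2 U θ ω) (hω : ω ≤ ω') (hθω : θ ≤ Real.pi * ω') (hθ0 : 0 < θ) (hc0 : 0 < c) (hc : c < c2 - U) :
    ∃ κ A η : ℝ, 0 < κ ∧ 1 ≤ A ∧ 0 < η ∧ ∀ (a b : ℝ) (ν : ℕ∞), A ≤ b → b ≤ a → a ≤ η * Real.exp (2 * b / L.m) → big2 (L := L) ω' a b ν →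
      ∀ (α β : ℝ) (μ : Measure ℝ), 0 ≤ α → 0 < β → Rp a ν α β μ → ∀ s t : ℝ, |s| ≤ θ * Real.exp (2 * b / L.m) →
        |t| ≤ θ * Real.exp (2 * b / L.m) →
        (∀ ρ : Zt, Real.exp (-(κ * Real.exp (2 * b / L.m) / b)) ≤ |s - (ρ : ℂ).im| ∧ Real.exp (-(κ * Real.exp (2 * b / L.m) / b)) ≤ |t - (ρ : ℂ).im|) →
          μ (Ioo s t) ≠ ⊤ ∧ α * Nz s t - β * Real.exp (-(c * Real.exp (2 * b / L.m))) ≤ μ.real (Ioo s t) ∧
            μ.real (Ioo s t) ≤ β * (Nz s t + Real.exp (-(c * Real.exp (2 * b / L.m)))) := by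
  set c' : ℝ := (c + (c2 - U)) / 2 with hc'
  have hcc : c < c' := by rw [hc']; linarith
  obtain ⟨κ, r, A1, η, hκ, hr0, hr1, hA1, hη, hsh⟩ := short (L := L) hTD hω hθω hθ0 (c := c') (by linarith) (by rw [hc']; linarith)
  obtain ⟨C, hC, hgood⟩ := good_pt
  have hpi := Real.pi_pos
  have hm1 := m_one (L := L)
  have hm0 : (0 : ℝ) < L.m := by linarith
  have hlog3 : 0 ≤ Real.log (3 + θ) := Real.log_nonneg (by linarith)
  set M1 : ℝ := Real.log (3 + θ) + 2 + 1 with hM1
  have hM10 : 0 < M1 := by linarith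
  set h : ℝ := r / 2 with hh
  have hh0 : 0 < h := by positivity
  have hh1 : h ≤ 1 / 8 := by rw [hh]; linarith
  obtain ⟨A2, hA2, hd2⟩ := exp_dom (L := L) κ (2 * (C * M1 + 1) / h) hκ
  obtain ⟨A3, hA3, hd3⟩ := ev_dom (L := L) (Real.log (2 * θ / h + 1)) 2 (ε := c' - c) (by linarith)
  refine ⟨κ, max A1 (max A2 A3), η, hκ, le_max_of_le_left hA1, hη, fun a0 a ν ha haa hηa hν α β μ hα hβ hμ s0 t0 hs0 ht0 hfar0 => ?_⟩
  have haA1 : A1 ≤ a := (le_max_left _ _).trans ha
  have haA2 : A2 ≤ a := (le_max_left _ _).trans ((le_max_right _ _).trans ha)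
  have haA3 : A3 ≤ a := (le_max_right _ _).trans ((le_max_right _ _).trans ha)
  have ha1 : 1 ≤ a := hA1.trans haA1
  have ha0 : 0 < a := by linarith
  have hd2' := hd2 a haA2
  have hd3' := hd3 a haA3
  have hshort := hsh a0 a ν haA1 haa hηa hν α β μ hα hβ hμ
  set E : ℝ := Real.exp (2 * a / L.m) with hE
  have hE1 : 1 ≤ E := Real.one_le_exp (by positivity)
  have hE0 : 0 < E := by linarith
  set d : ℝ := Real.exp (-(κ * E / a)) with hd
  have hd0 : 0 < d := Real.exp_pos _
  set e' : ℝ := Real.exp (-(c' * E)) with he'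
  have he0 : 0 < e' := Real.exp_pos _
  -- intermediate points
  have hpt : ∀ x : ℝ, |x| ≤ θ * E → ∃ y : ℝ, x + h ≤ y ∧ y ≤ x + 2 * h ∧ ∀ ρ : Zt, d ≤ |y - (ρ : ℂ).im| := by
    intro x hx
    obtain ⟨y, hy1, hy2, hy3⟩ := hgood (x + h) h hh0 hh1
    refine ⟨y, hy1, by linarith, fun ρ => le_trans ?_ (hy3 ρ)⟩
    have hLa : Lg (x + h) ≤ M1 * a := by
      have h1 := Lg_add x h
      rw [abs_of_pos hh0] at h1
      have h2 : Lg x ≤ (Real.log (3 + θ) + 2) * a := by
        unfold Lg
        have h1 : 3 + |x| ≤ (3 + θ) * E := num8 hE1 hx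
        have h2 := Real.log_le_log (by positivity) h1
        rw [Real.log_mul (by positivity) (by positivity), hE, Real.log_exp] at h2
        refine h2.trans (num9 ha1 hlog3 ?_)
        rw [div_le_iff₀ hm0]
        nlinarith
      have e : M1 * a = (Real.log (3 + θ) + 2) * a + a := by rw [hM1]; ring
      linarith
    have hL1 := one_le_Lg (x + h)
    have h4 : 2 * (C * Lg (x + h) + 1) / h ≤ Real.exp (κ * E / a) := by
      have h5 : 2 * (C * Lg (x + h) + 1) / h ≤ 2 * (C * M1 + 1) / h * a := by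
        rw [div_mul_eq_mul_div]
        refine div_le_div_of_nonneg_right ?_ hh0.le
        have : C * Lg (x + h) ≤ C * (M1 * a) := mul_le_mul_of_nonneg_left hLa hC.le
        nlinarith
      have h6 : 2 * (C * M1 + 1) / h * a ≤ κ * E / a := by
        rw [le_div_iff₀ ha0]
        have h7 : a ^ 2 ≤ a ^ 3 := pow_le_pow_right₀ ha1 (by norm_num)
        have h8 : 0 ≤ 2 * (C * M1 + 1) / h := by positivity
        calc 2 * (C * M1 + 1) / h * a * a = 2 * (C * M1 + 1) / h * a ^ 2 := by ring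
          _ ≤ 2 * (C * M1 + 1) / h * a ^ 3 := mul_le_mul_of_nonneg_left h7 h8
          _ ≤ _ := hd2'
      linarith [Real.add_one_le_exp (κ * E / a)]
    rw [hd, Real.exp_neg, ← one_div, div_le_div_iff₀ (Real.exp_pos _) (by positivity)]
    rw [div_le_iff₀ hh0] at h4
    linarith
  -- the induction
  have hind : ∀ k : ℕ, ∀ s t : ℝ, |s| ≤ θ * E → |t| ≤ θ * E → s < t → t - s ≤ k * h →
      (∀ ρ : Zt, d ≤ |s - (ρ : ℂ).im| ∧ d ≤ |t - (ρ : ℂ).im|) →
        μ (Icc s t) ≠ ⊤ ∧ μ.real (Icc s t) ≤ β * (Nz s t + k * e') ∧ α * Nz s t - β * (k * e') ≤ μ.real (Ioo s t) := by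
    intro k
    induction k with
    | zero =>
      intro s t _ _ hst hk _
      simp only [Nat.cast_zero, zero_mul] at hk
      linarith
    | succ k ih =>
      intro s t hs ht hst hk hfar
      have hk0 : (0 : ℝ) ≤ k := Nat.cast_nonneg k
      push_cast at hk ⊢
      by_cases hle : t - s ≤ r
      · obtain ⟨q1, q2, q3⟩ := hshort s t hs ht hst hle hfar
        have h1 : β * e' ≤ β * ((k + 1) * e') := mul_le_mul_of_nonneg_left (by nlinarith) hβ.le
        refine ⟨q1, q2.trans (mul_le_mul_of_nonneg_left (by nlinarith) hβ.le), by linarith⟩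
      · push Not at hle
        obtain ⟨y, hy1, hy2, hy3⟩ := hpt s hs
        have hr2 : r = 2 * h := by rw [hh]; ring
        have hsy : s < y := by linarith
        have hyt : y < t := by linarith
        have hyθ : |y| ≤ θ * E := by
          rw [abs_le] at hs ht ⊢
          constructor <;> linarith [hs.1, ht.2]
        obtain ⟨q1, q2, q3⟩ := hshort s y hs hyθ hsy (by linarith) fun ρ => ⟨(hfar ρ).1, hy3 ρ⟩
        obtain ⟨p1, p2, p3⟩ := ih y t hyθ ht hyt (by nlinarith) fun ρ => ⟨hy3 ρ, (hfar ρ).2⟩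
        have hN := Nz_add hsy hyt fun ρ hρ => by
          have := hy3 ρ
          rw [hρ, sub_self, abs_zero] at this
          linarith
        have hsub : Icc s t ⊆ Icc s y ∪ Icc y t := by
          intro x hx
          rcases le_total x y with h1 | h1
          · exact Or.inl ⟨hx.1, h1⟩
          · exact Or.inr ⟨h1, hx.2⟩
        have hle1 : μ (Icc s t) ≤ μ (Icc s y) + μ (Icc y t) := (measure_mono hsub).trans (measure_union_le _ _)
        have hne : μ (Icc s y) + μ (Icc y t) ≠ ⊤ := ENNReal.add_ne_top.2 ⟨q1, p1⟩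
        have hfin : μ (Icc s t) ≠ ⊤ := ne_top_of_le_ne_top hne hle1
        have hre1 : μ.real (Icc s t) ≤ μ.real (Icc s y) + μ.real (Icc y t) := by
          unfold Measure.real
          rw [← ENNReal.toReal_add q1 p1]
          exact ENNReal.toReal_mono hne hle1
        have hsub2 : Ioo s y ∪ Ioo y t ⊆ Ioo s t := by
          rintro x (hx | hx)
          · exact ⟨hx.1, hx.2.trans hyt⟩
          · exact ⟨hsy.trans hx.1, hx.2⟩
        have hdis : Disjoint (Ioo s y) (Ioo y t) := by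
          rw [Set.disjoint_left]
          intro x hx1 hx2
          exact absurd (hx1.2.trans hx2.1) (lt_irrefl _)
        have hre2 : μ.real (Ioo s y) + μ.real (Ioo y t) ≤ μ.real (Ioo s t) := by
          have h1 : μ (Ioo s y) + μ (Ioo y t) ≤ μ (Ioo s t) := by
            rw [← measure_union hdis measurableSet_Ioo]
            exact measure_mono hsub2
          unfold Measure.real
          rw [← ENNReal.toReal_add (ne_top_of_le_ne_top q1 (measure_mono Ioo_subset_Icc_self)) (ne_top_of_le_ne_top p1 (measure_mono Ioo_subset_Icc_self))]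
          exact ENNReal.toReal_mono (ne_top_of_le_ne_top hfin (measure_mono Ioo_subset_Icc_self)) h1
        refine ⟨hfin, ?_, ?_⟩
        · rw [hN]
          calc μ.real (Icc s t) ≤ _ := hre1
            _ ≤ β * (Nz s y + e') + β * (Nz y t + k * e') := add_le_add q2 p2
            _ = _ := by ring
        · rw [hN]
          calc α * (Nz s y + Nz y t) - β * ((k + 1) * e') = (α * Nz s y - β * e') + (α * Nz y t - β * (k * e')) := by ring
            _ ≤ μ.real (Ioo s y) + μ.real (Ioo y t) := add_le_add q3 p3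
            _ ≤ _ := hre2
  rcases lt_or_ge s0 t0 with hst | hst
  · obtain ⟨p1, p2, p3⟩ := hind ⌈2 * (θ * E) / h⌉₊ s0 t0 hs0 ht0 hst (by
      have h1 := Nat.le_ceil (2 * (θ * E) / h)
      have h2 : 2 * (θ * E) ≤ (⌈2 * (θ * E) / h⌉₊ : ℝ) * h := by
        rw [← div_le_iff₀ hh0]
        exact h1
      rw [abs_le] at hs0 ht0
      linarith [hs0.1, ht0.2]) hfar0
    have hk : (⌈2 * (θ * E) / h⌉₊ : ℝ) ≤ (2 * θ / h + 1) * E := by
      have h1 := Nat.ceil_lt_add_one (show 0 ≤ 2 * (θ * E) / h by positivity)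
      have h2 : 2 * (θ * E) / h = 2 * θ / h * E := by ring
      rw [h2] at h1 ⊢
      linarith
    have hke : (⌈2 * (θ * E) / h⌉₊ : ℝ) * e' ≤ Real.exp (-(c * E)) := by
      refine (mul_le_mul_of_nonneg_right hk he0.le).trans ?_
      have h0 : 2 * a / L.m ≤ 2 * a := div_le_self (by positivity) hm1
      have h1 : (2 * θ / h + 1) * E = Real.exp (Real.log (2 * θ / h + 1) + 2 * a / L.m) := by
        rw [Real.exp_add, Real.exp_log (by positivity)]
      rw [h1, he', ← Real.exp_add]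
      refine Real.exp_le_exp.2 ?_
      linarith
    have h1 := mul_le_mul_of_nonneg_left hke hβ.le
    refine ⟨ne_top_of_le_ne_top p1 (measure_mono Ioo_subset_Icc_self), by linarith, ?_⟩
    calc μ.real (Ioo s0 t0) ≤ μ.real (Icc s0 t0) := ENNReal.toReal_mono p1 (measure_mono Ioo_subset_Icc_self)
      _ ≤ β * (Nz s0 t0 + (⌈2 * (θ * E) / h⌉₊ : ℝ) * e') := p2
      _ ≤ _ := mul_le_mul_of_nonneg_left (by linarith) hβ.le
  · have h0 : Ioo s0 t0 = ∅ := Set.Ioo_eq_empty (not_lt.2 hst)
    have hN : Nz s0 t0 = 0 := by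
      unfold Nz
      refine (tsum_congr fun ρ => ?_).trans tsum_zero
      rw [if_neg (fun hh => by linarith [hh.1, hh.2])]
    have h1 : 0 < Real.exp (-(c * E)) := Real.exp_pos _
    rw [h0, hN, measureReal_empty]
    refine ⟨by simp, ?_, ?_⟩
    · have := mul_pos hβ h1
      linarith
    · have := mul_pos hβ h1
      linarith

end Pool.Agent.Q97.RL
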