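import Pool.Agent.Q97.RL.K3

set_option autoImplicit false
set_option linter.unusedSectionVars false
set_option maxHeartbeats 2000000

/-!
# Project RGL: the kernel function as a holomorphic function in a strip
-/

open Complex Filter Topology Set MeasureTheory Metric
open scoped ComplexConjugate FourierTransform

namespace Pool.Agent.Q97.RL

open Pool.Agent
open Pool.Agent.Y23 (TT Fa)
open Pool.Agent.Y23.G

variable [L : LFun]

/-- the kernel function -/
noncomputable def Th (z : ℂ) : ℂ := 1 / (2 * Real.pi) * ∫ y : ℝ, L.X (1 / 2 + ⟨0, y⟩) * cexp (-(⟨0, y⟩ * z))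

lemma X_ct : Continuous (fun y : ℝ => L.X (1 / 2 + ⟨0, y⟩)) := by
  have h1 : Differentiable ℂ (fun z : ℂ => L.X (1 / 2 + z)) := Xd.comp (by fun_prop)
  exact h1.continuous.comp (line_ct 0)

/-- decay on the line, with a power -/
lemma X_line2 {u : ℝ} (hu0 : 0 ≤ u) (hu1 : u < Real.pi / 2) : ∃ C : ℝ, 0 < C ∧ ∀ v : ℝ,
    ‖L.X (1 / 2 + ⟨0, v⟩)‖ ≤ C * Real.exp (-(L.m * u / 2 * |v|)) / (1 + v ^ 2) := by
  have hm1 := m_one (L := L)
  have hφ : 0 ≤ (L.m : ℝ) * u / 2 := by positivity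
  obtain ⟨A, hA, h⟩ := X_allRU (L := L) hu0 hu1
  refine ⟨Real.exp (ExR (P := rpL (L := L) hu0 hu1) A 0), Real.exp_pos _, fun v => ?_⟩
  have h1 := h (L.m * u / 2) (by rw [abs_of_nonneg hφ]) ⟨0, v⟩
  have h2 := h (-(L.m * u / 2)) (by rw [abs_neg, abs_of_nonneg hφ]) ⟨0, v⟩
  rw [HR_norm] at h1 h2
  simp only [abs_zero] at h1 h2
  have h3 : ‖L.X (1 / 2 + ⟨0, v⟩)‖ * Real.exp (L.m * u / 2 * |v|) ≤ Real.exp (ExR (P := rpL (L := L) hu0 hu1) A 0) / (1 + v ^ 2) := by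
    rcases le_total 0 v with hv | hv
    · rw [abs_of_nonneg hv]
      exact h1
    · rw [abs_of_nonpos hv]
      have e : L.m * u / 2 * -v = -(L.m * u / 2) * v := by ring
      rw [e]
      exact h2
  rw [← le_div_iff₀ (Real.exp_pos _)] at h3
  refine h3.trans (le_of_eq ?_)
  rw [Real.exp_neg]
  field_simp

/-- the kernel function is holomorphic in the strip -/
lemma Th_diff {u : ℝ} (hu0 : 0 ≤ u) (hu1 : u < Real.pi / 2) {z : ℂ} (hz : |z.im| < L.m * u / 2) : DifferentiableAt ℂ (Th (L := L)) z := by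
  obtain ⟨C, hC, hX⟩ := X_line2 (L := L) hu0 hu1
  set r : ℝ := (L.m * u / 2 - |z.im|) / 2 with hr
  have hr0 : 0 < r := by rw [hr]; linarith
  have hbd : ∀ (y : ℝ) (w : ℂ), w ∈ ball z r → ‖L.X (1 / 2 + ⟨0, y⟩) * (-⟨0, y⟩ * cexp (-(⟨0, y⟩ * w)))‖ ≤ C / r * (1 + y ^ 2)⁻¹ := by
    intro y w hw
    have h1 := hX y
    have h2 : ‖(-⟨0, y⟩ : ℂ)‖ = |y| := by
      rw [norm_neg, show (⟨0, y⟩ : ℂ) = (y : ℂ) * I from by apply Complex.ext <;> simp, norm_mul, Complex.norm_I, mul_one, Complex.norm_real, Real.norm_eq_abs]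
    have h3 : (-((⟨0, y⟩ : ℂ) * w)).re = y * w.im := by simp
    have h4 : |w.im| ≤ |z.im| + r := by
      have h5 : |(w - z).im| ≤ ‖w - z‖ := Complex.abs_im_le_norm _
      rw [mem_ball, dist_eq_norm] at hw
      have h6 := abs_add_le z.im (w - z).im
      rw [Complex.sub_im, add_sub_cancel] at h6
      rw [Complex.sub_im] at h5
      linarith
    have h5 : y * w.im ≤ |y| * (L.m * u / 2 - r) := by
      calc y * w.im ≤ |y * w.im| := le_abs_self _
        _ = |y| * |w.im| := abs_mul _ _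
        _ ≤ |y| * (L.m * u / 2 - r) := mul_le_mul_of_nonneg_left (by rw [hr] at h4 ⊢; linarith) (abs_nonneg _)
    have h6 : |y| * Real.exp (-(r * |y|)) ≤ 1 / r := by
      have h7 := Real.add_one_le_exp (r * |y|)
      rw [Real.exp_neg, ← div_eq_mul_inv, div_le_div_iff₀ (Real.exp_pos _) hr0]
      linarith
    rw [norm_mul, norm_mul, h2, Complex.norm_exp, h3]
    calc ‖L.X (1 / 2 + ⟨0, y⟩)‖ * (|y| * Real.exp (y * w.im)) ≤
          (C * Real.exp (-(L.m * u / 2 * |y|)) / (1 + y ^ 2)) * (|y| * Real.exp (|y| * (L.m * u / 2 - r))) := by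
            gcongr
      _ = C * (|y| * (Real.exp (-(L.m * u / 2 * |y|)) * Real.exp (|y| * (L.m * u / 2 - r)))) * (1 + y ^ 2)⁻¹ := by
          rw [div_eq_mul_inv]; ring
      _ = C * (|y| * Real.exp (-(r * |y|))) * (1 + y ^ 2)⁻¹ := by
          rw [← Real.exp_add]
          congr 4
          ring
      _ ≤ C * (1 / r) * (1 + y ^ 2)⁻¹ := by gcongr
      _ = _ := by ring
  have hmeas : ∀ w : ℂ, AEStronglyMeasurable (fun y : ℝ => L.X (1 / 2 + ⟨0, y⟩) * cexp (-(⟨0, y⟩ * w))) volume := by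
    intro w
    exact (X_ct.mul (Complex.continuous_exp.comp (((line_ct 0).mul continuous_const).neg))).aestronglyMeasurable
  have hint : Integrable (fun y : ℝ => L.X (1 / 2 + ⟨0, y⟩) * cexp (-(⟨0, y⟩ * z))) := by
    refine (integrable_inv_one_add_sq.const_mul C).mono' (hmeas z) (Eventually.of_forall fun y => ?_)
    have h1 := hX y
    have h3 : (-((⟨0, y⟩ : ℂ) * z)).re = y * z.im := by simp
    have h5 : y * z.im ≤ L.m * u / 2 * |y| := by
      calc y * z.im ≤ |y * z.im| := le_abs_self _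
        _ = |y| * |z.im| := abs_mul _ _
        _ ≤ |y| * (L.m * u / 2) := mul_le_mul_of_nonneg_left hz.le (abs_nonneg _)
        _ = _ := by ring
    rw [norm_mul, Complex.norm_exp, h3]
    calc ‖L.X (1 / 2 + ⟨0, y⟩)‖ * Real.exp (y * z.im) ≤ (C * Real.exp (-(L.m * u / 2 * |y|)) / (1 + y ^ 2)) * Real.exp (L.m * u / 2 * |y|) := by
            gcongr
      _ = C * (Real.exp (-(L.m * u / 2 * |y|)) * Real.exp (L.m * u / 2 * |y|)) * (1 + y ^ 2)⁻¹ := by rw [div_eq_mul_inv]; ring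
      _ = _ := by rw [← Real.exp_add, neg_add_cancel, Real.exp_zero, mul_one]
  have hm2 : AEStronglyMeasurable (fun y : ℝ => L.X (1 / 2 + ⟨0, y⟩) * (-⟨0, y⟩ * cexp (-(⟨0, y⟩ * z)))) volume :=
    (X_ct.mul ((line_ct 0).neg.mul (Complex.continuous_exp.comp (((line_ct 0).mul continuous_const).neg)))).aestronglyMeasurable
  have key := hasDerivAt_integral_of_dominated_loc_of_deriv_le (μ := volume) (F := fun (w : ℂ) (y : ℝ) => L.X (1 / 2 + ⟨0, y⟩) * cexp (-(⟨0, y⟩ * w)))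
    (F' := fun (w : ℂ) (y : ℝ) => L.X (1 / 2 + ⟨0, y⟩) * (-⟨0, y⟩ * cexp (-(⟨0, y⟩ * w)))) (x₀ := z) (s := ball z r) (bound := fun y => C / r * (1 + y ^ 2)⁻¹)
    (ball_mem_nhds z hr0) (Eventually.of_forall hmeas) hint hm2 (Eventually.of_forall fun y w hw => hbd y w hw) (integrable_inv_one_add_sq.const_mul _)
    (Eventually.of_forall fun y w _ => by
      have h1 : HasDerivAt (fun w : ℂ => cexp (-(⟨0, y⟩ * w))) (cexp (-(⟨0, y⟩ * w)) * (-(⟨0, y⟩ * 1))) w :=
        ((hasDerivAt_id w).const_mul (⟨0, y⟩ : ℂ)).neg.cexp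
      have h2 := h1.const_mul (L.X (1 / 2 + ⟨0, y⟩))
      have e : cexp (-(⟨0, y⟩ * w)) * (-(⟨0, y⟩ * 1)) = -⟨0, y⟩ * cexp (-(⟨0, y⟩ * w)) := by ring
      rw [e] at h2
      exact h2)
  unfold Th
  exact (key.2.differentiableAt).const_mul _

end Pool.Agent.Q97.RL
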