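import Pool.Agent.Q97.RL.S1

set_option autoImplicit false
set_option linter.unusedSectionVars false
set_option maxHeartbeats 2000000

/-!
# Project RGL: the size of the kernel function in the strip
-/

open Complex Filter Topology Set MeasureTheory Metric
open scoped ComplexConjugate FourierTransform

namespace Pool.Agent.Q97.RL

open Pool.Agent
open Pool.Agent.Y23 (TT Fa)
open Pool.Agent.Y23.G

section

variable [P : RP]

/-- the inverse transform -/
noncomputable def phi (H : ℂ → ℂ) (x : ℝ) : ℂ := 1 / (2 * Real.pi) * ∫ y : ℝ, H ⟨0, y⟩ * cexp (-(⟨0, y⟩ * x))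

/-- the inverse transform -/
theorem inv_phi {A K : ℝ} (hA : 0 ≤ A) (hK : 0 < K) {H : ℂ → ℂ} (hH : Differentiable ℂ H)
    (hb : ∀ w, ‖H w‖ ≤ K * Real.exp (ExR A |w.re|) / (1 + w.im ^ 2)) :
    Continuous (phi H) ∧ (∀ x, ‖phi H x‖ ≤ K * Real.exp (4 * A * (1 + |x|) - ccR * Real.exp (2 * |x| / P.m))) ∧
      (∀ w : ℂ, Integrable (fun x : ℝ => phi H x * cexp (w * x))) ∧ ∀ w : ℂ, ∫ x : ℝ, phi H x * cexp (w * x) = H w := by
  have hpi := Real.pi_pos
  set φ : ℝ → ℂ := phi H with hφd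
  have hφ : φ = fun x : ℝ => 1 / (2 * Real.pi) * ∫ y : ℝ, H ⟨0, y⟩ * cexp (-(⟨0, y⟩ * x)) := rfl
  have hct : ∀ σ : ℝ, Continuous (fun y : ℝ => H ⟨σ, y⟩) := fun σ => hH.continuous.comp (line_ct σ)
  have hint : ∀ σ : ℝ, Integrable (fun y : ℝ => H ⟨σ, y⟩) := by
    intro σ
    refine (integrable_inv_one_add_sq.const_mul (K * Real.exp (ExR A |σ|))).mono' (hct σ).aestronglyMeasurable
      (Eventually.of_forall fun y => ?_)
    have := hb ⟨σ, y⟩
    rw [← div_eq_mul_inv]
    exact this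
  -- all lines
  have hshift : ∀ (σ x : ℝ), φ x = 1 / (2 * Real.pi) * ∫ y : ℝ, H ⟨σ, y⟩ * cexp (-(⟨σ, y⟩ * x)) := by
    intro σ x
    simp only [hφ]
    congr 1
    refine (line_shift (g := fun w => H w * cexp (-(w * x))) (hH.mul (by fun_prop)) (fun R => ?_) σ).symm
    -- a bound on the strip
    obtain ⟨M, hM⟩ : ∃ M : ℝ, ∀ t ∈ Icc (0 : ℝ) R, Real.exp (ExR A t) ≤ M := by
      have hcont : ContinuousOn (fun t : ℝ => Real.exp (ExR A t)) (Icc 0 R) := by
        unfold ExR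
        refine Real.continuous_exp.comp_continuousOn ?_
        refine ContinuousOn.add (ContinuousOn.add continuousOn_const (ContinuousOn.mul continuousOn_const ?_)) ?_
        · refine ContinuousOn.log (by fun_prop) fun t ht => ?_
          have := ht.1
          linarith
        · refine Continuous.continuousOn ?_
          have h1 : (fun t : ℝ => P.m / 2 * (t * (Real.log t - kpR))) = fun t : ℝ => P.m / 2 * (t * Real.log t - t * kpR) := by
            funext t; ring
          rw [h1]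
          exact continuous_const.mul (Real.continuous_mul_log.sub (by fun_prop))
      obtain ⟨M, hM⟩ := isCompact_Icc.exists_bound_of_continuousOn hcont
      exact ⟨M, fun t ht => (le_abs_self _).trans (hM t ht)⟩
    refine ⟨K * M * Real.exp (R * |x|), fun w hw => ?_⟩
    have h1 := hb w
    have h2 := hM |w.re| ⟨abs_nonneg _, hw⟩
    have hM0 : 0 ≤ M := (Real.exp_pos _).le.trans h2
    rw [norm_mul, Complex.norm_exp]
    have h3 : (-(w * (x : ℂ))).re ≤ R * |x| := by
      rw [Complex.neg_re, Complex.re_mul_ofReal]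
      calc -(w.re * x) ≤ |w.re * x| := neg_le_abs _
        _ = |w.re| * |x| := abs_mul _ _
        _ ≤ R * |x| := mul_le_mul_of_nonneg_right hw (abs_nonneg _)
    calc ‖H w‖ * Real.exp (-(w * (x : ℂ))).re ≤ (K * M / (1 + w.im ^ 2)) * Real.exp (R * |x|) := by
          refine mul_le_mul (h1.trans ?_) (Real.exp_le_exp.2 h3) (Real.exp_pos _).le (by positivity)
          gcongr
      _ = _ := by ring
  have hnorm : ∀ (σ x : ℝ), ‖φ x‖ ≤ K * Real.exp (-(σ * x) + ExR A |σ|) := by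
    intro σ x
    rw [hshift σ x, norm_mul]
    have h1 : ‖(1 / (2 * Real.pi) : ℂ)‖ = 1 / (2 * Real.pi) := by
      have : (1 / (2 * Real.pi) : ℂ) = ((1 / (2 * Real.pi) : ℝ) : ℂ) := by push_cast; ring
      rw [this, Complex.norm_real, Real.norm_eq_abs, abs_of_pos (by positivity)]
    have h2 : ‖∫ y : ℝ, H ⟨σ, y⟩ * cexp (-(⟨σ, y⟩ * x))‖ ≤ K * Real.exp (-(σ * x) + ExR A |σ|) * Real.pi := by
      calc ‖∫ y : ℝ, H ⟨σ, y⟩ * cexp (-(⟨σ, y⟩ * x))‖ ≤ ∫ y : ℝ, K * Real.exp (-(σ * x) + ExR A |σ|) * (1 + y ^ 2)⁻¹ := by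
            refine norm_integral_le_of_norm_le (integrable_inv_one_add_sq.const_mul _) (Eventually.of_forall fun y => ?_)
            rw [norm_mul, Complex.norm_exp]
            have h3 : (-((⟨σ, y⟩ : ℂ) * (x : ℂ))).re = -(σ * x) := by
              rw [Complex.neg_re, Complex.re_mul_ofReal]
            rw [h3, Real.exp_add]
            have h4 := hb ⟨σ, y⟩
            calc ‖H ⟨σ, y⟩‖ * Real.exp (-(σ * x)) ≤ (K * Real.exp (ExR A |σ|) / (1 + y ^ 2)) * Real.exp (-(σ * x)) :=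
                  mul_le_mul_of_nonneg_right h4 (Real.exp_pos _).le
              _ = _ := by rw [div_eq_mul_inv]; ring
        _ = _ := by rw [integral_const_mul, integral_univ_inv_one_add_sq]
    rw [h1]
    have h5 : 0 < K * Real.exp (-(σ * x) + ExR A |σ|) := by positivity
    calc 1 / (2 * Real.pi) * ‖∫ y : ℝ, H ⟨σ, y⟩ * cexp (-(⟨σ, y⟩ * x))‖ ≤
        1 / (2 * Real.pi) * (K * Real.exp (-(σ * x) + ExR A |σ|) * Real.pi) := by gcongr
      _ = K * Real.exp (-(σ * x) + ExR A |σ|) / 2 := by field_simp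
      _ ≤ _ := by linarith
  have hdec : ∀ x, ‖φ x‖ ≤ K * Real.exp (4 * A * (1 + |x|) - ccR * Real.exp (2 * |x| / P.m)) := by
    intro x
    obtain ⟨σ, hσ, hopt⟩ := optR hA x
    rcases le_total 0 x with h | h
    · have h1 := hnorm σ x
      rw [abs_of_nonneg hσ] at h1
      rw [abs_of_nonneg h] at hopt ⊢
      exact h1.trans (mul_le_mul_of_nonneg_left (Real.exp_le_exp.2 hopt) hK.le)
    · have h1 := hnorm (-σ) x
      rw [abs_neg, abs_of_nonneg hσ] at h1
      rw [abs_of_nonpos h] at hopt ⊢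
      refine h1.trans (mul_le_mul_of_nonneg_left (Real.exp_le_exp.2 ?_) hK.le)
      linarith
  have hcont : Continuous φ := by
    simp only [hφ]
    refine continuous_const.mul ?_
    refine continuous_of_dominated (F := fun (x : ℝ) (y : ℝ) => H ⟨0, y⟩ * cexp (-(⟨0, y⟩ * x)))
      (bound := fun y => ‖H ⟨0, y⟩‖) (fun x => ?_) (fun x => ?_) (hint 0).norm (Eventually.of_forall fun y => ?_)
    · exact ((hct 0).mul (Complex.continuous_exp.comp (((line_ct 0).mul continuous_const).neg))).aestronglyMeasurable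
    · refine Eventually.of_forall fun y => ?_
      rw [norm_mul, Complex.norm_exp]
      have h3 : (-((⟨0, y⟩ : ℂ) * (x : ℂ))).re = 0 := by
        rw [Complex.neg_re, Complex.re_mul_ofReal, zero_mul, neg_zero]
      rw [h3, Real.exp_zero, mul_one]
    · fun_prop
  have hexpi : ∀ w : ℂ, Integrable (fun x : ℝ => φ x * cexp (w * x)) := by
    intro w
    obtain ⟨C, hC, hd⟩ := dblR (B := 4 * A + |w.re|) (by positivity)
    set C2 := K * (C * Real.exp ((4 * A + |w.re| + 1) * (1 + 0) - ccR * Real.exp (2 * 0 / P.m))) with hC2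
    refine (integrable_inv_one_add_sq.const_mul C2).mono' (hcont.mul (by fun_prop)).aestronglyMeasurable
      (Eventually.of_forall fun x => ?_)
    have hx := abs_nonneg x
    rw [norm_mul, Complex.norm_exp]
    have h3 : (w * (x : ℂ)).re ≤ |w.re| * (1 + |x|) := by
      rw [Complex.re_mul_ofReal]
      calc w.re * x ≤ |w.re * x| := le_abs_self _
        _ = |w.re| * |x| := abs_mul _ _
        _ ≤ _ := mul_le_mul_of_nonneg_left (by linarith) (abs_nonneg _)
    have h4 := hd 0 |x| le_rfl hx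
    rw [sq_abs] at h4
    calc ‖φ x‖ * Real.exp (w * (x : ℂ)).re ≤ (K * Real.exp (4 * A * (1 + |x|) - ccR * Real.exp (2 * |x| / P.m))) *
          Real.exp (|w.re| * (1 + |x|)) := mul_le_mul (hdec x) (Real.exp_le_exp.2 h3) (Real.exp_pos _).le (by positivity)
      _ = K * Real.exp ((4 * A + |w.re|) * (1 + |x|) - ccR * Real.exp (2 * |x| / P.m)) := by
          rw [mul_assoc, ← Real.exp_add]; congr 2; ring
      _ = K * (Real.exp ((4 * A + |w.re|) * (1 + |x|) - ccR * Real.exp (2 * |x| / P.m)) * (1 + x ^ 2)) * (1 + x ^ 2)⁻¹ := by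
          field_simp
      _ ≤ K * (C * Real.exp ((4 * A + |w.re| + 1) * (1 + 0) - ccR * Real.exp (2 * 0 / P.m))) * (1 + x ^ 2)⁻¹ := by gcongr
  refine ⟨hcont, hdec, hexpi, fun w => ?_⟩
  -- Fourier inversion
  set g : ℝ → ℂ := fun y => H ⟨w.re, y⟩ with hg
  set ψ : ℝ → ℂ := fun x => φ x * cexp ((w.re : ℂ) * x) with hψ
  have hψi : Integrable ψ := hexpi (w.re : ℂ)
  have hF : ∀ ξ : ℝ, 𝓕 g ξ = 2 * Real.pi * ψ (2 * Real.pi * ξ) := by
    intro ξ
    rw [Real.fourier_real_eq_integral_exp_smul]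
    simp only [hψ]
    rw [hshift w.re (2 * Real.pi * ξ)]
    have e1 : ∀ y : ℝ, cexp (((-2 * Real.pi * y * ξ : ℝ) : ℂ) * I) • g y =
        cexp ((w.re : ℂ) * ((2 * Real.pi * ξ : ℝ) : ℂ)) * (H ⟨w.re, y⟩ * cexp (-(⟨w.re, y⟩ * ((2 * Real.pi * ξ : ℝ) : ℂ)))) := by
      intro y
      rw [smul_eq_mul, mul_left_comm, ← Complex.exp_add, mul_comm]
      congr 2
      rw [H370.mk_eq]
      push_cast
      ring
    simp only [e1]
    rw [integral_const_mul]
    have : (Real.pi : ℂ) ≠ 0 := by exact_mod_cast hpi.ne'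
    field_simp
  have hFi : Integrable (𝓕 g) := by
    have h1 : Integrable (fun ξ : ℝ => (2 * Real.pi : ℂ) * ψ (2 * Real.pi * ξ)) :=
      (hψi.comp_mul_left' (by positivity : (2 * Real.pi : ℝ) ≠ 0)).const_mul _
    exact h1.congr (Eventually.of_forall fun ξ => (hF ξ).symm)
  have hinv : 𝓕⁻ (𝓕 fun y : ℝ => H ⟨w.re, y⟩) w.im = H w :=
    congrFun ((hct w.re).fourierInv_fourier_eq (hint w.re) hFi) w.im
  rw [← hinv, Real.fourierInv_eq']
  have e3 : ∀ ξ : ℝ, cexp (((2 * Real.pi * inner ℝ ξ w.im : ℝ) : ℂ) * I) • 𝓕 (fun y : ℝ => H ⟨w.re, y⟩) ξ =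
      2 * Real.pi * (fun x : ℝ => φ x * cexp (w * x)) (2 * Real.pi * ξ) := by
    intro ξ
    have h5 : 𝓕 (fun y : ℝ => H ⟨w.re, y⟩) ξ = 2 * Real.pi * ψ (2 * Real.pi * ξ) := hF ξ
    rw [h5, smul_eq_mul]
    simp only [hψ]
    have h6 : inner ℝ ξ w.im = ξ * w.im := by
      simp [mul_comm]
    rw [h6]
    have h7 : w * ((2 * Real.pi * ξ : ℝ) : ℂ) = (w.re : ℂ) * ((2 * Real.pi * ξ : ℝ) : ℂ) + ((2 * Real.pi * (ξ * w.im) : ℝ) : ℂ) * I := by
      conv_lhs => rw [← Complex.re_add_im w]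
      push_cast
      ring
    rw [h7, Complex.exp_add]
    ring
  simp only [e3]
  rw [integral_const_mul]
  have h8 : (∫ x : ℝ, φ (2 * Real.pi * x) * cexp (w * ((2 * Real.pi * x : ℝ) : ℂ))) =
      |(2 * Real.pi)⁻¹| • ∫ x : ℝ, φ x * cexp (w * x) :=
    Measure.integral_comp_mul_left (fun x : ℝ => φ x * cexp (w * x)) (2 * Real.pi)
  rw [h8, abs_of_pos (by positivity), Complex.real_smul]
  have : (Real.pi : ℂ) ≠ 0 := by exact_mod_cast hpi.ne'
  push_cast
  field_simp


end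

end Pool.Agent.Q97.RL
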