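import Pool.Agent.Q97.RL.S2
import Pool.Agent.Q97.RL.K4

set_option autoImplicit false
set_option linter.unusedSectionVars false
set_option maxHeartbeats 2000000

/-!
# Project RGL: bounds for the kernel function, uniform in the strip
-/

open Complex Filter Topology Set MeasureTheory Metric
open scoped ComplexConjugate FourierTransform

namespace Pool.Agent.Q97.RL

open Pool.Agent
open Pool.Agent.Y23 (TT Fa)
open Pool.Agent.Y23.G

variable [L : LFun]

lemma Th_phi (ε x : ℝ) : Th (L := L) ((x : ℂ) + ε * I) = phi (HR (L := L) ε) x := by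
  unfold Th phi
  congr 1
  congr 1
  funext y
  unfold HR
  rw [mul_assoc, ← Complex.exp_add]
  congr 2
  ring

lemma ccR_rpL {θ : ℝ} (hθ0 : 0 ≤ θ) (hθ1 : θ < Real.pi / 2) : ccR (P := rpL (L := L) hθ0 hθ1) = cc (L := L) * Real.cos θ := by
  unfold ccR cc
  show Real.pi * L.m * (Real.exp (-(Real.log L.N / L.m)) * Real.cos θ) = _
  ring

/-- the size of the kernel function -/
lemma Th_bound {p δ : ℝ} (hp1 : p < Real.pi / 2) (hδ : 0 < δ) : ∃ A : ℝ, 0 ≤ A ∧ ∀ φ x : ℝ, |φ| ≤ p →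
    ‖Th (L := L) ((x : ℂ) + (L.m * φ / 2 : ℝ) * I)‖ ≤
      Real.exp (A * (1 + |x|) - (cc (L := L) * Real.cos φ - δ) * Real.exp (2 * |x| / L.m)) := by
  have hcc := cc_pos (L := L)
  have hm1 := m_one (L := L)
  have hm0 : (0 : ℝ) < L.m := by linarith
  suffices h : ∃ A : ℝ, 0 ≤ A ∧ ∀ φ x : ℝ, |φ| ∈ Icc 0 p →
      ‖Th (L := L) ((x : ℂ) + (L.m * φ / 2 : ℝ) * I)‖ ≤
      Real.exp (A * (1 + |x|) - (cc (L := L) * Real.cos φ - δ) * Real.exp (2 * |x| / L.m)) by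
    obtain ⟨A, hA, h⟩ := h
    exact ⟨A, hA, fun φ x hφ => h φ x ⟨abs_nonneg _, hφ⟩⟩
  have hmonoA : ∀ (A B : ℝ) (φ x : ℝ), A ≤ B → Real.exp (A * (1 + |x|) - (cc (L := L) * Real.cos φ - δ) * Real.exp (2 * |x| / L.m)) ≤
      Real.exp (B * (1 + |x|) - (cc (L := L) * Real.cos φ - δ) * Real.exp (2 * |x| / L.m)) := by
    intro A B φ x hAB
    refine Real.exp_le_exp.2 ?_
    have := mul_le_mul_of_nonneg_right hAB (by positivity : 0 ≤ 1 + |x|)
    linarith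
  refine isCompact_Icc.induction_on (p := fun S : Set ℝ => ∃ A : ℝ, 0 ≤ A ∧ ∀ φ x : ℝ, |φ| ∈ S →
      ‖Th (L := L) ((x : ℂ) + (L.m * φ / 2 : ℝ) * I)‖ ≤
      Real.exp (A * (1 + |x|) - (cc (L := L) * Real.cos φ - δ) * Real.exp (2 * |x| / L.m))) ⟨0, le_rfl, fun φ x h => absurd h (notMem_empty _)⟩
      (fun s t hst ⟨A, hA, h⟩ => ⟨A, hA, fun φ x hx => h φ x (hst hx)⟩) (fun s t ⟨A, hA, h⟩ ⟨B, hB, h'⟩ => ⟨max A B, le_max_of_le_left hA, fun φ x hx => ?_⟩)
      (fun φ0 hφ0 => ?_)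
  · rcases hx with hx | hx
    · exact (h φ x hx).trans (hmonoA _ _ _ _ (le_max_left _ _))
    · exact (h' φ x hx).trans (hmonoA _ _ _ _ (le_max_right _ _))
  · obtain ⟨θ, hθ1, hθ2, hθ3⟩ := exists_angle (L := L) (u := φ0) (c2 := cc (L := L) * Real.cos φ0 - δ / 2) (lt_of_le_of_lt hφ0.2 hp1) (by linarith)
    have hθ0 : 0 ≤ θ := hφ0.1.trans hθ1.le
    obtain ⟨A, hA, hb⟩ := X_allRU (L := L) hθ0 hθ2
    refine ⟨{ψ | ψ < θ} ∩ {ψ | cc (L := L) * Real.cos ψ < cc (L := L) * Real.cos φ0 + δ / 2}, mem_nhdsWithin_of_mem_nhds ?_, 4 * A, by positivity, fun φ x hφ => ?_⟩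
    · refine inter_mem (Iio_mem_nhds hθ1) ?_
      have h1 : Continuous (fun x : ℝ => cc (L := L) * Real.cos x) := continuous_const.mul Real.continuous_cos
      exact (h1.tendsto φ0).eventually (gt_mem_nhds (by linarith))
    · obtain ⟨h1, h2⟩ := hφ
      simp only [mem_ofPred_eq] at h1 h2
      rw [Real.cos_abs] at h2
      have hε : |L.m * φ / 2| ≤ L.m * θ / 2 := by
        rw [abs_div, abs_mul, abs_of_pos hm0, abs_two]
        have := mul_le_mul_of_nonneg_left h1.le hm0.le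
        linarith
      rw [Th_phi]
      obtain ⟨-, h3, -, -⟩ := inv_phi (P := rpL (L := L) hθ0 hθ2) hA one_pos (H := HR (L := L) (L.m * φ / 2)) (HR_diff (L := L) _)
        (fun w => by rw [one_mul]; exact hb _ hε w)
      have h4 := h3 x
      rw [ccR_rpL, one_mul] at h4
      refine h4.trans (Real.exp_le_exp.2 ?_)
      have h5 : 0 < Real.exp (2 * |x| / L.m) := Real.exp_pos _
      have h6 : (cc (L := L) * Real.cos φ - δ) * Real.exp (2 * |x| / L.m) ≤ cc (L := L) * Real.cos θ * Real.exp (2 * |x| / L.m) :=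
        mul_le_mul_of_nonneg_right (by linarith) h5.le
      have h7 : Real.exp (2 * |x| / (rpL (L := L) hθ0 hθ2).m) = Real.exp (2 * |x| / L.m) := rfl
      rw [h7]
      linarith

/-- the transforms -/
lemma Th_trans {p : ℝ} (hp1 : p < Real.pi / 2) {φ : ℝ} (hφ : |φ| ≤ p) :
    (∀ w : ℂ, Integrable (fun x : ℝ => Th (L := L) ((x : ℂ) + (L.m * φ / 2 : ℝ) * I) * cexp (w * x))) ∧
      ∀ w : ℂ, ∫ x : ℝ, Th (L := L) ((x : ℂ) + (L.m * φ / 2 : ℝ) * I) * cexp (w * x) = HR (L := L) (L.m * φ / 2) w := by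
  have hm1 := m_one (L := L)
  have hm0 : (0 : ℝ) < L.m := by linarith
  have hp0 : 0 ≤ p := (abs_nonneg _).trans hφ
  obtain ⟨A, hA, hb⟩ := X_allRU (L := L) hp0 hp1
  have hε : |L.m * φ / 2| ≤ L.m * p / 2 := by
    rw [abs_div, abs_mul, abs_of_pos hm0, abs_two]
    have := mul_le_mul_of_nonneg_left hφ hm0.le
    linarith
  obtain ⟨-, -, h3, h4⟩ := inv_phi (P := rpL (L := L) hp0 hp1) hA one_pos (H := HR (L := L) (L.m * φ / 2)) (HR_diff (L := L) _)
    (fun w => by rw [one_mul]; exact hb _ hε w)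
  simp only [Th_phi]
  exact ⟨h3, h4⟩

end Pool.Agent.Q97.RL
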