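import Mathlib

set_option autoImplicit false
set_option linter.unusedSectionVars false
set_option maxHeartbeats 2000000

/-!
# Project RGL: superposed kernels, cancellation beyond the end points
-/

open Complex Filter Topology Set MeasureTheory Metric
open scoped ComplexConjugate Interval

namespace Pool.Agent.Q97.RL

/-- exponential domination -/
lemma quad_dom {m A δ : ℝ} (hm : 1 ≤ m) (hA : 0 ≤ A) (hδ : 0 < δ) : ∃ C : ℝ, 0 ≤ C ∧ ∀ t : ℝ, 0 ≤ t →
    A * (1 + t) - δ * Real.exp (2 * t / m) ≤ C - 6 * t := by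
  have hm0 : 0 < m := by linarith
  refine ⟨A + (A + 6) ^ 2 * m ^ 2 / (8 * δ), by positivity, fun t ht => ?_⟩
  have h1 := Real.quadratic_le_exp_of_nonneg (x := 2 * t / m) (by positivity)
  have h2 : 0 ≤ 2 * t / m := by positivity
  have h3 : 2 * t ^ 2 / m ^ 2 ≤ Real.exp (2 * t / m) := by
    have : (2 * t / m) ^ 2 / 2 = 2 * t ^ 2 / m ^ 2 := by ring
    linarith
  have h4 := mul_le_mul_of_nonneg_left h3 hδ.le
  have h5 : (A + 6) * t ≤ δ * (2 * t ^ 2 / m ^ 2) + (A + 6) ^ 2 * m ^ 2 / (8 * δ) := by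
    have h6 : δ * (2 * t ^ 2 / m ^ 2) + (A + 6) ^ 2 * m ^ 2 / (8 * δ) - (A + 6) * t = 2 * δ / m ^ 2 * (t - (A + 6) * m ^ 2 / (4 * δ)) ^ 2 := by
      field_simp
      ring
    have h7 : 0 ≤ 2 * δ / m ^ 2 * (t - (A + 6) * m ^ 2 / (4 * δ)) ^ 2 := by positivity
    linarith
  linarith

lemma norm_cexp_cosh (a v φ : ℝ) : ‖cexp (a * Complex.cosh (v + φ * I))‖ = Real.exp (a * (Real.cosh v * Real.cos φ)) := by
  rw [Complex.norm_exp, Complex.re_ofReal_mul]
  congr 2
  rw [Complex.cosh_add, Complex.cosh_mul_I, Complex.sinh_mul_I]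
  have h1 : Complex.cosh (v : ℂ) = ((Real.cosh v : ℝ) : ℂ) := (Complex.ofReal_cosh v).symm
  have h2 : Complex.sinh (v : ℂ) = ((Real.sinh v : ℝ) : ℂ) := (Complex.ofReal_sinh v).symm
  have h3 : Complex.cos (φ : ℂ) = ((Real.cos φ : ℝ) : ℂ) := (Complex.ofReal_cos φ).symm
  have h4 : Complex.sin (φ : ℂ) = ((Real.sin φ : ℝ) : ℂ) := (Complex.ofReal_sin φ).symm
  rw [h1, h2, h3, h4]
  simp
  exact Or.inl (Complex.cos_ofReal_re φ)

/-- the size of the integrand -/
lemma G_bound {m c δ A C p : ℝ} (hm : 1 ≤ m) (hc : 0 < c) (hC : ∀ t : ℝ, 0 ≤ t → A * (1 + t) - δ * Real.exp (2 * t / m) ≤ C - 6 * t)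
    (hp1 : p < Real.pi / 2) {Θ : ℂ → ℂ}
    (hb : ∀ φ x : ℝ, |φ| ≤ p → ‖Θ ((x : ℂ) + (m * φ / 2 : ℝ) * I)‖ ≤ Real.exp (A * (1 + |x|) - (c * Real.cos φ + δ) * Real.exp (2 * |x| / m)))
    {b x t φ : ℝ} (hb0 : 0 ≤ b) (hbx : b ≤ x) (hxt : x ≤ t) (hφ : |φ| ≤ p) :
    ‖cexp ((2 * c * Real.exp (2 * b / m) : ℝ) * Complex.cosh ((2 / m : ℝ) * (((t : ℂ) + (m * φ / 2 : ℝ) * I) - x))) * Θ ((t : ℂ) + (m * φ / 2 : ℝ) * I)‖ ≤
      Real.exp (c * Real.exp (2 * b / m) * Real.cos φ + C - 6 * t) := by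
  have hm0 : 0 < m := by linarith
  have ht0 : 0 ≤ t := by linarith
  have hcos : 0 ≤ Real.cos φ := by
    refine Real.cos_nonneg_of_mem_Icc ⟨?_, ?_⟩
    · have := neg_abs_le φ; linarith
    · have := le_abs_self φ; linarith
  set E : ℝ := Real.exp (2 * b / m) with hE
  have hE0 : 0 < E := Real.exp_pos _
  have e1 : ((2 / m : ℝ) : ℂ) * (((t : ℂ) + (m * φ / 2 : ℝ) * I) - x) = ((2 * (t - x) / m : ℝ) : ℂ) + (φ : ℂ) * I := by
    have : (m : ℂ) ≠ 0 := by exact_mod_cast hm0.ne'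
    push_cast
    field_simp
    ring
  rw [norm_mul, e1, norm_cexp_cosh]
  set v : ℝ := 2 * (t - x) / m with hv
  have h1 := hb φ t hφ
  rw [abs_of_nonneg ht0] at h1
  have h2 : 2 * E * Real.cosh v ≤ Real.exp (2 * t / m) + E := by
    rw [Real.cosh_eq]
    have h3 : E * Real.exp v ≤ Real.exp (2 * t / m) := by
      rw [hE, ← Real.exp_add]
      refine Real.exp_le_exp.2 ?_
      rw [hv, ← add_div, div_le_div_iff_of_pos_right hm0]
      linarith
    have h4 : E * Real.exp (-v) ≤ E := by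
      refine mul_le_of_le_one_right hE0.le ?_
      rw [Real.exp_le_one_iff, hv]
      have : 0 ≤ 2 * (t - x) / m := div_nonneg (by linarith) hm0.le
      linarith
    have h5 : 2 * E * ((Real.exp v + Real.exp (-v)) / 2) = E * Real.exp v + E * Real.exp (-v) := by ring
    rw [h5]
    linarith
  have h3 := mul_le_mul_of_nonneg_left h2 (mul_nonneg hc.le hcos)
  have h4 := hC t ht0
  calc Real.exp (2 * c * E * (Real.cosh v * Real.cos φ)) * ‖Θ ((t : ℂ) + (m * φ / 2 : ℝ) * I)‖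
      ≤ Real.exp (2 * c * E * (Real.cosh v * Real.cos φ)) * Real.exp (A * (1 + t) - (c * Real.cos φ + δ) * Real.exp (2 * t / m)) := by gcongr
    _ = Real.exp (2 * c * E * (Real.cosh v * Real.cos φ) + (A * (1 + t) - (c * Real.cos φ + δ) * Real.exp (2 * t / m))) := (Real.exp_add _ _).symm
    _ ≤ _ := by
        refine Real.exp_le_exp.2 ?_
        nlinarith

/-- beyond the end point -/
lemma tail_right {m c δ A p : ℝ} (hm : 1 ≤ m) (hc : 0 < c) (hδ : 0 < δ) (hA : 0 ≤ A) (hp0 : 0 ≤ p) (hp1 : p < Real.pi / 2) :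
    ∃ K : ℝ, 0 < K ∧ ∀ Θ : ℂ → ℂ, (∀ z : ℂ, |z.im| ≤ m * p / 2 → DifferentiableAt ℂ Θ z) →
    (∀ φ x : ℝ, |φ| ≤ p → ‖Θ ((x : ℂ) + (m * φ / 2 : ℝ) * I)‖ ≤ Real.exp (A * (1 + |x|) - (c * Real.cos φ + δ) * Real.exp (2 * |x| / m))) →
    ∀ b x : ℝ, 0 ≤ b → b ≤ x → ‖∫ φ in (-p)..p, cexp ((2 * c * Real.exp (2 * b / m) * Real.cos φ : ℝ)) * Θ ((x : ℂ) + (m * φ / 2 : ℝ) * I)‖ ≤
      K * Real.exp (c * Real.exp (2 * b / m) * Real.cos p - 5 * x) := by
  have hpi := Real.pi_pos
  have hm0 : 0 < m := by linarith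
  obtain ⟨C, hC0, hC⟩ := quad_dom hm hA hδ
  refine ⟨8 * Real.pi * Real.exp C, by positivity, fun Θ hd hb b x hb0 hbx => ?_⟩
  have hx0 : 0 ≤ x := hb0.trans hbx
  set E : ℝ := Real.exp (2 * b / m) with hE
  have hE0 : 0 < E := Real.exp_pos _
  set G : ℂ → ℂ := fun z => cexp ((2 * c * E : ℝ) * Complex.cosh ((2 / m : ℝ) * (z - x))) * Θ z with hG
  have hGd : ∀ z : ℂ, |z.im| ≤ m * p / 2 → DifferentiableAt ℂ G z := by
    intro z hz
    simp only [hG]
    refine DifferentiableAt.mul ?_ (hd z hz)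
    have : Differentiable ℂ (fun z : ℂ => cexp ((2 * c * E : ℝ) * Complex.cosh ((2 / m : ℝ) * (z - x)))) := by fun_prop
    exact this z
  have hGb : ∀ (t φ : ℝ), x ≤ t → |φ| ≤ p → ‖G ((t : ℂ) + (m * φ / 2 : ℝ) * I)‖ ≤ Real.exp (c * E * Real.cos φ + C - 6 * t) :=
    fun t φ ht hφ => G_bound hm hc hC hp1 hb hb0 hbx ht hφ
  -- the vertical line
  set V : ℝ → ℂ := fun T => ∫ y in (-(m * p / 2))..(m * p / 2), G ((T : ℂ) + (y : ℂ) * I) with hV
  set F : ℂ := ∫ φ in (-p)..p, cexp ((2 * c * E * Real.cos φ : ℝ)) * Θ ((x : ℂ) + (m * φ / 2 : ℝ) * I) with hF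
  have hVx : V x = (m / 2 : ℝ) • F := by
    simp only [hV, hF]
    have h1 := intervalIntegral.smul_integral_comp_mul_left (fun y : ℝ => G ((x : ℂ) + (y : ℂ) * I)) (a := -p) (b := p) (m / 2)
    have e1 : m / 2 * -p = -(m * p / 2) := by ring
    have e2 : m / 2 * p = m * p / 2 := by ring
    rw [e1, e2] at h1
    rw [← h1]
    congr 1
    refine intervalIntegral.integral_congr fun φ _ => ?_
    simp only [hG]
    have e3 : ((2 / m : ℝ) : ℂ) * ((x : ℂ) + ((m / 2 * φ : ℝ) : ℂ) * I - x) = (φ : ℂ) * I := by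
      have : (m : ℂ) ≠ 0 := by exact_mod_cast hm0.ne'
      push_cast
      field_simp
      ring
    have e4 : ((m / 2 * φ : ℝ) : ℂ) = ((m * φ / 2 : ℝ) : ℂ) := by congr 1; ring
    rw [e3, Complex.cosh_mul_I, e4]
    congr 2
    push_cast
    ring
  set P : ℝ := m * p / 2 with hP
  have hP0 : 0 ≤ P := by positivity
  -- Cauchy's theorem
  have hcauchy : ∀ T : ℝ, x ≤ T → ‖V x‖ ≤ 4 * Real.pi * Real.exp C * Real.exp (c * E * Real.cos p - 5 * x) + m * p * Real.exp (c * E + C) * Real.exp (-T) := by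
    intro T hT
    have h1 := Complex.integral_boundary_rect_eq_zero_of_differentiableOn G ((x : ℂ) - (P : ℂ) * I) ((T : ℂ) + (P : ℂ) * I) (fun z hz => by
      refine (hGd z ?_).differentiableWithinAt
      have h2 := (mem_reProdIm.1 hz).2
      simp only [sub_im, ofReal_im, mul_im, ofReal_re, I_im, mul_one, I_re, mul_zero, add_zero, zero_sub, add_im, zero_add] at h2
      rw [uIcc_of_le (by linarith)] at h2
      exact abs_le.2 h2)
    simp only [sub_re, ofReal_re, mul_re, I_re, mul_zero, ofReal_im, I_im, mul_one, sub_self, sub_zero, add_re, add_zero, sub_im, mul_im, zero_sub, add_im, zero_add,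
      smul_eq_mul] at h1
    have h2 : I * V x = (∫ t in x..T, G ((t : ℂ) + ((-P : ℝ) : ℂ) * I)) - (∫ t in x..T, G ((t : ℂ) + ((P : ℝ) : ℂ) * I)) + I * V T := by
      simp only [hV]
      linear_combination (-1 : ℂ) * h1
    have hhor : ∀ φ : ℝ, |φ| ≤ p → Real.cos φ = Real.cos p → ‖∫ t in x..T, G ((t : ℂ) + ((m * φ / 2 : ℝ) : ℂ) * I)‖ ≤
        2 * Real.pi * Real.exp C * Real.exp (c * E * Real.cos p - 5 * x) := by
      intro φ hφ hcos
      have h3 : ∀ t ∈ Ι x T, ‖G ((t : ℂ) + ((m * φ / 2 : ℝ) : ℂ) * I)‖ ≤ 2 * Real.exp C * Real.exp (c * E * Real.cos p - 5 * x) * (1 + t ^ 2)⁻¹ := by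
        intro t ht
        rw [uIoc_of_le hT] at ht
        have ht0 : 0 ≤ t := hx0.trans ht.1.le
        have h4 := hGb t φ ht.1.le hφ
        rw [hcos] at h4
        refine h4.trans ?_
        have h5 : 1 + t ^ 2 ≤ 2 * Real.exp t := by
          have := Real.quadratic_le_exp_of_nonneg ht0
          nlinarith
        have h6 : Real.exp (-t) ≤ 2 * (1 + t ^ 2)⁻¹ := by
          rw [Real.exp_neg, ← div_eq_mul_inv, inv_eq_one_div, div_le_div_iff₀ (Real.exp_pos _) (by positivity)]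
          linarith
        calc Real.exp (c * E * Real.cos p + C - 6 * t) ≤ Real.exp (C + (c * E * Real.cos p - 5 * x) + -t) := by
              refine Real.exp_le_exp.2 ?_
              have := ht.1
              linarith
          _ = Real.exp C * Real.exp (c * E * Real.cos p - 5 * x) * Real.exp (-t) := by rw [Real.exp_add, Real.exp_add]
          _ ≤ Real.exp C * Real.exp (c * E * Real.cos p - 5 * x) * (2 * (1 + t ^ 2)⁻¹) := by gcongr
          _ = _ := by ring
      have hii : IntervalIntegrable (fun t : ℝ => 2 * Real.exp C * Real.exp (c * E * Real.cos p - 5 * x) * (1 + t ^ 2)⁻¹) volume x T :=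
        (integrable_inv_one_add_sq.const_mul _).intervalIntegrable
      have h4 := intervalIntegral.norm_integral_le_of_norm_le hT (Eventually.of_forall fun t ht => h3 t (by rw [uIoc_of_le hT]; exact ht)) hii
      refine h4.trans ?_
      rw [intervalIntegral.integral_const_mul, integral_inv_one_add_sq]
      have h5 : Real.arctan T - Real.arctan x ≤ Real.pi := by
        have := Real.arctan_lt_pi_div_two T
        have := Real.neg_pi_div_two_lt_arctan x
        linarith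
      have h6 : 0 < Real.exp C * Real.exp (c * E * Real.cos p - 5 * x) := by positivity
      calc 2 * Real.exp C * Real.exp (c * E * Real.cos p - 5 * x) * (Real.arctan T - Real.arctan x) ≤
            2 * Real.exp C * Real.exp (c * E * Real.cos p - 5 * x) * Real.pi := mul_le_mul_of_nonneg_left h5 (by positivity)
        _ = _ := by ring
    have h5 := hhor (-p) (by rw [abs_neg, abs_of_nonneg hp0]) (Real.cos_neg p)
    have h6 := hhor p (by rw [abs_of_nonneg hp0]) rfl
    have e5 : m * -p / 2 = -P := by rw [hP]; ring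
    rw [e5] at h5
    have h7 : ‖V T‖ ≤ m * p * Real.exp (c * E + C) * Real.exp (-T) := by
      have h8 : ∀ y ∈ Ι (-P) P, ‖G ((T : ℂ) + (y : ℂ) * I)‖ ≤ Real.exp (c * E + C) * Real.exp (-T) := by
        intro y hy
        rw [uIoc_of_le (by linarith)] at hy
        have hy2 : |2 * y / m| ≤ p := by
          have h9 : |y| ≤ P := abs_le.2 ⟨hy.1.le, hy.2⟩
          rw [abs_div, abs_mul, abs_two, abs_of_pos hm0, div_le_iff₀ hm0]
          rw [hP] at h9
          linarith
        have h10 := hGb T (2 * y / m) hT hy2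
        have e6 : m * (2 * y / m) / 2 = y := by field_simp
        rw [e6] at h10
        refine h10.trans ?_
        rw [← Real.exp_add]
        refine Real.exp_le_exp.2 ?_
        have h11 : c * E * Real.cos (2 * y / m) ≤ c * E := mul_le_of_le_one_right (by positivity) (Real.cos_le_one _)
        have : 0 ≤ T := hx0.trans hT
        linarith
      have h9 := intervalIntegral.norm_integral_le_of_norm_le_const h8
      refine h9.trans (le_of_eq ?_)
      rw [show P - -P = m * p by rw [hP]; ring, abs_of_nonneg (by positivity)]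
      ring
    have h8 : ‖V x‖ = ‖I * V x‖ := by rw [norm_mul, Complex.norm_I, one_mul]
    rw [h8, h2]
    have h9 : ‖I * V T‖ = ‖V T‖ := by rw [norm_mul, Complex.norm_I, one_mul]
    refine (norm_add_le _ _).trans ?_
    rw [h9]
    have h10 := norm_sub_le (∫ t in x..T, G ((t : ℂ) + ((-P : ℝ) : ℂ) * I)) (∫ t in x..T, G ((t : ℂ) + ((P : ℝ) : ℂ) * I))
    linarith
  have hlim : Tendsto (fun T : ℝ => 4 * Real.pi * Real.exp C * Real.exp (c * E * Real.cos p - 5 * x) + m * p * Real.exp (c * E + C) * Real.exp (-T)) atTop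
      (𝓝 (4 * Real.pi * Real.exp C * Real.exp (c * E * Real.cos p - 5 * x) + m * p * Real.exp (c * E + C) * 0)) :=
    tendsto_const_nhds.add ((Real.tendsto_exp_neg_atTop_nhds_zero).const_mul _)
  have h1 := ge_of_tendsto hlim (eventually_atTop.2 ⟨x, fun T hT => hcauchy T hT⟩)
  rw [mul_zero, add_zero, hVx, norm_smul, Real.norm_eq_abs, abs_of_pos (by positivity : 0 < m / 2)] at h1
  have h2 : ‖F‖ ≤ 2 * (m / 2 * ‖F‖) := by
    have := norm_nonneg F
    nlinarith
  calc ‖F‖ ≤ 2 * (m / 2 * ‖F‖) := h2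
    _ ≤ 2 * (4 * Real.pi * Real.exp C * Real.exp (c * E * Real.cos p - 5 * x)) := by linarith
    _ = _ := by ring

end Pool.Agent.Q97.RL
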