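import Pool.Agent.Q97.RL.S3
import Pool.Agent.Q97.RL.S4

set_option autoImplicit false
set_option linter.unusedSectionVars false
set_option maxHeartbeats 2000000

/-!
# Project RGL: superposed kernels
-/

open Complex Filter Topology Set MeasureTheory Metric
open scoped ComplexConjugate Interval

namespace Pool.Agent.Q97.RL

open Pool.Agent
open Pool.Agent.Y23 (TT Fa Fa_bdd)
open Pool.Agent.Y23.G

/-- the angle, restricted to `[-p, p]` -/
noncomputable def clm (p φ : ℝ) : ℝ := max (-p) (min p φ)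

lemma clm_ct (p : ℝ) : Continuous (clm p) := continuous_const.max (continuous_const.min continuous_id)

lemma clm_le {p : ℝ} (hp : 0 ≤ p) (φ : ℝ) : |clm p φ| ≤ p := by
  unfold clm
  refine abs_le.2 ⟨le_max_left _ _, max_le (by linarith) (min_le_left _ _)⟩

lemma clm_eq {p φ : ℝ} (h : |φ| ≤ p) : clm p φ = φ := by
  obtain ⟨h1, h2⟩ := abs_le.1 h
  unfold clm
  rw [min_eq_right h2, max_eq_right h1]

variable [L : LFun]

/-- the superposed kernel -/
noncomputable def Sf (k p x : ℝ) : ℂ := ∫ φ in (-p)..p, cexp ((k * Real.cos φ : ℝ)) * Th (L := L) ((x : ℂ) + (L.m * φ / 2 : ℝ) * I)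

/-- its weight -/
noncomputable def AS (k p : ℝ) (w : ℂ) : ℂ := ∫ φ in (-p)..p, cexp ((k * Real.cos φ : ℝ)) * cexp (-(I * (L.m * φ / 2 : ℝ) * w))

lemma joint_ct {p : ℝ} (hp0 : 0 ≤ p) (hp1 : p < Real.pi / 2) (k : ℝ) :
    Continuous (fun z : ℝ × ℝ => cexp ((k * Real.cos z.2 : ℝ)) * Th (L := L) ((z.1 : ℂ) + (L.m * clm p z.2 / 2 : ℝ) * I)) := by
  have hm1 := m_one (L := L)
  have hm0 : (0 : ℝ) < L.m := by linarith
  have h1 : ContinuousOn (Th (L := L)) {z : ℂ | |z.im| < L.m * ((p + Real.pi / 2) / 2) / 2} := fun z hz =>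
    (Th_diff (L := L) (u := (p + Real.pi / 2) / 2) (by linarith [Real.pi_pos]) (by linarith) hz).continuousAt.continuousWithinAt
  have h2 : Continuous (fun z : ℝ × ℝ => ((z.1 : ℂ) + (L.m * clm p z.2 / 2 : ℝ) * I)) := by
    have h3 : Continuous (fun z : ℝ × ℝ => clm p z.2) := (clm_ct p).comp continuous_snd
    have h4 : Continuous (fun z : ℝ × ℝ => ((L.m * clm p z.2 / 2 : ℝ) : ℂ)) :=
      Complex.continuous_ofReal.comp ((continuous_const.mul h3).div_const 2)
    exact (Complex.continuous_ofReal.comp continuous_fst).add (h4.mul continuous_const)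
  have h5 := h1.comp_continuous h2 (fun z => by
    show |((z.1 : ℂ) + (L.m * clm p z.2 / 2 : ℝ) * I).im| < _
    have e : ((z.1 : ℂ) + (L.m * clm p z.2 / 2 : ℝ) * I).im = L.m * clm p z.2 / 2 := by simp
    rw [e, abs_div, abs_mul, abs_two, abs_of_pos hm0]
    have h6 := clm_le hp0 z.2
    have h7 : L.m * |clm p z.2| ≤ L.m * p := mul_le_mul_of_nonneg_left h6 hm0.le
    have h8 : L.m * p < L.m * ((p + Real.pi / 2) / 2) := mul_lt_mul_of_pos_left (by linarith) hm0
    linarith)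
  refine Continuous.mul ?_ h5
  have h6 : Continuous (fun z : ℝ × ℝ => ((k * Real.cos z.2 : ℝ) : ℂ)) :=
    Complex.continuous_ofReal.comp (continuous_const.mul (Real.continuous_cos.comp continuous_snd))
  exact Complex.continuous_exp.comp h6

lemma Sf_clm {p : ℝ} (hp0 : 0 ≤ p) (k x : ℝ) : Sf (L := L) k p x =
    ∫ φ in (-p)..p, cexp ((k * Real.cos φ : ℝ)) * Th (L := L) ((x : ℂ) + (L.m * clm p φ / 2 : ℝ) * I) := by
  unfold Sf
  refine intervalIntegral.integral_congr fun φ hφ => ?_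
  rw [uIcc_of_le (by linarith)] at hφ
  rw [clm_eq (abs_le.2 hφ)]

lemma Sf_ct {p : ℝ} (hp0 : 0 ≤ p) (hp1 : p < Real.pi / 2) (k : ℝ) : Continuous (Sf (L := L) k p) := by
  have h1 : Sf (L := L) k p = fun x : ℝ => ∫ φ in (-p)..p, cexp ((k * Real.cos φ : ℝ)) * Th (L := L) ((x : ℂ) + (L.m * clm p φ / 2 : ℝ) * I) :=
    funext fun x => Sf_clm (L := L) hp0 k x
  rw [h1]
  exact intervalIntegral.continuous_parametric_intervalIntegral_of_continuous' (f := fun (x φ : ℝ) =>
    cexp ((k * Real.cos φ : ℝ)) * Th (L := L) ((x : ℂ) + (L.m * clm p φ / 2 : ℝ) * I)) (joint_ct (L := L) hp0 hp1 k) _ _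

/-- the bounds in the form which is needed -/
lemma Th_bound2 {c p : ℝ} (hp0 : 0 ≤ p) (hp1 : p < Real.pi / 2) (hc : c < cc (L := L)) : ∃ A δ : ℝ, 0 ≤ A ∧ 0 < δ ∧
    ∀ φ x : ℝ, |φ| ≤ p → ‖Th (L := L) ((x : ℂ) + (L.m * φ / 2 : ℝ) * I)‖ ≤
      Real.exp (A * (1 + |x|) - (c * Real.cos φ + δ) * Real.exp (2 * |x| / L.m)) := by
  have hcos : 0 < Real.cos p := Real.cos_pos_of_mem_Ioo ⟨by linarith, hp1⟩
  set δ : ℝ := (cc (L := L) - c) * Real.cos p / 2 with hδ
  have hδ0 : 0 < δ := by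
    have : 0 < cc (L := L) - c := by linarith
    positivity
  obtain ⟨A, hA, h⟩ := Th_bound (L := L) hp1 hδ0
  refine ⟨A, δ, hA, hδ0, fun φ x hφ => (h φ x hφ).trans (Real.exp_le_exp.2 ?_)⟩
  have h1 : Real.cos p ≤ Real.cos φ := by
    rw [← Real.cos_abs φ]
    exact Real.cos_le_cos_of_nonneg_of_le_pi (abs_nonneg _) (by linarith) hφ
  have h2 : c * Real.cos φ + δ ≤ cc (L := L) * Real.cos φ - δ := by
    have := mul_le_mul_of_nonneg_left h1 (by linarith : 0 ≤ cc (L := L) - c)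
    have e : δ + δ = (cc (L := L) - c) * Real.cos p := by rw [hδ]; ring
    nlinarith
  have h3 := mul_le_mul_of_nonneg_right h2 (Real.exp_pos (2 * |x| / L.m)).le
  linarith

/-- the superposed kernel beyond `b` -/
lemma Sf_tail {c p : ℝ} (hp0 : 0 ≤ p) (hp1 : p < Real.pi / 2) (hc0 : 0 < c) (hc : c < cc (L := L)) : ∃ K : ℝ, 0 < K ∧ ∀ b x : ℝ, 0 ≤ b → b ≤ |x| →
    ‖Sf (L := L) (2 * c * Real.exp (2 * b / L.m)) p x‖ ≤ K * Real.exp (c * Real.exp (2 * b / L.m) * Real.cos p - 5 * |x|) := by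
  have hm1 := m_one (L := L)
  have hm0 : (0 : ℝ) < L.m := by linarith
  obtain ⟨A, δ, hA, hδ, hb⟩ := Th_bound2 (L := L) hp0 hp1 hc
  obtain ⟨K, hK, H⟩ := tail_right hm1 hc0 hδ hA hp0 hp1
  have hd : ∀ z : ℂ, |z.im| ≤ L.m * p / 2 → DifferentiableAt ℂ (Th (L := L)) z := fun z hz =>
    Th_diff (L := L) (u := (p + Real.pi / 2) / 2) (by linarith [Real.pi_pos]) (by linarith) (by
      have h8 : L.m * p < L.m * ((p + Real.pi / 2) / 2) := mul_lt_mul_of_pos_left (by linarith) hm0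
      linarith)
  refine ⟨K, hK, fun b x hb0 hbx => ?_⟩
  rcases le_total 0 x with hx | hx
  · rw [abs_of_nonneg hx] at hbx ⊢
    exact H (Th (L := L)) hd hb b x hb0 hbx
  · rw [abs_of_nonpos hx] at hbx ⊢
    have h1 := H (fun z => Th (L := L) (-z)) (fun z hz => by
      have h2 : DifferentiableAt ℂ (Th (L := L)) (-z) := hd (-z) (by rwa [Complex.neg_im, abs_neg])
      exact h2.comp z (differentiable_neg z)) (fun φ x hφ => by
        have h2 := hb (-φ) (-x) (by rwa [abs_neg])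
        rw [abs_neg, Real.cos_neg] at h2
        have e : -((x : ℂ) + (L.m * φ / 2 : ℝ) * I) = ((-x : ℝ) : ℂ) + (L.m * -φ / 2 : ℝ) * I := by push_cast; ring
        rw [e]
        exact h2) b (-x) hb0 hbx
    refine le_trans (le_of_eq ?_) h1
    congr 1
    unfold Sf
    have h3 := intervalIntegral.integral_comp_neg (a := -p) (b := p) (fun φ : ℝ =>
      cexp ((2 * c * Real.exp (2 * b / L.m) * Real.cos φ : ℝ)) * Th (L := L) ((x : ℂ) + (L.m * φ / 2 : ℝ) * I))
    rw [neg_neg] at h3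
    rw [← h3]
    refine intervalIntegral.integral_congr fun φ _ => ?_
    rw [Real.cos_neg]
    congr 2
    push_cast
    ring

/-- the transform of the superposed kernel -/
lemma Sf_trans {p : ℝ} (hp0 : 0 ≤ p) (hp1 : p < Real.pi / 2) (k : ℝ) (w : ℂ) :
    Integrable (fun x : ℝ => Sf (L := L) k p x * cexp (w * x)) ∧
      ∫ x : ℝ, Sf (L := L) k p x * cexp (w * x) = L.X (1 / 2 + w) * AS (L := L) k p w := by
  have hm1 := m_one (L := L)
  have hm0 : (0 : ℝ) < L.m := by linarith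
  have hcc := cc_pos (L := L)
  obtain ⟨A, δ, hA, hδ, hb⟩ := Th_bound2 (L := L) (c := 0) hp0 hp1 hcc
  obtain ⟨C, hC0, hC⟩ := quad_dom hm1 (A := A + |w.re|) (by positivity) hδ
  set ν : Measure ℝ := volume.restrict (Ioc (-p) p) with hν
  set f : ℝ × ℝ → ℂ := fun z => cexp ((k * Real.cos z.2 : ℝ)) * Th (L := L) ((z.1 : ℂ) + (L.m * clm p z.2 / 2 : ℝ) * I) * cexp (w * z.1) with hf
  have hfc : Continuous f := (joint_ct (L := L) hp0 hp1 k).mul (by fun_prop)
  have hfb : ∀ z : ℝ × ℝ, ‖f z‖ ≤ Real.exp |k| * Real.exp C * 2 * (1 + z.1 ^ 2)⁻¹ * 1 := by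
    intro z
    simp only [hf]
    rw [norm_mul, norm_mul, Complex.norm_exp, Complex.norm_exp, Complex.ofReal_re]
    have h1 := hb (clm p z.2) z.1 (clm_le hp0 _)
    rw [zero_mul, zero_add] at h1
    have h2 : (w * (z.1 : ℂ)).re ≤ |w.re| * (1 + |z.1|) := by
      rw [Complex.re_mul_ofReal]
      calc w.re * z.1 ≤ |w.re * z.1| := le_abs_self _
        _ = |w.re| * |z.1| := abs_mul _ _
        _ ≤ _ := mul_le_mul_of_nonneg_left (by linarith) (abs_nonneg _)
    have h3 := hC |z.1| (abs_nonneg _)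
    have h4 : k * Real.cos z.2 ≤ |k| := by
      calc k * Real.cos z.2 ≤ |k * Real.cos z.2| := le_abs_self _
        _ = |k| * |Real.cos z.2| := abs_mul _ _
        _ ≤ |k| * 1 := mul_le_mul_of_nonneg_left (Real.abs_cos_le_one _) (abs_nonneg _)
        _ = _ := mul_one _
    have h5 : Real.exp (-|z.1|) ≤ 2 * (1 + z.1 ^ 2)⁻¹ := by
      have h6 := Real.quadratic_le_exp_of_nonneg (abs_nonneg z.1)
      rw [Real.exp_neg, ← div_eq_mul_inv, inv_eq_one_div, div_le_div_iff₀ (Real.exp_pos _) (by positivity)]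
      rw [sq_abs] at h6
      have := abs_nonneg z.1
      nlinarith
    calc Real.exp (k * Real.cos z.2) * ‖Th (L := L) ((z.1 : ℂ) + (L.m * clm p z.2 / 2 : ℝ) * I)‖ * Real.exp (w * (z.1 : ℂ)).re
        ≤ Real.exp |k| * Real.exp (A * (1 + |z.1|) - δ * Real.exp (2 * |z.1| / L.m)) * Real.exp (|w.re| * (1 + |z.1|)) := by gcongr
      _ = Real.exp |k| * Real.exp ((A + |w.re|) * (1 + |z.1|) - δ * Real.exp (2 * |z.1| / L.m)) := by
          rw [mul_assoc, ← Real.exp_add]
          congr 2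
          ring
      _ ≤ Real.exp |k| * Real.exp (C + -|z.1|) := by
          gcongr
          have := abs_nonneg z.1
          linarith
      _ = Real.exp |k| * Real.exp C * Real.exp (-|z.1|) := by rw [Real.exp_add]; ring
      _ ≤ Real.exp |k| * Real.exp C * (2 * (1 + z.1 ^ 2)⁻¹) := by gcongr
      _ = _ := by ring
  have hfi : Integrable f ((volume : Measure ℝ).prod ν) := by
    refine Integrable.mono' (g := fun z : ℝ × ℝ => Real.exp |k| * Real.exp C * 2 * (1 + z.1 ^ 2)⁻¹ * 1) ?_ hfc.aestronglyMeasurable (Eventually.of_forall hfb)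
    exact (integrable_inv_one_add_sq.const_mul (Real.exp |k| * Real.exp C * 2)).mul_prod (integrable_const (1 : ℝ))
  have h1 : ∀ x : ℝ, Sf (L := L) k p x * cexp (w * x) = ∫ φ, f (x, φ) ∂ν := by
    intro x
    rw [Sf_clm (L := L) hp0, intervalIntegral.integral_of_le (by linarith), ← integral_mul_const]
  refine ⟨?_, ?_⟩
  · simp only [h1]
    exact hfi.integral_prod_left
  · simp only [h1]
    have h2 := integral_integral_swap (f := fun (x φ : ℝ) => f (x, φ)) (μ := (volume : Measure ℝ)) (ν := ν) hfi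
    rw [h2]
    unfold AS
    rw [intervalIntegral.integral_of_le (by linarith), ← integral_const_mul]
    refine setIntegral_congr_fun measurableSet_Ioc fun φ hφ => ?_
    have hφ2 : |φ| ≤ p := abs_le.2 ⟨hφ.1.le, hφ.2⟩
    have h3 := (Th_trans (L := L) hp1 hφ2).2 w
    have h4 : ∀ x : ℝ, f (x, φ) = cexp ((k * Real.cos φ : ℝ)) * (Th (L := L) ((x : ℂ) + (L.m * φ / 2 : ℝ) * I) * cexp (w * x)) := by
      intro x
      simp only [hf]
      rw [clm_eq hφ2, mul_assoc]
    simp only [h4]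
    rw [integral_const_mul, h3]
    unfold HR
    ring

end Pool.Agent.Q97.RL
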