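import Pool.Agent.Q97.RL.S5

set_option autoImplicit false
set_option linter.unusedSectionVars false
set_option maxHeartbeats 2000000

/-!
# Project RGL: the superposed kernel, cut off; the weight
-/

open Complex Filter Topology Set MeasureTheory Metric
open scoped ComplexConjugate Interval

namespace Pool.Agent.Q97.RL

open Pool.Agent
open Pool.Agent.Y23 (TT Fa Fa_bdd differentiable_TT)
open Pool.Agent.Y23.G

variable [L : LFun]

/-- cutting off the superposed kernel -/
lemma cutS {c p : ℝ} (hp0 : 0 ≤ p) (hp1 : p < Real.pi / 2) (hc0 : 0 < c) (hc : c < cc (L := L)) : ∃ C : ℝ, 0 < C ∧ ∀ b : ℝ, 0 ≤ b →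
    ∃ f : ℝ → ℂ, Fa b f ∧ ∀ w : ℂ, |w.re| ≤ 3 →
      ‖TT f w - L.X (1 / 2 + w) * AS (L := L) (2 * c * Real.exp (2 * b / L.m)) p w‖ ≤ C * Real.exp (c * Real.exp (2 * b / L.m) * Real.cos p) := by
  obtain ⟨K, hK, htail⟩ := Sf_tail (L := L) hp0 hp1 hc0 hc
  have hpi := Real.pi_pos
  refine ⟨K * 2 * Real.pi, by positivity, fun b hb0 => ?_⟩
  set k : ℝ := 2 * c * Real.exp (2 * b / L.m) with hk
  set τ := Real.exp (c * Real.exp (2 * b / L.m) * Real.cos p) with hτ
  set φ : ℝ → ℂ := Sf (L := L) k p with hφ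
  have hφc : Continuous φ := Sf_ct (L := L) hp0 hp1 k
  have htr := Sf_trans (L := L) hp0 hp1 k
  set f : ℝ → ℂ := (Icc (-b) b).indicator φ with hf
  obtain ⟨M, hM⟩ := (isCompact_Icc (a := -b) (b := b)).exists_bound_of_continuousOn hφc.continuousOn
  have hfF : Fa b f := by
    refine Fa_bdd (hφc.aestronglyMeasurable.indicator measurableSet_Icc) (C := |M|) (fun x => ?_) (fun x hx => ?_)
    · simp only [hf]
      by_cases h : x ∈ Icc (-b) b
      · rw [indicator_of_mem h]
        exact (hM x h).trans (le_abs_self M)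
      · rw [indicator_of_notMem h, norm_zero]
        exact abs_nonneg _
    · simp only [hf]
      rw [indicator_of_notMem]
      rw [mem_Icc, ← abs_le, not_le]
      exact hx
  refine ⟨f, hfF, fun w hw => ?_⟩
  have h1 : TT f w - L.X (1 / 2 + w) * AS (L := L) k p w = ∫ x : ℝ, (f x - φ x) * cexp (w * x) := by
    rw [← (htr w).2]
    unfold TT
    rw [← integral_sub (hfF.integrable_mul (by fun_prop)) (htr w).1]
    refine integral_congr_ae (Eventually.of_forall fun x => ?_)
    simp only
    ring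
  rw [h1]
  calc ‖∫ x : ℝ, (f x - φ x) * cexp (w * x)‖ ≤ ∫ x : ℝ, K * 2 * τ * (1 + x ^ 2)⁻¹ := by
        refine norm_integral_le_of_norm_le (integrable_inv_one_add_sq.const_mul _) (Eventually.of_forall fun x => ?_)
        have hx2 : 0 < 1 + x ^ 2 := by positivity
        by_cases h : x ∈ Icc (-b) b
        · simp only [hf]
          rw [indicator_of_mem h, sub_self, zero_mul, norm_zero]
          positivity
        · simp only [hf]
          rw [indicator_of_notMem h, zero_sub, norm_mul, norm_neg, Complex.norm_exp]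
          rw [mem_Icc, ← abs_le, not_le] at h
          have h3 : (w * (x : ℂ)).re ≤ 3 * |x| := by
            rw [Complex.re_mul_ofReal]
            calc w.re * x ≤ |w.re * x| := le_abs_self _
              _ = |w.re| * |x| := abs_mul _ _
              _ ≤ 3 * |x| := mul_le_mul_of_nonneg_right hw (abs_nonneg _)
          have h4 := htail b x hb0 h.le
          have h5 : Real.exp (-|x|) ≤ 2 * (1 + x ^ 2)⁻¹ := by
            have h6 := Real.quadratic_le_exp_of_nonneg (abs_nonneg x)
            rw [Real.exp_neg, ← div_eq_mul_inv, inv_eq_one_div, div_le_div_iff₀ (Real.exp_pos _) (by positivity)]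
            rw [sq_abs] at h6
            have := abs_nonneg x
            nlinarith
          calc ‖φ x‖ * Real.exp (w * (x : ℂ)).re ≤
              (K * Real.exp (c * Real.exp (2 * b / L.m) * Real.cos p - 5 * |x|)) * Real.exp (3 * |x|) := by gcongr
            _ = K * (τ * Real.exp (-(2 * |x|))) := by
                rw [mul_assoc, ← Real.exp_add, hτ, ← Real.exp_add]
                congr 2
                ring
            _ ≤ K * (τ * Real.exp (-|x|)) := by
                have := abs_nonneg x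
                gcongr
                linarith
            _ ≤ K * (τ * (2 * (1 + x ^ 2)⁻¹)) := by gcongr
            _ = _ := by ring
    _ = _ := by rw [integral_const_mul, integral_univ_inv_one_add_sq]; ring

/-- with a margin -/
lemma cutS2 {c p : ℝ} (hp0 : 0 ≤ p) (hp1 : p < Real.pi / 2) (hc0 : 0 < c) (hc : c < cc (L := L)) : ∃ η C : ℝ, 0 < η ∧ 0 < C ∧ ∀ b : ℝ, η ≤ b →
    ∃ f : ℝ → ℂ, Fa (b - η) f ∧ ∀ w : ℂ, |w.re| ≤ 3 →
      ‖TT f w - L.X (1 / 2 + w) * AS (L := L) (2 * c * Real.exp (2 * b / L.m)) p w‖ ≤ C * Real.exp (c * Real.exp (2 * b / L.m) * Real.cos p) := by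
  have hm1 := m_one (L := L)
  have hm0 : (0 : ℝ) < L.m := by linarith
  obtain ⟨η, hη, hη2⟩ := exists_etaR hc (L.m : ℝ)
  -- adjust the constant
  set c' : ℝ := c * Real.exp (2 * η / L.m) with hc'
  have hc'0 : 0 < c' := by positivity
  have hc'1 : c' < cc (L := L) := by
    rw [hc']
    have h1 := mul_lt_mul_of_pos_right hη2 (Real.exp_pos (2 * η / L.m))
    rw [mul_assoc, ← Real.exp_add, neg_add_cancel, Real.exp_zero, mul_one] at h1
    exact h1
  obtain ⟨C, hC, H⟩ := cutS (L := L) hp0 hp1 hc'0 hc'1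
  refine ⟨η, C, hη, hC, fun b hb => ?_⟩
  obtain ⟨f, hf, h⟩ := H (b - η) (by linarith)
  have e : c' * Real.exp (2 * (b - η) / L.m) = c * Real.exp (2 * b / L.m) := by
    rw [hc', mul_assoc, ← Real.exp_add]
    congr 2
    ring
  refine ⟨f, hf, fun w hw => ?_⟩
  have h1 := h w hw
  rw [mul_assoc 2 c', e, ← mul_assoc] at h1
  exact h1

/-! ### The weight -/

/-- the size of the weight on the line -/
noncomputable def NS (k p γ : ℝ) : ℝ := ∫ φ in (-p)..p, Real.exp (k * Real.cos φ + L.m * γ / 2 * φ)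

lemma AS_int_norm (k φ : ℝ) (w : ℂ) : ‖cexp ((k * Real.cos φ : ℝ)) * cexp (-(I * (L.m * φ / 2 : ℝ) * w))‖ = Real.exp (k * Real.cos φ + L.m * w.im / 2 * φ) := by
  rw [norm_mul, Complex.norm_exp, Complex.norm_exp, Complex.ofReal_re, ← Real.exp_add]
  congr 2
  simp
  ring

lemma AS_le {p : ℝ} (hp0 : 0 ≤ p) (k : ℝ) (w : ℂ) : ‖AS (L := L) k p w‖ ≤ NS (L := L) k p w.im := by
  unfold AS NS
  refine (intervalIntegral.norm_integral_le_integral_norm (by linarith)).trans (le_of_eq ?_)
  refine intervalIntegral.integral_congr fun φ _ => ?_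
  exact AS_int_norm (L := L) k φ w

lemma NS_ii (k p γ : ℝ) : IntervalIntegrable (fun φ : ℝ => Real.exp (k * Real.cos φ + L.m * γ / 2 * φ)) volume (-p) p :=
  (by fun_prop : Continuous (fun φ : ℝ => Real.exp (k * Real.cos φ + L.m * γ / 2 * φ))).intervalIntegrable _ _

lemma NS_shift {p : ℝ} (hp0 : 0 ≤ p) (k v γ : ℝ) : NS (L := L) k p v ≤ Real.exp (L.m * p / 2 * |v - γ|) * NS (L := L) k p γ := by
  have hm1 := m_one (L := L)
  have hm0 : (0 : ℝ) < L.m := by linarith
  unfold NS
  rw [← intervalIntegral.integral_const_mul]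
  refine intervalIntegral.integral_mono_on (by linarith) (NS_ii (L := L) k p v) ((NS_ii (L := L) k p γ).const_mul _) fun φ hφ => ?_
  rw [← Real.exp_add]
  refine Real.exp_le_exp.2 ?_
  have h1 : |φ| ≤ p := abs_le.2 hφ
  have h2 : L.m / 2 * ((v - γ) * φ) ≤ L.m / 2 * (|v - γ| * p) := by
    refine mul_le_mul_of_nonneg_left ?_ (by positivity)
    calc (v - γ) * φ ≤ |(v - γ) * φ| := le_abs_self _
      _ = |v - γ| * |φ| := abs_mul _ _
      _ ≤ _ := mul_le_mul_of_nonneg_left h1 (abs_nonneg _)
  nlinarith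

lemma NS_le {k p : ℝ} (hk : 0 ≤ k) (hp0 : 0 ≤ p) (γ : ℝ) : NS (L := L) k p γ ≤ 2 * p * Real.exp (k + L.m * p / 2 * |γ|) := by
  have hm1 := m_one (L := L)
  have hm0 : (0 : ℝ) < L.m := by linarith
  unfold NS
  have h0 : ∫ φ in (-p)..p, Real.exp (k + L.m * p / 2 * |γ|) = 2 * p * Real.exp (k + L.m * p / 2 * |γ|) := by
    rw [intervalIntegral.integral_const, smul_eq_mul]
    ring
  rw [← h0]
  refine intervalIntegral.integral_mono_on (by linarith) (NS_ii (L := L) k p γ) (by simp) fun φ hφ => Real.exp_le_exp.2 ?_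
  have h1 : |φ| ≤ p := abs_le.2 hφ
  have h2 : L.m / 2 * (γ * φ) ≤ L.m / 2 * (|γ| * p) := by
    refine mul_le_mul_of_nonneg_left ?_ (by positivity)
    calc γ * φ ≤ |γ * φ| := le_abs_self _
      _ = |γ| * |φ| := abs_mul _ _
      _ ≤ _ := mul_le_mul_of_nonneg_left h1 (abs_nonneg _)
  have h3 : k * Real.cos φ ≤ k := mul_le_of_le_one_right hk (Real.cos_le_one _)
  nlinarith

/-- the weight is entire -/
lemma AS_diff (k p : ℝ) (hp0 : 0 ≤ p) : Differentiable ℂ (AS (L := L) k p) := by
  set f : ℝ → ℂ := (Icc (-p) p).indicator fun φ => cexp ((k * Real.cos φ : ℝ)) with hf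
  have hc : Continuous (fun φ : ℝ => cexp ((k * Real.cos φ : ℝ))) := by fun_prop
  have hfF : Fa p f := by
    refine Fa_bdd (hc.aestronglyMeasurable.indicator measurableSet_Icc) (C := Real.exp |k|) (fun x => ?_) (fun x hx => ?_)
    · simp only [hf]
      by_cases h : x ∈ Icc (-p) p
      · rw [indicator_of_mem h, Complex.norm_exp, Complex.ofReal_re]
        refine Real.exp_le_exp.2 ?_
        calc k * Real.cos x ≤ |k * Real.cos x| := le_abs_self _
          _ = |k| * |Real.cos x| := abs_mul _ _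
          _ ≤ |k| * 1 := mul_le_mul_of_nonneg_left (Real.abs_cos_le_one _) (abs_nonneg _)
          _ = _ := mul_one _
      · rw [indicator_of_notMem h, norm_zero]
        positivity
    · simp only [hf]
      rw [indicator_of_notMem]
      rw [mem_Icc, ← abs_le, not_le]
      exact hx
  have e : AS (L := L) k p = fun w => TT f (-(I * (L.m / 2 : ℝ)) * w) := by
    funext w
    unfold AS TT
    rw [intervalIntegral.integral_of_le (by linarith), ← integral_Icc_eq_integral_Ioc, ← integral_indicator measurableSet_Icc]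
    refine integral_congr_ae (Eventually.of_forall fun φ => ?_)
    simp only [hf]
    by_cases h : φ ∈ Icc (-p) p
    · rw [indicator_of_mem h, indicator_of_mem h]
      congr 2
      push_cast
      ring
    · rw [indicator_of_notMem h, indicator_of_notMem h, zero_mul]
  rw [e]
  exact (differentiable_TT hfF).comp (by fun_prop)

end Pool.Agent.Q97.RL
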