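import Pool.Agent.Q97.RL.S6

set_option autoImplicit false
set_option linter.unusedSectionVars false
set_option maxHeartbeats 2000000

/-!
# Project RGL: the weight from below (Laplace's method)
-/

open Complex Filter Topology Set MeasureTheory Metric
open scoped ComplexConjugate Interval

namespace Pool.Agent.Q97.RL

open Pool.Agent
open Pool.Agent.Y23 (TT Fa Fa_bdd differentiable_TT)
open Pool.Agent.Y23.G

/-- tangent lines of convex functions -/
lemma tangent_le {g g' : ℝ → ℝ} (hd : ∀ x, HasDerivAt g (g' x) x) {a b x y : ℝ}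
    (hmono : ∀ s ∈ Icc a b, ∀ t ∈ Icc a b, s ≤ t → g' s ≤ g' t) (hx : x ∈ Icc a b) (hy : y ∈ Icc a b) : g x + g' x * (y - x) ≤ g y := by
  have hc : Continuous g := continuous_iff_continuousAt.2 fun z => (hd z).continuousAt
  rcases lt_trichotomy x y with h | h | h
  · obtain ⟨c, hc1, hc2⟩ := exists_hasDerivAt_eq_slope g g' h hc.continuousOn fun z _ => hd z
    have h1 := hmono x hx c ⟨hx.1.trans hc1.1.le, hc1.2.le.trans hy.2⟩ hc1.1.le
    have h2 : 0 < y - x := by linarith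
    rw [hc2, le_div_iff₀ h2] at h1
    linarith
  · rw [h]; simp
  · obtain ⟨c, hc1, hc2⟩ := exists_hasDerivAt_eq_slope g g' h hc.continuousOn fun z _ => hd z
    have h1 := hmono c ⟨hy.1.trans hc1.1.le, hc1.2.le.trans hx.2⟩ x hx hc1.2.le
    have h2 : 0 < x - y := by linarith
    rw [hc2, div_le_iff₀ h2] at h1
    linarith

lemma cos_lo (φ φ0 : ℝ) : Real.cos φ0 - Real.sin φ0 * (φ - φ0) - (φ - φ0) ^ 2 / 2 ≤ Real.cos φ := by
  have hmono : Monotone (fun x : ℝ => -Real.sin x + x) := by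
    refine monotone_of_deriv_nonneg (by fun_prop) fun x => ?_
    have : HasDerivAt (fun x : ℝ => -Real.sin x + x) (-Real.cos x + 1) x := (Real.hasDerivAt_sin x).neg.add (hasDerivAt_id x)
    rw [this.deriv]
    linarith [Real.cos_le_one x]
  have h := tangent_le (g := fun x => Real.cos x + x ^ 2 / 2) (g' := fun x => -Real.sin x + x) (fun x => by
    have h1 : HasDerivAt (fun x : ℝ => x ^ 2 / 2) (2 * x / 2) x := by simpa using (hasDerivAt_pow 2 x).div_const 2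
    have h2 := (Real.hasDerivAt_cos x).add h1
    have e : (2 * x / 2 : ℝ) = x := by ring
    rw [e] at h2
    exact h2) (a := min φ φ0) (b := max φ φ0) (fun s _ t _ hst => hmono hst) (x := φ0) (y := φ) ⟨min_le_right _ _, le_max_right _ _⟩ ⟨min_le_left _ _, le_max_left _ _⟩
  nlinarith

lemma cos_hi {φ φ0 p : ℝ} (hp1 : p < Real.pi / 2) (hφ : |φ| ≤ p) (hφ0 : |φ0| ≤ p) :
    Real.cos φ ≤ Real.cos φ0 - Real.sin φ0 * (φ - φ0) - Real.cos p * (φ - φ0) ^ 2 / 2 := by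
  have hcosp : ∀ ξ : ℝ, |ξ| ≤ p → Real.cos p ≤ Real.cos ξ := by
    intro ξ hξ
    rw [← Real.cos_abs ξ]
    exact Real.cos_le_cos_of_nonneg_of_le_pi (abs_nonneg _) (by linarith [Real.pi_pos]) hξ
  have h := tangent_le (g := fun x => -Real.cos x - Real.cos p * (x ^ 2 / 2)) (g' := fun x => Real.sin x - Real.cos p * x) (fun x => by
    have h1 : HasDerivAt (fun x : ℝ => x ^ 2 / 2) (2 * x / 2) x := by simpa using (hasDerivAt_pow 2 x).div_const 2
    have h2 := (Real.hasDerivAt_cos x).neg.sub (h1.const_mul (Real.cos p))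
    have e : (2 * x / 2 : ℝ) = x := by ring
    rw [e, neg_neg] at h2
    exact h2) (a := -p) (b := p) (fun s hs t ht hst => by
    rcases hst.eq_or_lt with h | h
    · rw [h]
    · obtain ⟨c, hc1, hc2⟩ := exists_hasDerivAt_eq_slope Real.sin Real.cos h Real.continuous_sin.continuousOn fun z _ => Real.hasDerivAt_sin z
      have h1 := hcosp c (abs_le.2 ⟨hs.1.trans hc1.1.le, hc1.2.le.trans ht.2⟩)
      rw [hc2, le_div_iff₀ (by linarith)] at h1
      linarith) (x := φ0) (y := φ) (abs_le.1 hφ0) (abs_le.1 hφ)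
  nlinarith

variable [L : LFun]

/-- the value at the saddle point -/
noncomputable def hsd (k φ0 : ℝ) : ℝ := k * (Real.cos φ0 + Real.sin φ0 * φ0)

lemma h_hi {k p φ φ0 γ : ℝ} (hk : 0 ≤ k) (hp1 : p < Real.pi / 2) (hφ : |φ| ≤ p) (hφ0 : |φ0| ≤ p) (hγ : L.m * γ / 2 = k * Real.sin φ0) :
    k * Real.cos φ + L.m * γ / 2 * φ ≤ hsd k φ0 - k * Real.cos p / 2 * (φ - φ0) ^ 2 := by
  have h1 := mul_le_mul_of_nonneg_left (cos_hi hp1 hφ hφ0) hk
  unfold hsd
  rw [hγ]
  nlinarith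

lemma h_lo {k φ φ0 γ : ℝ} (hk : 0 ≤ k) (hγ : L.m * γ / 2 = k * Real.sin φ0) :
    hsd k φ0 - k / 2 * (φ - φ0) ^ 2 ≤ k * Real.cos φ + L.m * γ / 2 * φ := by
  have h1 := mul_le_mul_of_nonneg_left (cos_lo φ φ0) hk
  unfold hsd
  rw [hγ]
  nlinarith

/-- the size of the weight at its saddle point -/
lemma NS_low {r p φ0 γ : ℝ} (hr : 0 < r) (hrp : 1 / r ≤ p) (hφ0 : |φ0| ≤ p) (hγ : L.m * γ / 2 = r ^ 2 * Real.sin φ0) :
    Real.exp (hsd (r ^ 2) φ0) / (2 * r) ≤ NS (L := L) (r ^ 2) p γ := by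
  have hsub : ∀ a b : ℝ, -p ≤ a → a ≤ b → b ≤ p → b - a = 1 / r → (∀ φ ∈ Icc a b, |φ - φ0| ≤ 1 / r) →
      Real.exp (hsd (r ^ 2) φ0) / (2 * r) ≤ NS (L := L) (r ^ 2) p γ := by
    intro a b ha hab hb hba hφ
    have h1 : ∫ φ in a..b, Real.exp (r ^ 2 * Real.cos φ + L.m * γ / 2 * φ) ≤ NS (L := L) (r ^ 2) p γ := by
      unfold NS
      refine intervalIntegral.integral_mono_interval ha hab hb (Eventually.of_forall fun φ => (Real.exp_pos _).le) (NS_ii (L := L) _ _ _)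
    refine le_trans ?_ h1
    have h2 : ∫ φ in a..b, Real.exp (hsd (r ^ 2) φ0 - 1 / 2) = 1 / r * Real.exp (hsd (r ^ 2) φ0 - 1 / 2) := by
      rw [intervalIntegral.integral_const, smul_eq_mul, hba]
    have h3 : 1 / r * Real.exp (hsd (r ^ 2) φ0 - 1 / 2) ≤ ∫ φ in a..b, Real.exp (r ^ 2 * Real.cos φ + L.m * γ / 2 * φ) := by
      rw [← h2]
      refine intervalIntegral.integral_mono_on hab (by simp) ((by fun_prop : Continuous (fun φ : ℝ => Real.exp (r ^ 2 * Real.cos φ + L.m * γ / 2 * φ))).intervalIntegrable _ _)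
        fun φ h => Real.exp_le_exp.2 ?_
      refine le_trans ?_ (h_lo (L := L) (φ := φ) (by positivity) hγ)
      have h4 := hφ φ h
      have h5 : (φ - φ0) ^ 2 ≤ (1 / r) ^ 2 := by
        rw [← sq_abs (φ - φ0)]
        exact pow_le_pow_left₀ (abs_nonneg _) h4 2
      have h6 : r ^ 2 / 2 * (φ - φ0) ^ 2 ≤ r ^ 2 / 2 * (1 / r) ^ 2 := mul_le_mul_of_nonneg_left h5 (by positivity)
      have h7 : r ^ 2 / 2 * (1 / r) ^ 2 = 1 / 2 := by field_simp
      linarith
    refine le_trans ?_ h3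
    have h8 : (1 : ℝ) / 2 ≤ Real.exp (-(1 / 2)) := by
      have := Real.add_one_le_exp (-(1 / 2 : ℝ))
      linarith
    rw [show hsd (r ^ 2) φ0 - 1 / 2 = hsd (r ^ 2) φ0 + -(1 / 2) by ring, Real.exp_add]
    calc Real.exp (hsd (r ^ 2) φ0) / (2 * r) = 1 / r * (Real.exp (hsd (r ^ 2) φ0) * (1 / 2)) := by field_simp
      _ ≤ 1 / r * (Real.exp (hsd (r ^ 2) φ0) * Real.exp (-(1 / 2))) := by gcongr
  have hr1 : 0 < 1 / r := by positivity
  obtain ⟨h1, h2⟩ := abs_le.1 hφ0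
  rcases le_total 0 φ0 with h | h
  · refine hsub (φ0 - 1 / r) φ0 (by linarith) (by linarith) h2 (by ring) fun φ hφ => ?_
    rw [abs_le]
    exact ⟨by linarith [hφ.1], by linarith [hφ.2]⟩
  · refine hsub φ0 (φ0 + 1 / r) h1 (by linarith) (by linarith) (by ring) fun φ hφ => ?_
    rw [abs_le]
    exact ⟨by linarith [hφ.1], by linarith [hφ.2]⟩

/-- the weight from below -/
lemma AS_low {r p φ0 γ : ℝ} (hr : 0 < r) (hp0 : 0 < p) (hp1 : p < Real.pi / 2) (hrp : 1 / r ≤ p) (hr2 : 8 * (L.m : ℝ) ^ 2 * p / Real.cos p ≤ r)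
    (hφ0 : |φ0| ≤ p) (hγ : L.m * γ / 2 = r ^ 2 * Real.sin φ0) {w : ℂ} (hw : |w.re| ≤ 2) (hwγ : w.im = γ) :
    NS (L := L) (r ^ 2) p γ / 2 ≤ ‖AS (L := L) (r ^ 2) p w‖ := by
  have hm1 := m_one (L := L)
  have hm0 : (0 : ℝ) < L.m := by linarith
  have hcos : 0 < Real.cos p := Real.cos_pos_of_mem_Ioo ⟨by linarith, hp1⟩
  have hN := NS_low (L := L) hr hrp hφ0 hγ
  set k : ℝ := r ^ 2 with hk
  have hk0 : 0 < k := by positivity
  set J : ℝ → ℂ := fun φ => cexp ((k * Real.cos φ : ℝ)) * cexp (-(I * (L.m * φ / 2 : ℝ) * w)) with hJ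
  set x : ℝ := w.re with hx
  -- rotate
  have h1 : ‖AS (L := L) k p w‖ = ‖cexp ((L.m * x / 2 * φ0 : ℝ) * I) * AS (L := L) k p w‖ := by
    rw [norm_mul, Complex.norm_exp_ofReal_mul_I, one_mul]
  have h2 : cexp ((L.m * x / 2 * φ0 : ℝ) * I) * AS (L := L) k p w = ∫ φ in (-p)..p, cexp ((L.m * x / 2 * φ0 : ℝ) * I) * J φ := by
    unfold AS
    rw [intervalIntegral.integral_const_mul]
  have hJr : ∀ φ : ℝ, (cexp ((L.m * x / 2 * φ0 : ℝ) * I) * J φ).re = Real.exp (k * Real.cos φ + L.m * γ / 2 * φ) * Real.cos (L.m * x / 2 * (φ0 - φ)) := by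
    intro φ
    simp only [hJ]
    have e : cexp ((L.m * x / 2 * φ0 : ℝ) * I) * (cexp ((k * Real.cos φ : ℝ)) * cexp (-(I * (L.m * φ / 2 : ℝ) * w))) =
        cexp (((k * Real.cos φ + L.m * γ / 2 * φ : ℝ) : ℂ) + ((L.m * x / 2 * (φ0 - φ) : ℝ) : ℂ) * I) := by
      rw [← Complex.exp_add, ← Complex.exp_add]
      congr 1
      have e2 : w = (x : ℂ) + (γ : ℂ) * I := by
        apply Complex.ext <;> simp [hx, hwγ]
      rw [e2]
      push_cast
      linear_combination (-(L.m * φ / 2 * γ : ℂ)) * Complex.I_mul_I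
    rw [e, Complex.exp_re, Complex.add_re, Complex.add_im, Complex.ofReal_re, Complex.ofReal_im, Complex.re_ofReal_mul, Complex.im_ofReal_mul,
      Complex.I_re, Complex.I_im, mul_zero, add_zero, zero_add, mul_one]
  have hJc : Continuous (fun φ : ℝ => cexp ((L.m * x / 2 * φ0 : ℝ) * I) * J φ) := by
    simp only [hJ]
    fun_prop
  have h3 : (∫ φ in (-p)..p, cexp ((L.m * x / 2 * φ0 : ℝ) * I) * J φ).re = ∫ φ in (-p)..p, Real.exp (k * Real.cos φ + L.m * γ / 2 * φ) * Real.cos (L.m * x / 2 * (φ0 - φ)) := by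
    have h4 := Complex.reCLM.intervalIntegral_comp_comm (μ := volume) (hJc.intervalIntegrable (-p) p)
    simp only [Complex.reCLM_apply] at h4
    rw [← h4]
    exact intervalIntegral.integral_congr fun φ _ => hJr φ
  -- second order
  have h5 : ∀ φ ∈ Icc (-p) p, Real.exp (k * Real.cos φ + L.m * γ / 2 * φ) - (L.m : ℝ) ^ 2 / (k * Real.cos p) * Real.exp (hsd k φ0) ≤
      Real.exp (k * Real.cos φ + L.m * γ / 2 * φ) * Real.cos (L.m * x / 2 * (φ0 - φ)) := by
    intro φ hφ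
    have h6 := Real.one_sub_sq_div_two_le_cos (x := L.m * x / 2 * (φ0 - φ))
    have h7 : (L.m * x / 2 * (φ0 - φ)) ^ 2 ≤ (L.m : ℝ) ^ 2 * (φ - φ0) ^ 2 := by
      have h8 : x ^ 2 ≤ 4 := by
        rw [← sq_abs x]
        have := abs_nonneg x
        nlinarith
      have e : (L.m * x / 2 * (φ0 - φ)) ^ 2 = (L.m : ℝ) ^ 2 * (φ - φ0) ^ 2 * (x ^ 2 / 4) := by ring
      rw [e]
      exact mul_le_of_le_one_right (by positivity) (by linarith)
    have h9 := h_hi (L := L) hk0.le hp1 (abs_le.2 hφ) hφ0 hγ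
    set h : ℝ := k * Real.cos φ + L.m * γ / 2 * φ with hh
    set Y : ℝ := (φ - φ0) ^ 2 with hY
    have hY0 : 0 ≤ Y := by positivity
    have h10 : Y * Real.exp h ≤ 2 / (k * Real.cos p) * Real.exp (hsd k φ0) := by
      have h11 : Y * Real.exp (-(k * Real.cos p / 2 * Y)) ≤ 2 / (k * Real.cos p) := by
        have h12 := Real.add_one_le_exp (k * Real.cos p / 2 * Y)
        rw [Real.exp_neg, ← div_eq_mul_inv, div_le_div_iff₀ (Real.exp_pos _) (by positivity)]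
        nlinarith
      calc Y * Real.exp h ≤ Y * Real.exp (hsd k φ0 - k * Real.cos p / 2 * Y) := mul_le_mul_of_nonneg_left (Real.exp_le_exp.2 h9) hY0
        _ = Y * Real.exp (-(k * Real.cos p / 2 * Y)) * Real.exp (hsd k φ0) := by
            rw [show hsd k φ0 - k * Real.cos p / 2 * Y = -(k * Real.cos p / 2 * Y) + hsd k φ0 by ring, Real.exp_add, mul_assoc]
        _ ≤ _ := mul_le_mul_of_nonneg_right h11 (Real.exp_pos _).le
    have h12 : Real.exp h * (1 - (L.m * x / 2 * (φ0 - φ)) ^ 2 / 2) ≤ Real.exp h * Real.cos (L.m * x / 2 * (φ0 - φ)) :=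
      mul_le_mul_of_nonneg_left h6 (Real.exp_pos _).le
    have h13 : Real.exp h * ((L.m * x / 2 * (φ0 - φ)) ^ 2 / 2) ≤ (L.m : ℝ) ^ 2 / (k * Real.cos p) * Real.exp (hsd k φ0) := by
      calc Real.exp h * ((L.m * x / 2 * (φ0 - φ)) ^ 2 / 2) ≤ Real.exp h * ((L.m : ℝ) ^ 2 * Y / 2) := by gcongr
        _ = (L.m : ℝ) ^ 2 / 2 * (Y * Real.exp h) := by ring
        _ ≤ (L.m : ℝ) ^ 2 / 2 * (2 / (k * Real.cos p) * Real.exp (hsd k φ0)) := by gcongr
        _ = _ := by ring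
    linarith
  have h6 : NS (L := L) k p γ - 2 * p * ((L.m : ℝ) ^ 2 / (k * Real.cos p) * Real.exp (hsd k φ0)) ≤
      ∫ φ in (-p)..p, Real.exp (k * Real.cos φ + L.m * γ / 2 * φ) * Real.cos (L.m * x / 2 * (φ0 - φ)) := by
    have h7 : NS (L := L) k p γ - 2 * p * ((L.m : ℝ) ^ 2 / (k * Real.cos p) * Real.exp (hsd k φ0)) =
        ∫ φ in (-p)..p, (Real.exp (k * Real.cos φ + L.m * γ / 2 * φ) - (L.m : ℝ) ^ 2 / (k * Real.cos p) * Real.exp (hsd k φ0)) := by
      rw [intervalIntegral.integral_sub (NS_ii (L := L) k p γ) (by simp), intervalIntegral.integral_const, smul_eq_mul]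
      unfold NS
      ring
    rw [h7]
    exact intervalIntegral.integral_mono_on (by linarith) ((NS_ii (L := L) k p γ).sub (by simp))
      ((by fun_prop : Continuous (fun φ : ℝ => Real.exp (k * Real.cos φ + L.m * γ / 2 * φ) * Real.cos (L.m * x / 2 * (φ0 - φ)))).intervalIntegrable _ _) h5
  have h7 : 2 * p * ((L.m : ℝ) ^ 2 / (k * Real.cos p) * Real.exp (hsd k φ0)) ≤ NS (L := L) k p γ / 2 := by
    have h8 : 2 * p * ((L.m : ℝ) ^ 2 / (k * Real.cos p) * Real.exp (hsd k φ0)) ≤ Real.exp (hsd k φ0) / (2 * r) / 2 := by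
      rw [div_le_iff₀ hcos] at hr2
      have h9 : 2 * p * ((L.m : ℝ) ^ 2 / (k * Real.cos p)) ≤ 1 / (2 * r) / 2 := by
        rw [div_div, mul_div_assoc', div_le_div_iff₀ (by positivity) (by positivity), hk]
        nlinarith
      calc 2 * p * ((L.m : ℝ) ^ 2 / (k * Real.cos p) * Real.exp (hsd k φ0)) = 2 * p * ((L.m : ℝ) ^ 2 / (k * Real.cos p)) * Real.exp (hsd k φ0) := by ring
        _ ≤ 1 / (2 * r) / 2 * Real.exp (hsd k φ0) := mul_le_mul_of_nonneg_right h9 (Real.exp_pos _).le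
        _ = _ := by ring
    linarith
  rw [h1, h2]
  refine le_trans ?_ (Complex.re_le_norm _)
  rw [h3]
  linarith

end Pool.Agent.Q97.RL
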