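import Pool.Agent.Q97.RL.S7
import Pool.Agent.Q97.RL.K5

set_option autoImplicit false
set_option linter.unusedSectionVars false
set_option maxHeartbeats 2000000

/-!
# Project RGL: test functions of bounded degree at every height, with superposed kernels
-/

open Complex Filter Topology Set MeasureTheory Metric
open scoped ComplexConjugate

namespace Pool.Agent.Q97.RL

open Pool.Agent
open Pool.Agent.Y23 (TT N2 Fa kap kap_bound Fa_kap TT_mul_exp TT_smul TT_kap_sq differentiable_TT)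
open Pool.Agent.Y23.G
open Pool.Agent.Q77.XG (X_decay wt4)

lemma psi_mono : MonotoneOn (fun x : ℝ => Real.sin x - x * Real.cos x) (Icc 0 Real.pi) := by
  refine monotoneOn_of_deriv_nonneg (convex_Icc _ _) (by fun_prop) (fun x _ => (by fun_prop : Differentiable ℝ (fun x : ℝ => Real.sin x - x * Real.cos x)).differentiableAt.differentiableWithinAt) fun x hx => ?_
  rw [interior_Icc] at hx
  have h : HasDerivAt (fun x : ℝ => Real.sin x - x * Real.cos x) (Real.cos x - (1 * Real.cos x + x * -Real.sin x)) x :=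
    (Real.hasDerivAt_sin x).sub ((hasDerivAt_id x).mul (Real.hasDerivAt_cos x))
  rw [h.deriv]
  have := Real.sin_pos_of_pos_of_lt_pi hx.1 hx.2
  nlinarith [hx.1]

lemma psi_low {u φ : ℝ} (hu0 : 0 ≤ u) (hφ : |φ| ≤ Real.pi / 2 - u) :
    Real.sin u - u * Real.cos u ≤ Real.cos φ + Real.sin φ * φ - Real.pi / 2 * |Real.sin φ| := by
  have hpi := Real.pi_pos
  have key : ∀ x : ℝ, 0 ≤ x → x ≤ Real.pi / 2 - u → Real.sin u - u * Real.cos u ≤ Real.cos x + Real.sin x * x - Real.pi / 2 * |Real.sin x| := by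
    intro x hx hxu
    have h1 := psi_mono (a := u) (b := Real.pi / 2 - x) ⟨hu0, by linarith⟩ ⟨by linarith, by linarith⟩ (by linarith)
    simp only [Real.sin_pi_div_two_sub, Real.cos_pi_div_two_sub] at h1
    rw [abs_of_nonneg (Real.sin_nonneg_of_nonneg_of_le_pi hx (by linarith))]
    linarith
  rcases le_total 0 φ with h | h
  · exact key φ h (by rwa [abs_of_nonneg h] at hφ)
  · have h1 := key (-φ) (by linarith) (by rwa [abs_of_nonpos h] at hφ)
    rw [Real.cos_neg, Real.sin_neg, abs_neg] at h1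
    linarith

variable [L : LFun]

/-- the size of the main term -/
lemma size_S {c1 c u k p r γ φ0 C1 M a b E : ℝ} (hk0 : 0 < k) (hkd : k = 2 * c * E) (hEd : E = Real.exp (2 * b / L.m)) (hrd : r = Real.sqrt k) (hr : 0 < r)
    (hrk : r ^ 2 = k) (hu0 : 0 < u) (hφ0 : |φ0| ≤ Real.pi / 2 - u) (hγ0 : L.m * γ / 2 = r ^ 2 * Real.sin φ0) (hc0 : 0 < c) (ha1 : 1 ≤ a) (hb0 : 0 < b) (hba : b ≤ a)
    (hM3 : C1 + |Real.log (c1 ^ 2 / 4)| + |Real.log (2 * c)| + 1 ≤ M) (hC1 : 0 ≤ C1) (hc1 : 0 < c1)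
    (hlow : ∀ γ : ℝ, Real.exp (-(Real.pi * L.m / 4 * |γ|) - C1) ≤ ‖L.X (ctr γ)‖) (hNlow : Real.exp (hsd k φ0) / (2 * r) ≤ NS (L := L) k p γ) :
    Real.exp (-(-(2 * c * (Real.sin u - u * Real.cos u)) * E) - M * a) ≤ c1 ^ 2 * (NS (L := L) k p γ / 2) * ‖L.X (ctr γ)‖ := by
  have hm1 := m_one (L := L)
  have hm0 : (0 : ℝ) < L.m := by linarith
  have ha0 : 0 < a := by linarith
  have hE0 : 0 < E := by rw [hEd]; exact Real.exp_pos _
  have hlogr : Real.log r ≤ |Real.log (2 * c)| + a := by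
    have h1 : Real.log r = (Real.log (2 * c) + 2 * b / L.m) / 2 := by
      rw [hrd, Real.log_sqrt hk0.le, hkd, Real.log_mul (by positivity) hE0.ne', hEd, Real.log_exp]
    have h2 : 2 * b / (L.m : ℝ) ≤ 2 * a := (div_le_self (by positivity) hm1).trans (by linarith)
    have h3 := le_abs_self (Real.log (2 * c))
    have h4 := abs_nonneg (Real.log (2 * c))
    rw [h1]
    linarith
  have hpsi := mul_le_mul_of_nonneg_left (psi_low hu0.le hφ0) hk0.le
  have habs : Real.pi * L.m / 4 * |γ| = Real.pi / 2 * (k * |Real.sin φ0|) := by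
    have h1 : |L.m * γ / 2| = k * |Real.sin φ0| := by rw [hγ0, hrk, abs_mul, abs_of_pos hk0]
    rw [abs_div, abs_mul, abs_of_pos hm0, abs_two] at h1
    rw [← h1]
    ring
  have e1 : Real.exp (-|Real.log (c1 ^ 2 / 4)|) ≤ c1 ^ 2 / 4 := by
    calc Real.exp (-|Real.log (c1 ^ 2 / 4)|) ≤ Real.exp (Real.log (c1 ^ 2 / 4)) := Real.exp_le_exp.2 (neg_abs_le _)
      _ = c1 ^ 2 / 4 := Real.exp_log (by positivity)
  have e2 : Real.exp (-Real.log r) = 1 / r := by
    rw [Real.exp_neg, Real.exp_log hr, one_div]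
  calc Real.exp (-(-(2 * c * (Real.sin u - u * Real.cos u)) * E) - M * a)
      ≤ Real.exp (-|Real.log (c1 ^ 2 / 4)| + -Real.log r + hsd k φ0 + (-(Real.pi * L.m / 4 * |γ|) - C1)) := by
        refine Real.exp_le_exp.2 ?_
        rw [habs]
        unfold hsd
        have h9 : (C1 + |Real.log (c1 ^ 2 / 4)| + |Real.log (2 * c)| + 1) * a ≤ M * a := mul_le_mul_of_nonneg_right hM3 ha0.le
        have h10 : C1 ≤ C1 * a := le_mul_of_one_le_right hC1 ha1
        have h11 : |Real.log (c1 ^ 2 / 4)| ≤ |Real.log (c1 ^ 2 / 4)| * a := le_mul_of_one_le_right (abs_nonneg _) ha1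
        have h12 : |Real.log (2 * c)| ≤ |Real.log (2 * c)| * a := le_mul_of_one_le_right (abs_nonneg _) ha1
        have h13 : k * (Real.sin u - u * Real.cos u) = 2 * c * (Real.sin u - u * Real.cos u) * E := by rw [hkd]; ring
        have h14 : k * (Real.cos φ0 + Real.sin φ0 * φ0 - Real.pi / 2 * |Real.sin φ0|) =
            k * (Real.cos φ0 + Real.sin φ0 * φ0) - Real.pi / 2 * (k * |Real.sin φ0|) := by ring
        have h15 : C1 * a + |Real.log (c1 ^ 2 / 4)| * a + |Real.log (2 * c)| * a + a = (C1 + |Real.log (c1 ^ 2 / 4)| + |Real.log (2 * c)| + 1) * a := by ring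
        have h16 : -(-(2 * c * (Real.sin u - u * Real.cos u)) * E) = 2 * c * (Real.sin u - u * Real.cos u) * E := by ring
        rw [h13, h14] at hpsi
        rw [h16]
        generalize 2 * c * (Real.sin u - u * Real.cos u) * E = z1 at hpsi ⊢
        generalize k * (Real.cos φ0 + Real.sin φ0 * φ0) = z2 at hpsi ⊢
        generalize Real.pi / 2 * (k * |Real.sin φ0|) = z3 at hpsi ⊢
        linarith
    _ = Real.exp (-|Real.log (c1 ^ 2 / 4)|) * Real.exp (-Real.log r) * Real.exp (hsd k φ0) * Real.exp (-(Real.pi * L.m / 4 * |γ|) - C1) := by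
        rw [Real.exp_add, Real.exp_add, Real.exp_add]
    _ ≤ (c1 ^ 2 / 4) * (1 / r) * Real.exp (hsd k φ0) * ‖L.X (ctr γ)‖ := by
        rw [e2]
        gcongr
        exact hlow γ
    _ = c1 ^ 2 / 2 * (Real.exp (hsd k φ0) / (2 * r)) * ‖L.X (ctr γ)‖ := by
        field_simp
        ring
    _ ≤ c1 ^ 2 / 2 * NS (L := L) k p γ * ‖L.X (ctr γ)‖ := by
        gcongr
    _ = _ := by ring

/-- test functions of bounded degree at every height, with superposed kernels -/
theorem tdS {u c p θ : ℝ} (hu0 : 0 < u) (hu1 : u < Real.pi / 2) (hc0 : 0 < c) (hc : c < cc (L := L)) (hp : Real.pi / 2 - u ≤ p) (hp1 : p < Real.pi / 2)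
    (hθ : 0 ≤ θ) (hθc : L.m * θ / (4 * c) ≤ Real.cos u) :
    ∃ ω : ℝ, TD (L := L) (-(c * Real.cos p)) (-(2 * c * (Real.sin u - u * Real.cos u))) θ ω := by
  have hcc0 := cc_pos (L := L)
  have hm1 := m_one (L := L)
  have hm0 : (0 : ℝ) < L.m := by linarith
  have hpi := Real.pi_gt_three
  have hp0 : 0 < p := by linarith
  have hcosp : 0 < Real.cos p := Real.cos_pos_of_mem_Ioo ⟨by linarith, hp1⟩
  obtain ⟨η, C, hη, hC, hcut⟩ := cutS2 (L := L) hp0.le hp1 hc0 hc
  have hη4 : 0 < η / 4 := by positivity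
  set u' : ℝ := (p + Real.pi / 2) / 2 with hu'
  obtain ⟨CX, hCX, hdecay0⟩ := X_lineR (L := L) (u := u') (by rw [hu']; linarith) (by rw [hu']; linarith)
  set δ : ℝ := L.m * (u' - p) / 2 with hδ
  have hδ0 : 0 < δ := by
    have : 0 < u' - p := by rw [hu']; linarith
    positivity
  have hdecay : ∀ k v : ℝ, 0 ≤ k → ‖L.X (1 / 2 + v * I) * AS (L := L) k p (v * I)‖ ≤ CX * (2 * p) * Real.exp (k - δ * |v|) := by
    intro k v hk
    have e1 : ((v : ℂ) * I).im = v := by simp
    have h1 := (AS_le (L := L) hp0.le k (v * I)).trans (NS_le (L := L) hk hp0.le _)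
    rw [e1] at h1
    rw [norm_mul]
    calc ‖L.X (1 / 2 + v * I)‖ * ‖AS (L := L) k p (v * I)‖ ≤ (CX * Real.exp (-(L.m * u' / 2 * |v|))) * (2 * p * Real.exp (k + L.m * p / 2 * |v|)) :=
          mul_le_mul (hdecay0 v) h1 (norm_nonneg _) (by positivity)
      _ = CX * (2 * p) * (Real.exp (-(L.m * u' / 2 * |v|)) * Real.exp (k + L.m * p / 2 * |v|)) := by ring
      _ = _ := by
          rw [← Real.exp_add]
          congr 2
          rw [hδ]
          ring
  obtain ⟨Ck, hCk, hkb⟩ := kap_boundR hη4 (r := 3)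
  obtain ⟨c1, hc1, hk1⟩ := kap_real2 hη4
  obtain ⟨C0, hC0, hproj⟩ := F.proj
  obtain ⟨C1, hC1, hlow⟩ := ctr_low (L := L)
  have hlog3 : 0 ≤ Real.log (3 + θ) := Real.log_nonneg (by linarith)
  set CY : ℝ := CX * (2 * p) with hCYd
  have hCY : 0 < CY := by positivity
  set D : ℝ := 4 * Ck ^ 2 * (C + C0 * (CY + C)) with hD
  have hD0 : 0 < D := by positivity
  set M : ℝ := 4 * (Real.log (3 + θ) + 2) + |Real.log D| + 5 + (C1 + |Real.log (c1 ^ 2 / 4)| + |Real.log (2 * c)| + 1) with hM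
  have hM2 : 4 * (Real.log (3 + θ) + 2) + |Real.log D| + 5 ≤ M := by
    rw [hM]
    have h1 := abs_nonneg (Real.log (c1 ^ 2 / 4))
    have h2 := abs_nonneg (Real.log (2 * c))
    linarith
  have hM3 : C1 + |Real.log (c1 ^ 2 / 4)| + |Real.log (2 * c)| + 1 ≤ M := by
    rw [hM]
    have h1 := abs_nonneg (Real.log D)
    linarith
  have hM0 : 0 ≤ M := by
    have h1 := abs_nonneg (Real.log D)
    linarith
  set r0 : ℝ := max (1 / p) (8 * (L.m : ℝ) ^ 2 * p / Real.cos p) with hr0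
  have hr00 : 0 < r0 := lt_max_of_lt_left (by positivity)
  refine ⟨2 * c / δ, max 1 (Ck ^ 2 * Real.exp (L.m * p / 2) * 2 / c1 ^ 2), M, max (η + 1) (L.m * r0 ^ 2 / (4 * c)), le_max_left _ _, hM0,
    le_max_of_le_left (by linarith), fun a b ν hb hba hν γ hγ => ?_⟩
  have hbη : η + 1 ≤ b := le_of_max_le_left hb
  have hbr : L.m * r0 ^ 2 / (4 * c) ≤ b := le_of_max_le_right hb
  have hb1 : 1 ≤ b := by linarith
  have hb0 : 0 < b := by linarith
  have ha1 : 1 ≤ a := by linarith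
  have ha0 : 0 < a := by linarith
  obtain ⟨f, hf, hfb⟩ := hcut b (by linarith)
  set E : ℝ := Real.exp (2 * b / L.m) with hEd
  have hE0 : 0 < E := Real.exp_pos _
  have hE1 : 1 ≤ E := Real.one_le_exp (by positivity)
  set k : ℝ := 2 * c * E with hkd
  have hk0 : 0 < k := by positivity
  -- the root
  set r : ℝ := Real.sqrt k with hrd
  have hr : 0 < r := Real.sqrt_pos.2 hk0
  have hrk : r ^ 2 = k := Real.sq_sqrt hk0.le
  have hr0r : r0 ≤ r := by
    rw [hrd]
    refine Real.le_sqrt_of_sq_le ?_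
    have h1 : 2 * b / L.m ≤ E := by
      have := Real.add_one_le_exp (2 * b / L.m)
      rw [hEd]; linarith
    rw [div_le_iff₀ (by positivity)] at hbr
    have h2 : r0 ^ 2 ≤ 2 * c * (2 * b / L.m) := by
      rw [mul_div_assoc', le_div_iff₀ hm0]
      linarith
    exact h2.trans (mul_le_mul_of_nonneg_left h1 (by positivity))
  have hrp : 1 / r ≤ p := by
    have h1 : 1 / p ≤ r := (le_max_left _ _).trans hr0r
    rw [div_le_iff₀ hp0] at h1
    rw [div_le_iff₀ hr]
    linarith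
  have hrp2 : 8 * (L.m : ℝ) ^ 2 * p / Real.cos p ≤ r := (le_max_right _ _).trans hr0r
  -- the saddle point
  set φ0 : ℝ := Real.arcsin (L.m * γ / (2 * k)) with hφ0d
  have hratio : |L.m * γ / (2 * k)| ≤ Real.cos u := by
    rw [abs_div, abs_mul, abs_of_pos hm0, abs_of_pos (by positivity : 0 < 2 * k), div_le_iff₀ (by positivity)]
    rw [div_le_iff₀ (by positivity)] at hθc
    have h1 := mul_le_mul_of_nonneg_left hγ hm0.le
    have h2 := mul_le_mul_of_nonneg_right hθc hE0.le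
    rw [hkd]
    nlinarith
  have hsin : Real.sin φ0 = L.m * γ / (2 * k) := by
    have h1 := hratio.trans (Real.cos_le_one u)
    rw [hφ0d]
    exact Real.sin_arcsin (abs_le.1 h1).1 (abs_le.1 h1).2
  have hγ0 : L.m * γ / 2 = r ^ 2 * Real.sin φ0 := by
    rw [hsin, hrk]
    field_simp
  have hφ0 : |φ0| ≤ Real.pi / 2 - u := by
    have h1 : Real.arcsin (Real.cos u) = Real.pi / 2 - u := by
      rw [← Real.sin_pi_div_two_sub]
      exact Real.arcsin_sin (by linarith) (by linarith)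
    rw [abs_le]
    constructor
    · rw [← h1, ← Real.arcsin_neg]
      exact Real.monotone_arcsin (abs_le.1 hratio).1
    · rw [← h1]
      exact Real.monotone_arcsin (abs_le.1 hratio).2
  have hφ0p : |φ0| ≤ p := hφ0.trans hp
  have hNlow := NS_low (L := L) hr hrp hφ0p hγ0
  have hNpos : 0 < NS (L := L) (r ^ 2) p γ := lt_of_lt_of_le (by positivity) hNlow
  have hASlow : ∀ w : ℂ, |w.re| ≤ 2 → w.im = γ → NS (L := L) (r ^ 2) p γ / 2 ≤ ‖AS (L := L) (r ^ 2) p w‖ := fun w hw hwγ =>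
    AS_low (L := L) hr hp0 hp1 hrp hrp2 hφ0p hγ0 hw hwγ
  rw [hrk] at hNlow hNpos hASlow
  set τ := Real.exp (c * E * Real.cos p) with hτ
  have hτ0 : 0 < τ := Real.exp_pos _
  have hτ1 : 1 ≤ τ := Real.one_le_exp (by positivity)
  have hfb' : ∀ w : ℂ, |w.re| ≤ 3 → ‖TT f w - L.X (1 / 2 + w) * AS (L := L) k p w‖ ≤ C * τ := hfb
  -- the kernel
  set w1 : ℂ := γ * I with hw1
  have hw1re : w1.re = 0 := by rw [hw1]; simp
  have hw1im : w1.im = γ := by rw [hw1]; simp
  set κ : ℝ → ℂ := fun x => kap (η / 4) x * cexp (-w1 * x) with hκ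
  have hκF : Fa (η / 2) κ := by
    have := (Fa_kap hη4).mul_bdd (g := fun x : ℝ => cexp (-w1 * x)) (by fun_prop)
    rwa [show 2 * (η / 4) = η / 2 by ring] at this
  have hκT : ∀ w, TT κ w = TT (kap (η / 4)) (-w1 + w) := fun w => TT_mul_exp _ _ _
  have hκb : ∀ x, ‖κ x‖ ≤ 3 := by
    intro x
    simp only [hκ]
    rw [norm_mul, Complex.norm_exp]
    have : (-w1 * (x : ℂ)).re = 0 := by
      rw [Complex.re_mul_ofReal, Complex.neg_re, hw1re]; ring
    rw [this, Real.exp_zero, mul_one]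
    exact kap_bdd hη4 x
  obtain ⟨g0, hg0, hgT0⟩ := conv_TT hf hκF hκb
  obtain ⟨g, hg, hgT1⟩ := conv_TT hg0 hκF hκb
  rw [show b - η + η / 2 + η / 2 = b by ring] at hg
  have hκd : Differentiable ℂ (TT κ) := differentiable_TT hκF
  have hfd : Differentiable ℂ (TT f) := differentiable_TT hf
  have hAd : Differentiable ℂ (AS (L := L) k p) := AS_diff (L := L) k p hp0.le
  have hYd : Differentiable ℂ (fun w : ℂ => L.X (1 / 2 + w) * AS (L := L) k p w) := by
    have h1 : Differentiable ℂ (fun z : ℂ => L.X (1 / 2 + z)) := Xd.comp (by fun_prop)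
    exact h1.mul hAd
  set Q : ℂ → ℂ := fun w => TT κ w ^ 2 with hQ
  have hQd : Differentiable ℂ Q := hκd.pow 2
  have hgT : ∀ w, TT g w = Q w * TT f w := fun w => by rw [hgT1, hgT0]; simp only [hQ]; ring
  have hκ2 : ∀ w : ℂ, |w.re| ≤ 3 → ‖TT κ w‖ ≤ Ck / (1 + (w.im - γ) ^ 2) := by
    intro w hw
    rw [hκT]
    have h3 := hkb (-w1 + w) (by rw [Complex.add_re, Complex.neg_re, hw1re, neg_zero, zero_add]; exact hw)
    have h4 : (-w1 + w).im = w.im - γ := by
      rw [Complex.add_im, Complex.neg_im, hw1im]; ring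
    rwa [h4] at h3
  set Γ0 : ℝ := 4 * (1 + |γ|) ^ 4 * Ck ^ 2 with hΓ0
  have hΓ00 : 0 < Γ0 := by positivity
  have hQn : ∀ w : ℂ, |w.re| ≤ 3 → ‖Q w‖ ≤ Γ0 / (1 + |w.im|) ^ 4 := by
    intro w hw
    simp only [hQ]
    rw [norm_pow]
    exact wt4 (hκ2 w hw) (norm_nonneg _)
  have hQn2 : ∀ w : ℂ, |w.re| ≤ 3 → ‖Q w‖ ≤ Ck ^ 2 := by
    intro w hw
    simp only [hQ]
    rw [norm_pow]
    refine pow_le_pow_left₀ (norm_nonneg _) ((hκ2 w hw).trans ?_) 2
    exact div_le_self hCk.le (by nlinarith [sq_nonneg (w.im - γ)])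
  have hone : ∀ y : ℝ, 1 ≤ 1 + |y| := fun y => by linarith [abs_nonneg y]
  -- the decay on the line
  have hline : ∀ v : ℝ, ‖TT f (v * I)‖ ≤ CY * Real.exp (k - δ * |v|) + C * τ := by
    intro v
    have h1 := hdecay k v hk0.le
    have h2 := hfb' (v * I) (by simp)
    calc ‖TT f (v * I)‖ = ‖L.X (1 / 2 + v * I) * AS (L := L) k p (v * I) + (TT f (v * I) - L.X (1 / 2 + v * I) * AS (L := L) k p (v * I))‖ := by congr 1; ring
      _ ≤ _ := (norm_add_le _ _).trans (add_le_add h1 h2)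
  have hgd : Hd a g := by
    refine F.Hd_of_bound (hg.mono hba) (C := (CY * Real.exp k + C * τ) * Γ0) (c := 0) fun v => ?_
    have h1 := hQn (v * I) (by simp)
    have h2 := hline v
    have e1 : ((v : ℂ) * I).im = v := by simp
    rw [e1] at h1
    rw [sub_zero]
    have h3 : CY * Real.exp (k - δ * |v|) ≤ CY * Real.exp k := by
      refine mul_le_mul_of_nonneg_left (Real.exp_le_exp.2 ?_) hCY.le
      have : 0 ≤ δ * |v| := by positivity
      linarith
    have h5 : (1 + |v|) * (Γ0 / (1 + |v|) ^ 4) ≤ Γ0 := by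
      rw [mul_div_assoc', div_le_iff₀ (by positivity), mul_comm]
      refine mul_le_mul_of_nonneg_left ?_ hΓ00.le
      exact le_self_pow₀ (hone v) (by norm_num)
    rw [hgT, norm_mul]
    calc (1 + |v|) * (‖Q (v * I)‖ * ‖TT f (v * I)‖) ≤ (1 + |v|) * ((Γ0 / (1 + |v|) ^ 4) * ‖TT f (v * I)‖) := by gcongr
      _ = ‖TT f (v * I)‖ * ((1 + |v|) * (Γ0 / (1 + |v|) ^ 4)) := by ring
      _ ≤ (CY * Real.exp k + C * τ) * Γ0 := mul_le_mul (by linarith) h5 (by positivity) (by positivity)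
  -- the nodes
  set τp : ℝ := (CY + C) * Γ0 * τ with hτp
  have hτp0 : 0 ≤ τp := by positivity
  have hnodes : ∀ j : ℤ, ν < (j.natAbs : ℕ∞) → ‖TT g (F.nd a j)‖ ≤ τp / (1 + |(F.nd a j).im|) ^ 3 := by
    intro j hk
    have h1 : 2 * c / δ * a * E ≤ (j.natAbs : ℝ) := by
      have h2 : ((⌈2 * c / δ * a * E⌉₊ : ℕ) : ℕ∞) < ((j.natAbs : ℕ) : ℕ∞) := lt_of_le_of_lt hν hk
      have h3 : ⌈2 * c / δ * a * E⌉₊ < j.natAbs := by exact_mod_cast h2
      exact (Nat.le_ceil _).trans (by exact_mod_cast h3.le)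
    have h2 : Real.pi * (2 * c / δ) * E ≤ |(F.nd a j).im| := by
      rw [F.nd_im, abs_div, abs_mul, abs_of_pos ha0, abs_of_pos (by linarith : (0 : ℝ) < Real.pi), le_div_iff₀ ha0]
      rw [Nat.cast_natAbs, Int.cast_abs] at h1
      have := mul_le_mul_of_nonneg_left h1 (by linarith : (0 : ℝ) ≤ Real.pi)
      linarith
    set V : ℝ := (F.nd a j).im with hV
    have hnd : F.nd a j = (V : ℂ) * I := by
      apply Complex.ext
      · rw [F.nd_re]; simp
      · rw [hV]; simp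
    rw [hnd, hgT, norm_mul]
    have e1 : ((V : ℂ) * I).im = V := by simp
    have h3 := hQn (V * I) (by simp)
    rw [e1] at h3
    have h4 : ‖TT f (V * I)‖ ≤ (CY + C) * τ := by
      refine (hline V).trans ?_
      have h5 : CY * Real.exp (k - δ * |V|) ≤ CY * τ := by
        refine mul_le_mul_of_nonneg_left (le_trans (Real.exp_le_one_iff.2 ?_) hτ1) hCY.le
        have h6 := mul_le_mul_of_nonneg_left h2 hδ0.le
        have h7 : δ * (Real.pi * (2 * c / δ) * E) = Real.pi * k := by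
          rw [hkd]
          field_simp
        nlinarith
      linarith
    have h6 : Γ0 / (1 + |V|) ^ 4 ≤ Γ0 / (1 + |V|) ^ 3 := by
      refine div_le_div_of_nonneg_left hΓ00.le (by positivity) ?_
      exact pow_le_pow_right₀ (hone _) (by norm_num)
    calc ‖Q (V * I)‖ * ‖TT f (V * I)‖ ≤ (Γ0 / (1 + |V|) ^ 3) * ((CY + C) * τ) :=
          mul_le_mul (h3.trans h6) h4 (norm_nonneg _) (by positivity)
      _ = _ := by rw [hτp]; ring
  obtain ⟨g', hg', hgg, -⟩ := hproj a ν g τp ha1 hτp0 hgd hnodes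
  have hg'd : Differentiable ℂ (TT g') := differentiable_TT hg'.hd.1
  have hexpΛ : (1 + |γ|) ^ 4 ≤ Real.exp (4 * (Real.log (3 + θ) + 2) * a) := by
    have h1 : 3 + |γ| ≤ (3 + θ) * E := num8 hE1 hγ
    have h2 := Real.log_le_log (by positivity) h1
    rw [Real.log_mul (by positivity) (by positivity), hEd, Real.log_exp] at h2
    have h3 : 2 * b / (L.m : ℝ) ≤ 2 * a := (div_le_self (by positivity) hm1).trans (by linarith)
    have h4 := h2.trans (num9 ha1 hlog3 h3)
    rw [Real.log_le_iff_le_exp (by positivity)] at h4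
    have h5 : 1 + |γ| ≤ Real.exp ((Real.log (3 + θ) + 2) * a) := by linarith
    calc (1 + |γ|) ^ 4 ≤ Real.exp ((Real.log (3 + θ) + 2) * a) ^ 4 := pow_le_pow_left₀ (by positivity) h5 4
      _ = _ := by rw [← Real.exp_nat_mul]; congr 1; push_cast; ring
  have hAim : ∀ w : ℂ, ‖AS (L := L) k p w‖ ≤ NS (L := L) k p w.im := fun w => AS_le (L := L) hp0.le k w
  refine ⟨g', fun w => Q w * AS (L := L) k p w, fun w => Q w * (L.X (1 / 2 + w) * AS (L := L) k p w - TT f w) + (TT g w - TT g' w),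
    c1 ^ 2 * (NS (L := L) k p γ / 2), by positivity, hg', hQd.mul hAd,
    (hQd.mul (hYd.sub hfd)).add ((differentiable_TT hgd.1).sub hg'd), fun w => ?_, fun w hw => ?_, fun w hw hwγ => ?_, fun w hw hwγ => ?_, ?_⟩
  · simp only
    rw [hgT]
    ring
  · have h1 : ‖Q w * (L.X (1 / 2 + w) * AS (L := L) k p w - TT f w)‖ ≤ Γ0 * (C * τ) / (1 + |w.im|) := by
      rw [norm_mul, norm_sub_rev]
      have h2 : Γ0 / (1 + |w.im|) ^ 4 ≤ Γ0 / (1 + |w.im|) :=
        div_le_div_of_nonneg_left hΓ00.le (by positivity) (le_self_pow₀ (hone _) (by norm_num))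
      calc ‖Q w‖ * ‖TT f w - L.X (1 / 2 + w) * AS (L := L) k p w‖ ≤ (Γ0 / (1 + |w.im|)) * (C * τ) :=
            mul_le_mul ((hQn w hw).trans h2) (hfb' w hw) (norm_nonneg _) (by positivity)
        _ = _ := by ring
    have h2 := hgg w
    refine (norm_add_le _ _).trans ((add_le_add h1 h2).trans ?_)
    rw [← add_div]
    refine div_le_div_of_nonneg_right ?_ (by positivity)
    have h3 : Real.exp (a * |w.re|) ≤ Real.exp (3 * a) := Real.exp_le_exp.2 (by nlinarith)
    have h4 : a ^ 2 ≤ Real.exp (2 * a) := by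
      have h5 : a ≤ Real.exp a := by linarith [Real.add_one_le_exp a]
      calc a ^ 2 ≤ Real.exp a ^ 2 := pow_le_pow_left₀ ha0.le h5 2
        _ = _ := by rw [← Real.exp_nat_mul]; norm_num
    have h5 : a ^ 2 * Real.exp (a * |w.re|) ≤ Real.exp (5 * a) := by
      calc a ^ 2 * Real.exp (a * |w.re|) ≤ Real.exp (2 * a) * Real.exp (3 * a) := mul_le_mul h4 h3 (Real.exp_pos _).le (Real.exp_pos _).le
        _ = _ := by rw [← Real.exp_add]; congr 1; ring
    have h6 : 1 ≤ Real.exp (5 * a) := Real.one_le_exp (by positivity)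
    have h7 : Γ0 * (C * τ) + C0 * a ^ 2 * τp * Real.exp (a * |w.re|) ≤ (1 + |γ|) ^ 4 * D * Real.exp (5 * a) * τ := by
      have e1 : C0 * a ^ 2 * τp * Real.exp (a * |w.re|) = C0 * (CY + C) * Γ0 * τ * (a ^ 2 * Real.exp (a * |w.re|)) := by
        rw [hτp]; ring
      have e2 : C0 * (CY + C) * Γ0 * τ * (a ^ 2 * Real.exp (a * |w.re|)) ≤ C0 * (CY + C) * Γ0 * τ * Real.exp (5 * a) :=
        mul_le_mul_of_nonneg_left h5 (by positivity)
      have e3 : Γ0 * (C * τ) ≤ Γ0 * (C * τ) * Real.exp (5 * a) := le_mul_of_one_le_right (by positivity) h6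
      rw [e1]
      refine (add_le_add e3 e2).trans (le_of_eq ?_)
      rw [hD, hΓ0]
      ring
    refine h7.trans ?_
    calc (1 + |γ|) ^ 4 * D * Real.exp (5 * a) * τ ≤
          Real.exp (4 * (Real.log (3 + θ) + 2) * a) * Real.exp (|Real.log D| * a) * Real.exp (5 * a) * τ := by
            gcongr
            exact exp_abs_log hD0 ha1
      _ = Real.exp ((4 * (Real.log (3 + θ) + 2) + |Real.log D| + 5) * a + c * E * Real.cos p) := by
          rw [hτ, ← Real.exp_add, ← Real.exp_add, ← Real.exp_add]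
          congr 1
          ring
      _ ≤ _ := by
          refine Real.exp_le_exp.2 ?_
          have := mul_le_mul_of_nonneg_right hM2 ha0.le
          linarith
  · have e : -w1 + w = ((w.re : ℝ) : ℂ) := by
      apply Complex.ext
      · rw [Complex.add_re, Complex.neg_re, hw1re, Complex.ofReal_re]; ring
      · rw [Complex.add_im, Complex.neg_im, hw1im, Complex.ofReal_im, hwγ]; ring
    simp only [hQ]
    rw [norm_mul, norm_pow, hκT, e]
    exact mul_le_mul (pow_le_pow_left₀ hc1.le (hk1 _ hw) 2) (hASlow w hw hwγ) (by positivity) (by positivity)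
  · simp only
    rw [norm_mul]
    have h1 := NS_shift (L := L) hp0.le k w.im γ
    have h2 : Real.exp (L.m * p / 2 * |w.im - γ|) ≤ Real.exp (L.m * p / 2) :=
      Real.exp_le_exp.2 (mul_le_of_le_one_right (by positivity) hwγ)
    calc ‖Q w‖ * ‖AS (L := L) k p w‖ ≤ Ck ^ 2 * (Real.exp (L.m * p / 2) * NS (L := L) k p γ) := by
          refine mul_le_mul (hQn2 w hw) ((hAim w).trans (h1.trans ?_)) (norm_nonneg _) (by positivity)
          exact mul_le_mul_of_nonneg_right h2 hNpos.le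
      _ = Ck ^ 2 * Real.exp (L.m * p / 2) * 2 / c1 ^ 2 * (c1 ^ 2 * (NS (L := L) k p γ / 2)) := by
          field_simp
      _ ≤ _ := mul_le_mul_of_nonneg_right (le_max_right _ _) (by positivity)
  · exact size_S (L := L) hk0 hkd hEd hrd hr hrk hu0 hφ0 hγ0 hc0 ha1 hb0 hba hM3 hC1 hc1 hlow hNlow

end Pool.Agent.Q97.RL
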